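import Pool.Agent.H522R3.Cvx.Ker

/-! The field of a uniform disc. -/

open MeasureTheory Set Filter Topology Metric
open scoped ContDiff

namespace Pool.Agent.H522R3.Cvx

/-- The uniform disc. -/
noncomputable def bal (R : ℝ) : E → ℝ := (ball (0:E) R).indicator (fun _ => 1)

theorem bal_of_lt {R : ℝ} {y : E} (h : ‖y‖ < R) : bal R y = 1 :=
  indicator_of_mem (mem_ball_zero_iff.2 h) _

theorem bal_of_ge {R : ℝ} {y : E} (h : R ≤ ‖y‖) : bal R y = 0 :=
  indicator_of_notMem (by rw [mem_ball_zero_iff, not_lt]; exact h) _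

theorem bal_nonneg (R : ℝ) (y : E) : 0 ≤ bal R y := by
  rcases lt_or_ge ‖y‖ R with h | h
  · rw [bal_of_lt h]; norm_num
  · rw [bal_of_ge h]

theorem bal_le_one (R : ℝ) (y : E) : bal R y ≤ 1 := by
  rcases lt_or_ge ‖y‖ R with h | h
  · rw [bal_of_lt h]
  · rw [bal_of_ge h]; norm_num

theorem bal_meas (R : ℝ) : Measurable (bal R) :=
  measurable_const.indicator measurableSet_ball

theorem bal_den {R : ℝ} (hR : R ≤ 3) : Den 1 (bal R) :=
  ⟨bal_meas R, fun y => by rw [abs_of_nonneg (bal_nonneg R y)]; exact bal_le_one R y,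
    fun _ hy => bal_of_ge (hR.trans hy)⟩

theorem bal_rad (R : ℝ) : Rad (bal R) := by
  intro y y' h
  rcases lt_or_ge ‖y‖ R with h1 | h1
  · rw [bal_of_lt h1, bal_of_lt (h ▸ h1)]
  · rw [bal_of_ge h1, bal_of_ge (h ▸ h1)]

theorem bal_mono {R : ℝ} {y y' : E} (h : ‖y‖ ≤ ‖y'‖) : bal R y' ≤ bal R y := by
  rcases lt_or_ge ‖y'‖ R with h1 | h1
  · rw [bal_of_lt h1, bal_of_lt (h.trans_lt h1)]
  · rw [bal_of_ge h1]; exact bal_nonneg _ _

theorem inner_fld {M : ℝ} {w : E → ℝ} (h : Den M w) (x : E) :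
    inner ℝ (fld w x) x = ∫ z, w (x - z) * (‖z‖ ^ (-(5/2) : ℝ) * inner ℝ z x) := by
  unfold fld
  rw [real_inner_comm, ← integral_inner (fld_int h x) x]
  refine integral_congr_ae (Eventually.of_forall fun z => ?_)
  simp only [ker]
  rw [real_inner_smul_right, real_inner_smul_right, real_inner_comm]

theorem inner_int {M : ℝ} {w : E → ℝ} (h : Den M w) (x : E) :
    Integrable (fun z => w (x - z) * (‖z‖ ^ (-(5/2) : ℝ) * inner ℝ z x)) := by
  have := (fld_int h x).inner_const (𝕜 := ℝ) x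
  refine this.congr (Eventually.of_forall fun z => ?_)
  simp only [ker]
  rw [real_inner_smul_left, real_inner_smul_left]

/-- The symmetrised weight. -/
noncomputable def gG (R : ℝ) (x z : E) : ℝ := (bal R (x - z) - bal R (x + z)) * inner ℝ z x

theorem gG_nonneg (R : ℝ) (x z : E) : 0 ≤ gG R x z := by
  unfold gG
  have e1 := norm_sub_sq_real x z
  have e2 := norm_add_sq_real x z
  have e3 : inner ℝ x z = inner ℝ z x := real_inner_comm _ _
  rcases le_total 0 (inner ℝ z x : ℝ) with h | h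
  · have : ‖x - z‖ ≤ ‖x + z‖ := by
      refine le_of_sq_le_sq ?_ (norm_nonneg _)
      nlinarith
    exact mul_nonneg (sub_nonneg.2 (bal_mono this)) h
  · have : ‖x + z‖ ≤ ‖x - z‖ := by
      refine le_of_sq_le_sq ?_ (norm_nonneg _)
      nlinarith
    exact mul_nonneg_of_nonpos_of_nonpos (sub_nonpos.2 (bal_mono this)) h

theorem gG_zero_of_large {R : ℝ} {x z : E} (hx : ‖x‖ < R) (hz : 2 * R ≤ ‖z‖) : gG R x z = 0 := by
  unfold gG
  have h1 : R ≤ ‖x - z‖ := by
    have := norm_sub_norm_le z x; rw [norm_sub_rev] at this; linarith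
  have h2 : R ≤ ‖x + z‖ := by
    have := norm_sub_norm_le z (-x); rw [norm_neg, sub_neg_eq_add, add_comm z x] at this; linarith
  rw [bal_of_ge h1, bal_of_ge h2]; simp

theorem gG_zero_of_small {R : ℝ} {x z : E} (hx : ‖x‖ ≤ R / 2) (hz : ‖z‖ < R / 2) : gG R x z = 0 := by
  unfold gG
  have h1 : ‖x - z‖ < R := (norm_sub_le _ _).trans_lt (by linarith)
  have h2 : ‖x + z‖ < R := (norm_add_le _ _).trans_lt (by linarith)
  rw [bal_of_lt h1, bal_of_lt h2]; simp

theorem bal_inner_int {R : ℝ} (hR : R ≤ 3) (x : E) :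
    Integrable (fun z => bal R (x - z) * inner ℝ z x) := by
  have h := ((bal_den hR).int.comp_sub_left x).smul_const x
  have h1 : IntegrableOn (fun z : E => (inner ℝ z x : ℝ)) (ball 0 (‖x‖ + R)) := by
    have hc : Continuous fun z : E => (inner ℝ z x : ℝ) := by fun_prop
    exact (hc.continuousOn.integrableOn_compact (isCompact_closedBall 0 (‖x‖ + R))).mono_set
      ball_subset_closedBall
  rw [← integrable_indicator_iff measurableSet_ball] at h1
  refine h1.mono ?_ (Eventually.of_forall fun z => ?_)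
  · have := bal_meas R
    exact Measurable.aestronglyMeasurable (by fun_prop)
  · by_cases hz : z ∈ ball (0:E) (‖x‖ + R)
    · rw [indicator_of_mem hz, norm_mul, Real.norm_of_nonneg (bal_nonneg _ _)]
      exact mul_le_of_le_one_left (norm_nonneg _) (bal_le_one _ _)
    · rw [mem_ball_zero_iff, not_lt] at hz
      have : R ≤ ‖x - z‖ := by
        have := norm_sub_norm_le z x; rw [norm_sub_rev] at this; linarith
      rw [bal_of_ge this]; simp

theorem gG_eq (R : ℝ) (x z : E) :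
    gG R x z = bal R (x - z) * inner ℝ z x + bal R (x - (-z)) * inner ℝ (-z) x := by
  unfold gG; rw [inner_neg_left, sub_neg_eq_add]; ring

theorem gG_int {R : ℝ} (hR : R ≤ 3) (x : E) : Integrable (gG R x) := by
  have h := bal_inner_int hR x
  have h2 := h.comp_neg
  exact (h.add h2).congr (Eventually.of_forall fun z => (gG_eq R x z).symm)

theorem gG_integral {R : ℝ} (hR : R ≤ 3) (x : E) :
    ∫ z, gG R x z = 2 * (volume.real (ball (0:E) R) * ‖x‖ ^ 2) := by
  have h := bal_inner_int hR x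
  have e1 : ∫ z, gG R x z = (∫ z, bal R (x - z) * inner ℝ z x) +
      ∫ z, bal R (x - (-z)) * inner ℝ (-z) x := by
    rw [← integral_add h h.comp_neg]
    exact integral_congr_ae (Eventually.of_forall fun z => gG_eq R x z)
  have e2 : ∫ z, bal R (x - (-z)) * inner ℝ (-z) x = ∫ z, bal R (x - z) * inner ℝ z x :=
    integral_neg_eq_self (fun z => bal R (x - z) * inner ℝ z x) volume
  have e3 : ∫ z, bal R (x - z) * inner ℝ z x = ∫ y, bal R y * inner ℝ (x - y) x := by
    rw [← integral_sub_left_eq_self (fun y => bal R y * inner ℝ (x - y) x) volume x]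
    simp
  have h4 : Integrable (fun y => bal R y * inner ℝ (x - y) x) := by
    have := h.comp_sub_left x
    simpa using this
  have h5 : ∫ y, bal R y * inner ℝ (x - y) x = ∫ y, bal R y * inner ℝ (x + y) x := by
    rw [← integral_neg_eq_self (fun y => bal R y * inner ℝ (x - y) x) volume]
    refine integral_congr_ae (Eventually.of_forall fun y => ?_)
    simp only [sub_neg_eq_add]
    rw [bal_rad R (-y) y (norm_neg y)]
  have h6 : Integrable (fun y => bal R y * inner ℝ (x + y) x) := by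
    have := h4.comp_neg
    refine this.congr (Eventually.of_forall fun y => ?_)
    simp only [sub_neg_eq_add]
    rw [bal_rad R (-y) y (norm_neg y)]
  have h7 : (∫ y, bal R y * inner ℝ (x - y) x) + ∫ y, bal R y * inner ℝ (x + y) x
      = 2 * (volume.real (ball (0:E) R) * ‖x‖ ^ 2) := by
    rw [← integral_add h4 h6]
    have : ∀ y : E, bal R y * inner ℝ (x - y) x + bal R y * inner ℝ (x + y) x
        = bal R y * (2 * ‖x‖ ^ 2) := by
      intro y
      rw [inner_sub_left, inner_add_left, real_inner_self_eq_norm_sq]; ring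
    simp_rw [this]
    rw [integral_mul_const]
    unfold bal
    rw [integral_indicator measurableSet_ball, setIntegral_const]
    simp; ring
  rw [e1, e2, e3]
  nth_rewrite 2 [h5]
  exact h7

theorem inner_fld_bal {R : ℝ} (hR : R ≤ 3) (x : E) :
    2 * inner ℝ (fld (bal R) x) x = ∫ z, ‖z‖ ^ (-(5/2) : ℝ) * gG R x z := by
  have hi := inner_int (bal_den hR) x
  rw [inner_fld (bal_den hR) x, two_mul]
  nth_rewrite 2 [← integral_neg_eq_self (fun z => bal R (x - z) * (‖z‖ ^ (-(5/2) : ℝ) * inner ℝ z x)) volume]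
  rw [← integral_add hi hi.comp_neg]
  refine integral_congr_ae (Eventually.of_forall fun z => ?_)
  simp only [gG_eq, norm_neg]
  ring

theorem gK_int {R : ℝ} (hR : R ≤ 3) (x : E) :
    Integrable (fun z => ‖z‖ ^ (-(5/2) : ℝ) * gG R x z) := by
  have hi := inner_int (bal_den hR) x
  refine (hi.add hi.comp_neg).congr (Eventually.of_forall fun z => ?_)
  simp only [gG_eq, norm_neg, Pi.add_apply]
  ring

theorem rt_bal_lower {R : ℝ} (hR1 : 1 ≤ R) (hR : R ≤ 3) {x : E} (hx0 : x ≠ 0) (hx : ‖x‖ < R) :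
    (6 : ℝ) ^ (-(5/2) : ℝ) * volume.real (ball (0:E) 1) ≤ rt (bal R) x := by
  have hxn : 0 < ‖x‖ := norm_pos_iff.2 hx0
  have h1 : (6 : ℝ) ^ (-(5/2) : ℝ) * (2 * (volume.real (ball (0:E) R) * ‖x‖ ^ 2)) ≤
      2 * inner ℝ (fld (bal R) x) x := by
    rw [inner_fld_bal hR, ← gG_integral hR, ← integral_const_mul]
    refine integral_mono ((gG_int hR x).const_mul _) (gK_int hR x) fun z => ?_
    simp only
    rcases lt_or_ge ‖z‖ (2 * R) with hz | hz
    · by_cases hz0 : z = 0
      · subst hz0; simp [gG]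
      · refine mul_le_mul_of_nonneg_right ?_ (gG_nonneg _ _ _)
        exact Real.rpow_le_rpow_of_nonpos (norm_pos_iff.2 hz0) (by linarith) (by norm_num)
    · rw [gG_zero_of_large hx hz]; simp
  have hV : volume.real (ball (0:E) 1) ≤ volume.real (ball (0:E) R) :=
    measureReal_mono (ball_subset_ball hR1) measure_ball_lt_top.ne
  have h6 : (0:ℝ) < (6 : ℝ) ^ (-(5/2) : ℝ) := Real.rpow_pos_of_pos (by norm_num) _
  unfold rt
  rw [le_div_iff₀ (by positivity)]
  have : (6 : ℝ) ^ (-(5/2) : ℝ) * volume.real (ball (0:E) 1) * ‖x‖ ^ 2 ≤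
      (6 : ℝ) ^ (-(5/2) : ℝ) * volume.real (ball (0:E) R) * ‖x‖ ^ 2 := by gcongr
  nlinarith

theorem rt_bal_upper {R : ℝ} (hR1 : 1 ≤ R) (hR : R ≤ 3) {x : E} (hx0 : x ≠ 0) (hx : ‖x‖ < R) :
    rt (bal R) x ≤ (1/2 : ℝ) ^ (-(5/2) : ℝ) * volume.real (ball (0:E) 3) + 2 * KK := by
  have hxn : 0 < ‖x‖ := norm_pos_iff.2 hx0
  have h6 : (0:ℝ) < (1/2 : ℝ) ^ (-(5/2) : ℝ) := Real.rpow_pos_of_pos (by norm_num) _
  have hV : volume.real (ball (0:E) R) ≤ volume.real (ball (0:E) 3) :=
    measureReal_mono (ball_subset_ball hR) measure_ball_lt_top.ne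
  have hV0 : 0 ≤ volume.real (ball (0:E) R) := measureReal_nonneg
  have hK := KK_nonneg
  unfold rt
  rw [div_le_iff₀ (by positivity)]
  rcases le_total ‖x‖ (R/2) with h | h
  · have h1 : 2 * inner ℝ (fld (bal R) x) x ≤
        (1/2 : ℝ) ^ (-(5/2) : ℝ) * (2 * (volume.real (ball (0:E) R) * ‖x‖ ^ 2)) := by
      rw [inner_fld_bal hR, ← gG_integral hR, ← integral_const_mul]
      refine integral_mono (gK_int hR x) ((gG_int hR x).const_mul _) fun z => ?_
      simp only
      rcases lt_or_ge ‖z‖ (R/2) with hz | hz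
      · rw [gG_zero_of_small h hz]; simp
      · refine mul_le_mul_of_nonneg_right ?_ (gG_nonneg _ _ _)
        exact Real.rpow_le_rpow_of_nonpos (by norm_num) (by linarith) (by norm_num)
    have : (1/2 : ℝ) ^ (-(5/2) : ℝ) * volume.real (ball (0:E) R) * ‖x‖ ^ 2 ≤
      (1/2 : ℝ) ^ (-(5/2) : ℝ) * volume.real (ball (0:E) 3) * ‖x‖ ^ 2 := by gcongr
    nlinarith [mul_nonneg hK (sq_nonneg ‖x‖)]
  · have h1 : inner ℝ (fld (bal R) x) x ≤ 1 * KK * ‖x‖ :=
      (real_inner_le_norm _ _).trans (mul_le_mul_of_nonneg_right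
        (fld_norm_le (bal_den hR) (by linarith)) (norm_nonneg _))
    have h2 : KK * ‖x‖ ≤ KK * (2 * ‖x‖ ^ 2) :=
      mul_le_mul_of_nonneg_left (by nlinarith) hK
    have h3 : 0 ≤ (1/2 : ℝ) ^ (-(5/2) : ℝ) * volume.real (ball (0:E) 3) * ‖x‖ ^ 2 := by positivity
    nlinarith

end Pool.Agent.H522R3.Cvx
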