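import Pool.Agent.H522R3.Cvx.Facts

/-! A radial amplitude adapted to a state. -/

open MeasureTheory Set Filter Topology Metric
open scoped ContDiff ENNReal

namespace Pool.Agent.H522R3.Cvx

/-- Compact-in-open smooth cut-off in the plane of radii and times. -/
theorem exists_cutoff {U K : Set (ℝ × ℝ)} (hU : IsOpen U) (hK : IsCompact K) (hKU : K ⊆ U) :
    ∃ f : ℝ × ℝ → ℝ, ContDiff ℝ ∞ f ∧ HasCompactSupport f ∧ tsupport f ⊆ U ∧
      (∀ x ∈ K, f x = 1) ∧ ∀ x, 0 ≤ f x ∧ f x ≤ 1 := by
  obtain ⟨L, hLc, hKL, hLU⟩ := exists_compact_between hK hU hKU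
  have hd : Disjoint (interior L)ᶜ K := by
    rw [Set.disjoint_compl_left_iff_subset]; exact hKL
  obtain ⟨f, f1, f2, f3⟩ := exists_contMDiffMap_zero_one_of_isClosed (n := ⊤) (modelWithCornersSelf ℝ (ℝ × ℝ))
    (isOpen_interior (s := L)).isClosed_compl hK.isClosed hd
  have hts : tsupport f ⊆ L := by
    refine closure_minimal ?_ hLc.isClosed
    intro x hx
    by_contra h
    exact hx (f1 (fun h' => h (interior_subset h')))
  refine ⟨f, ?_, HasCompactSupport.of_support_subset_isCompact hLc (subset_closure.trans hts), hts.trans hLU, fun x hx => f2 hx, fun x => f3 x⟩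
  exact f.contMDiff.contDiff

noncomputable def psi (p : V) : ℝ × ℝ := (‖p.1‖ ^ 2, p.2)

theorem psi_smooth : ContDiff ℝ ∞ psi := by
  unfold psi
  exact (contDiff_fst.norm_sq ℝ).prodMk contDiff_snd

theorem norm_be0 : ‖be 0‖ = 1 := by simp [be]

theorem exists_amp {σ : ℝ} (hσ1 : σ ≤ 1) {D : V → ℝ} (hD : ContinuousOn D (Om σ))
    (hDr : ∀ p p' : V, ‖p.1‖ = ‖p'.1‖ → p.2 = p'.2 → D p = D p')
    (hD0 : ∀ p ∈ Om σ, 0 < D p) {M : ℝ} (hM : 0 < M) (hDM : ∀ p ∈ Om σ, D p ≤ M)
    {W : ℝ} (hW : 0 < W) (hWv : volume.real (Om σ) ≤ W) (hJ : 0 < ∫ p in Om σ, D p) :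
    ∃ b : V → ℝ, Adm σ b ∧ (∀ p, 0 ≤ b p) ∧ (∀ p ∈ Om σ, b p ≤ D p / 4) ∧
      ((∫ p in Om σ, D p) / (8 * W)) ^ 2 * ((∫ p in Om σ, D p) / (4 * M)) ≤ ∫ p in Om σ, b p ^ 2 := by
  set Jv := ∫ p in Om σ, D p with hJv
  set a := Jv / (2 * W) with ha
  have ha0 : 0 < a := by positivity
  have hOfin : volume (Om σ) < ⊤ := (measure_mono (Om_sub σ)).trans_lt (Om0_fin hσ1)
  have hOm : MeasurableSet (Om σ) := (isOpen_Om σ).measurableSet
  set U : Set V := Om σ ∩ D ⁻¹' (Ioi a) with hU
  have hUo : IsOpen U := hD.isOpen_inter_preimage (isOpen_Om σ) isOpen_Ioi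
  have hUm : MeasurableSet U := hUo.measurableSet
  have hUfin : volume U < ⊤ := (measure_mono inter_subset_left).trans_lt hOfin
  have hDint : IntegrableOn D (Om σ) := by
    refine Integrable.mono' (integrableOn_const (C := M) hOfin.ne) (hD.aestronglyMeasurable hOm) ?_
    refine (ae_restrict_iff' hOm).2 (Eventually.of_forall fun p hp => ?_)
    rw [Real.norm_of_nonneg (hD0 p hp).le]; exact hDM p hp
  -- measure of U
  have hUvol : Jv / (2 * M) ≤ volume.real U := by
    have h1 : Jv ≤ ∫ p in Om σ, (a + U.indicator (fun _ => M) p) := by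
      refine setIntegral_mono_on hDint ?_ hOm fun p hp => ?_
      · exact (integrableOn_const hOfin.ne).add
          ((integrable_indicator_iff hUm).2 (integrableOn_const hUfin.ne)).integrableOn
      · by_cases hpU : p ∈ U
        · rw [indicator_of_mem hpU]; linarith [hDM p hp]
        · rw [indicator_of_notMem hpU, add_zero]
          by_contra h
          exact hpU ⟨hp, not_le.1 h⟩
    have h2 : ∫ p in Om σ, (a + U.indicator (fun _ => M) p) = volume.real (Om σ) * a + volume.real U * M := by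
      rw [integral_add (integrableOn_const (C := a) hOfin.ne)
        ((integrable_indicator_iff hUm).2 (integrableOn_const (C := M) hUfin.ne)).integrableOn]
      rw [setIntegral_const, setIntegral_indicator hUm, setIntegral_const,
        show Om σ ∩ U = U from inter_eq_self_of_subset_right inter_subset_left, smul_eq_mul, smul_eq_mul]
    rw [h2] at h1
    have h3 : volume.real (Om σ) * a ≤ Jv / 2 := by
      calc volume.real (Om σ) * a ≤ W * a := mul_le_mul_of_nonneg_right hWv ha0.le
        _ = Jv / 2 := by rw [ha]; field_simp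
    rw [div_le_iff₀ (by positivity)]
    linarith
  -- the plane set
  set Ut : Set (ℝ × ℝ) := {z | 0 < z.1} ∩ (fun z : ℝ × ℝ => ((Real.sqrt z.1 • be 0, z.2) : V)) ⁻¹' U with hUt
  have hUto : IsOpen Ut := by
    refine (isOpen_lt continuous_const continuous_fst).inter (hUo.preimage ?_)
    exact ((Real.continuous_sqrt.comp continuous_fst).smul continuous_const).prodMk continuous_snd
  have hmemr : ∀ p p' : V, ‖p.1‖ = ‖p'.1‖ → p.2 = p'.2 → p ∈ U → p' ∈ U := by
    intro p p' h1 h2 hp
    refine ⟨⟨?_, ?_, ?_, ?_⟩, ?_⟩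
    · rw [← norm_ne_zero_iff, ← h1]; exact norm_ne_zero_iff.2 hp.1.1
    · rw [← h1, ← h2]; exact hp.1.2.1
    · rw [← h2]; exact hp.1.2.2.1
    · rw [← h2]; exact hp.1.2.2.2
    · have := hp.2
      simp only [mem_preimage] at this ⊢
      rw [← hDr p p' h1 h2]; exact this
  have hpre : psi ⁻¹' Ut = U := by
    ext p
    have hnorm : ‖(Real.sqrt (‖p.1‖ ^ 2)) • be 0‖ = ‖p.1‖ := by
      rw [norm_smul, norm_be0, Real.sqrt_sq (norm_nonneg _), mul_one, Real.norm_of_nonneg (norm_nonneg _)]
    constructor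
    · intro hp
      exact hmemr ((Real.sqrt (‖p.1‖ ^ 2)) • be 0, p.2) p hnorm rfl hp.2
    · intro hp
      refine ⟨?_, hmemr p ((Real.sqrt (‖p.1‖ ^ 2)) • be 0, p.2) hnorm.symm rfl hp⟩
      have := norm_pos_iff.2 hp.1.1
      show 0 < ‖p.1‖ ^ 2
      positivity
  have hpsim : Measurable psi := psi_smooth.continuous.measurable
  have : IsFiniteMeasure (volume.restrict (Om σ)) := ⟨by rw [Measure.restrict_apply_univ]; exact hOfin⟩
  set μ := Measure.map psi (volume.restrict (Om σ)) with hμ
  have : IsFiniteMeasure μ := by rw [hμ]; infer_instance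
  have hμU : μ Ut = volume U := by
    rw [hμ, Measure.map_apply hpsim hUto.measurableSet, hpre, Measure.restrict_apply hUm,
      inter_eq_self_of_subset_left inter_subset_left]
  have hlt : ENNReal.ofReal (Jv / (4 * M)) < μ Ut := by
    rw [hμU, ENNReal.ofReal_lt_iff_lt_toReal (by positivity) hUfin.ne]
    refine lt_of_lt_of_le ?_ hUvol
    rw [div_lt_div_iff₀ (by positivity) (by positivity)]
    nlinarith [mul_pos hJ hM]
  obtain ⟨K, hKU, hKc, hK⟩ := hUto.measurableSet.exists_lt_isCompact hlt
  obtain ⟨f, f1, f2, f3, f4, f5⟩ := exists_cutoff hUto hKc hKU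
  refine ⟨fun p => a / 4 * f (psi p), ⟨?_, ?_, ?_, ?_⟩, ?_, ?_, ?_⟩
  · exact contDiff_const.mul (f1.comp psi_smooth)
  · have hts : tsupport (fun p => f (psi p)) ⊆ psi ⁻¹' (tsupport f) :=
      tsupport_comp_subset_preimage f psi_smooth.continuous
    have hc : HasCompactSupport (fun p => f (psi p)) := by
      refine IsCompact.of_isClosed_subset
        ((isCompact_closedBall (0:E) 3).prod (isCompact_Icc (a := (0:ℝ)) (b := 1))) (isClosed_tsupport _) ?_
      intro p hp
      have h1 : p ∈ U := by rw [← hpre]; exact f3 (hts hp)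
      exact Om0_bdd hσ1 (Om_sub σ h1.1)
    exact hc.mul_left
  · have hts : tsupport (fun p => f (psi p)) ⊆ psi ⁻¹' (tsupport f) :=
      tsupport_comp_subset_preimage f psi_smooth.continuous
    have h2 : tsupport (fun p => a / 4 * f (psi p)) ⊆ tsupport (fun p => f (psi p)) :=
      tsupport_mul_subset_right
    intro p hp
    have h1 : p ∈ U := by rw [← hpre]; exact f3 (hts (h2 hp))
    exact h1.1
  · intro p p' h1 h2
    simp only [psi, h1, h2]
  · intro p
    have := (f5 (psi p)).1
    positivity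
  · intro p hp
    by_cases hpU : p ∈ U
    · have h1 : a < D p := hpU.2
      have h2 := (f5 (psi p)).2
      have h3 := (f5 (psi p)).1
      simp only
      nlinarith
    · have h1 : psi p ∉ tsupport f := fun h => hpU (by rw [← hpre]; exact f3 h)
      beta_reduce
      rw [image_eq_zero_of_notMem_tsupport h1, mul_zero]
      have := hD0 p hp
      linarith
  · have hKm : MeasurableSet (psi ⁻¹' K) := hpsim hKc.measurableSet
    have h1 : ∫ p in Om σ, (psi ⁻¹' K).indicator (fun _ => (a / 4) ^ 2) p ≤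
        ∫ p in Om σ, (a / 4 * f (psi p)) ^ 2 := by
      refine setIntegral_mono_on ?_ ?_ hOm fun p _ => ?_
      · refine Integrable.indicator ?_ hKm
        exact integrableOn_const hOfin.ne
      · refine Integrable.mono' (integrableOn_const (C := (a / 4) ^ 2) hOfin.ne) ?_ ?_
        · exact ((continuous_const.mul (f1.continuous.comp psi_smooth.continuous)).pow 2).aestronglyMeasurable
        · refine Eventually.of_forall fun p => ?_
          have h2 := (f5 (psi p)).2
          have h3 := (f5 (psi p)).1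
          rw [Real.norm_of_nonneg (sq_nonneg _)]
          refine pow_le_pow_left₀ (by positivity) ?_ 2
          nlinarith
      · by_cases hpK : p ∈ psi ⁻¹' K
        · rw [indicator_of_mem hpK, f4 _ hpK, mul_one]
        · rw [indicator_of_notMem hpK]; positivity
    refine le_trans ?_ h1
    rw [setIntegral_indicator hKm, setIntegral_const, smul_eq_mul]
    have h4 : volume (Om σ ∩ psi ⁻¹' K) = μ K := by
      rw [hμ, Measure.map_apply hpsim hKc.measurableSet, Measure.restrict_apply hKm, inter_comm]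
    have h5 : Jv / (4 * M) ≤ volume.real (Om σ ∩ psi ⁻¹' K) := by
      unfold Measure.real
      rw [h4]
      exact (ENNReal.ofReal_le_iff_le_toReal (measure_ne_top _ _)).1 hK.le
    have h6 : (a / 4) ^ 2 = (Jv / (8 * W)) ^ 2 := by rw [ha]; congr 1; field_simp; norm_num
    rw [h6, mul_comm]
    exact mul_le_mul_of_nonneg_right h5 (sq_nonneg _)

end Pool.Agent.H522R3.Cvx
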