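import Pool.Agent.H522R3.Cvx.Osc

/-! Facts on states. -/

open MeasureTheory Set Filter Topology Metric
open scoped ContDiff

namespace Pool.Agent.H522R3.Cvx

noncomputable def ep (σ c : ℝ) (B : V → ℝ) (p : V) : ℝ := c * fr (uu σ B) p
noncomputable def De (σ c : ℝ) (B : V → ℝ) (p : V) : ℝ := uu σ B p - (qq σ B p / ep σ c B p) ^ 2
noncomputable def J (σ c : ℝ) (B : V → ℝ) : ℝ := ∫ p in Om σ, De σ c B p

/-- States. -/
structure St (σ c c0 elo ehi : ℝ) (B : V → ℝ) : Prop where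
  adm : Adm σ B
  ex : ∃ δ : ℝ, 0 < δ ∧ ∀ p ∈ Om σ, elo + δ ≤ ep σ c B p ∧ ep σ c B p ≤ ehi - δ ∧
    δ ≤ De σ c B p ∧ δ ≤ qq σ B p - c0 * uu σ B p

theorem real_facts {u q e c0 : ℝ} (he : 0 < e) (hc0 : 0 < c0) (h1 : 0 < u - (q / e) ^ 2)
    (h2 : 0 < q - c0 * u) : 0 < u ∧ 0 < q ∧ q * c0 < e ^ 2 ∧ u * c0 ^ 2 < e ^ 2 := by
  have hu : 0 < u := by have := sq_nonneg (q / e); linarith
  have hq : 0 < q := by nlinarith [mul_pos hc0 hu]
  have h3 : q ^ 2 < u * e ^ 2 := by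
    have : q ^ 2 / e ^ 2 < u := by rw [← div_pow]; linarith
    rwa [div_lt_iff₀ (by positivity)] at this
  have h4 : q * c0 < e ^ 2 := by
    by_contra h
    rw [not_lt] at h
    have h5 : q * (c0 * u) < q * q := mul_lt_mul_of_pos_left (by linarith) hq
    have h6 : u * e ^ 2 ≤ u * (q * c0) := mul_le_mul_of_nonneg_left h hu.le
    nlinarith
  refine ⟨hu, hq, h4, ?_⟩
  have : c0 * (c0 * u) < c0 * q := mul_lt_mul_of_pos_left (by linarith) hc0
  nlinarith

theorem real_err {A elo : ℝ} (hA : 0 ≤ A) (helo : 0 < elo) {η : ℝ} (hη : 0 < η) :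
    ∃ τ : ℝ, 0 < τ ∧ ∀ q w e e' r r' : ℝ, |q| ≤ A → |w| ≤ A → elo ≤ e → elo ≤ e' →
      |r| ≤ τ → |r'| ≤ τ → |e' - e| ≤ τ →
      |r - (((q + w + r') / e') ^ 2 - ((q + w) / e) ^ 2)| ≤ η := by
  set K1 : ℝ := 1 / elo + 2 * A / elo ^ 2 with hK1
  set K2 : ℝ := (4 * A + 1) / elo with hK2
  have hK10 : 0 ≤ K1 := by positivity
  have hK20 : 0 ≤ K2 := by positivity
  refine ⟨min 1 (η / (1 + K1 * K2)), by positivity, ?_⟩
  intro q w e e' r r' hq hw he he' hr hr' hee
  set τ := min 1 (η / (1 + K1 * K2)) with hτ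
  have hτ0 : 0 < τ := by positivity
  have hτ1 : τ ≤ 1 := min_le_left _ _
  have hτ2 : τ * (1 + K1 * K2) ≤ η := by
    have : τ ≤ η / (1 + K1 * K2) := min_le_right _ _
    rwa [le_div_iff₀ (by positivity)] at this
  have he0 : 0 < e := helo.trans_le he
  have he0' : 0 < e' := helo.trans_le he'
  have hX : |q + w| ≤ 2 * A := (abs_add_le _ _).trans (by linarith)
  have hX' : |q + w + r'| ≤ 2 * A + 1 := (abs_add_le _ _).trans (by linarith)
  have d1 : |(q + w + r') / e' - (q + w) / e| ≤ τ * K1 := by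
    have e1 : (q + w + r') / e' - (q + w) / e = r' / e' + (q + w) * (e - e') / (e' * e) := by
      field_simp; ring
    rw [e1]
    refine (abs_add_le _ _).trans ?_
    have a1 : |r' / e'| ≤ τ / elo := by
      rw [abs_div, abs_of_pos he0']
      exact div_le_div₀ hτ0.le hr' helo he'
    have a2 : |(q + w) * (e - e') / (e' * e)| ≤ 2 * A * τ / elo ^ 2 := by
      rw [abs_div, abs_mul, abs_of_pos (mul_pos he0' he0), abs_sub_comm e e']
      refine div_le_div₀ (by positivity) (mul_le_mul hX hee (abs_nonneg _) (by positivity)) (by positivity) ?_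
      rw [sq]; exact mul_le_mul he' he helo.le he0'.le
    calc |r' / e'| + |(q + w) * (e - e') / (e' * e)| ≤ τ / elo + 2 * A * τ / elo ^ 2 := add_le_add a1 a2
      _ = τ * K1 := by rw [hK1]; ring
  have d2 : |(q + w + r') / e' + (q + w) / e| ≤ K2 := by
    refine (abs_add_le _ _).trans ?_
    have a1 : |(q + w + r') / e'| ≤ (2 * A + 1) / elo := by
      rw [abs_div, abs_of_pos he0']
      exact div_le_div₀ (by positivity) hX' helo he'
    have a2 : |(q + w) / e| ≤ 2 * A / elo := by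
      rw [abs_div, abs_of_pos he0]
      exact div_le_div₀ (by positivity) hX helo he
    calc |(q + w + r') / e'| + |(q + w) / e| ≤ (2 * A + 1) / elo + 2 * A / elo := add_le_add a1 a2
      _ = K2 := by rw [hK2]; ring
  have e2 : ((q + w + r') / e') ^ 2 - ((q + w) / e) ^ 2 =
      ((q + w + r') / e' - (q + w) / e) * ((q + w + r') / e' + (q + w) / e) := by ring
  rw [e2]
  refine (abs_sub _ _).trans ?_
  rw [abs_mul]
  have := mul_le_mul d1 d2 (abs_nonneg _) (by positivity)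
  nlinarith

/-- Lower bound in the oscillation. -/
theorem real_low {u q e c0 b C : ℝ} (he : 0 < e) (hc0 : 0 < c0) (h1 : 0 < u - (q / e) ^ 2)
    (h2 : 0 < q - c0 * u) (hb0 : 0 ≤ b) (hb : b ≤ (u - (q / e) ^ 2) / 4) (hC : |C| ≤ 1) :
    (u - (q / e) ^ 2) / 2 ≤ u + b * C - ((q + c0 * (b * C)) / e) ^ 2 := by
  obtain ⟨f1, f2, f3, f4⟩ := real_facts he hc0 h1 h2
  set D := u - (q / e) ^ 2 with hD
  have e1 : u + b * C - ((q + c0 * (b * C)) / e) ^ 2 =
      D + (b * C) * (1 - 2 * (q * c0 / e ^ 2)) - (c0 ^ 2 / e ^ 2) * (b * C) ^ 2 := by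
    rw [hD]; field_simp; ring
  have hx1 : 0 ≤ q * c0 / e ^ 2 := by positivity
  have hx2 : q * c0 / e ^ 2 ≤ 1 := by rw [div_le_one (by positivity)]; exact f3.le
  have hbC : |b * C| ≤ b := by
    rw [abs_mul, abs_of_nonneg hb0]; exact mul_le_of_le_one_right hb0 hC
  have hy : |(b * C) * (1 - 2 * (q * c0 / e ^ 2))| ≤ b := by
    rw [abs_mul]
    have : |1 - 2 * (q * c0 / e ^ 2)| ≤ 1 := by rw [abs_le]; constructor <;> linarith
    calc |b * C| * |1 - 2 * (q * c0 / e ^ 2)| ≤ b * 1 := mul_le_mul hbC this (abs_nonneg _) hb0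
      _ = b := mul_one b
  have hy2 := (abs_le.1 hy).1
  have hz : (b * C) ^ 2 ≤ b ^ 2 := by
    rw [← sq_abs]; exact pow_le_pow_left₀ (abs_nonneg _) hbC 2
  have hDu : D ≤ u := by rw [hD]; have := sq_nonneg (q / e); linarith
  have hw : (c0 ^ 2 / e ^ 2) * (b * C) ^ 2 ≤ b := by
    have h5 : (c0 ^ 2 / e ^ 2) * (b * C) ^ 2 ≤ (c0 ^ 2 / e ^ 2) * b ^ 2 :=
      mul_le_mul_of_nonneg_left hz (by positivity)
    have h6 : (c0 ^ 2 / e ^ 2) * b ≤ 1 / 4 := by
      rw [div_mul_eq_mul_div, div_le_iff₀ (by positivity)]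
      have : c0 ^ 2 * b ≤ c0 ^ 2 * (u / 4) := mul_le_mul_of_nonneg_left (by linarith) (by positivity)
      nlinarith
    have h7 : (c0 ^ 2 / e ^ 2) * b ^ 2 = ((c0 ^ 2 / e ^ 2) * b) * b := by ring
    have h8 : ((c0 ^ 2 / e ^ 2) * b) * b ≤ 1 / 4 * b := mul_le_mul_of_nonneg_right h6 hb0
    linarith
  rw [e1]
  linarith

section
variable {σ c c0 elo ehi : ℝ} {B : V → ℝ}

theorem uu_meas (hB : Adm σ B) : Measurable (uu σ B) := (ub_meas σ).add (dv_cont hB).measurable
theorem qq_meas (hB : Adm σ B) : Measurable (qq σ B) :=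
  ((ub_meas σ).const_mul σ).sub (dt_cont hB).measurable

theorem uu_off0 (hB : Adm σ B) {p : V} (hp : p ∉ Om0 σ) : uu σ B p = 0 := by
  unfold uu
  rw [dv_off hB (fun h => hp (Om_sub σ h)), show ub σ p = 0 from indicator_of_notMem hp _, add_zero]

theorem uu_off (hB : Adm σ B) {p : V} (hp : p ∉ Om σ) : uu σ B p = ub σ p := by
  unfold uu; rw [dv_off hB hp, add_zero]

/-- The bound on the densities. -/
noncomputable def MM (c0 ehi : ℝ) : ℝ := 1 + ehi ^ 2 / c0 ^ 2

theorem MM_pos (c0 ehi : ℝ) : 0 < MM c0 ehi := by unfold MM; positivity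

theorem st_facts (hc0 : 0 < c0) (helo : 0 < elo) (hB : St σ c c0 elo ehi B) {p : V} (hp : p ∈ Om σ) :
    elo < ep σ c B p ∧ ep σ c B p < ehi ∧ 0 < De σ c B p ∧ 0 < qq σ B p - c0 * uu σ B p ∧
    0 < uu σ B p ∧ 0 < qq σ B p ∧ qq σ B p * c0 < ep σ c B p ^ 2 ∧ uu σ B p * c0 ^ 2 < ep σ c B p ^ 2 ∧
    uu σ B p ≤ MM c0 ehi ∧ qq σ B p ≤ ehi ^ 2 / c0 := by
  obtain ⟨δ, hδ, h⟩ := hB.ex
  obtain ⟨h1, h2, h3, h4⟩ := h p hp
  have he : 0 < ep σ c B p := by linarith
  obtain ⟨f1, f2, f3, f4⟩ := real_facts he hc0 (hδ.trans_le h3) (hδ.trans_le h4)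
  have hee : ep σ c B p ^ 2 ≤ ehi ^ 2 := pow_le_pow_left₀ he.le (by linarith) 2
  refine ⟨by linarith, by linarith, by linarith, by linarith, f1, f2, f3, f4, ?_, ?_⟩
  · unfold MM
    have : uu σ B p ≤ ehi ^ 2 / c0 ^ 2 := by rw [le_div_iff₀ (by positivity)]; linarith
    linarith
  · rw [le_div_iff₀ hc0]; linarith

theorem uu_bd (hσ0 : 0 < σ) (hc0 : 0 < c0) (helo : 0 < elo) (hB : St σ c c0 elo ehi B) (p : V) :
    0 ≤ uu σ B p ∧ uu σ B p ≤ MM c0 ehi := by
  by_cases hp : p ∈ Om σ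
  · have h := st_facts hc0 helo hB hp
    exact ⟨h.2.2.2.2.1.le, h.2.2.2.2.2.2.2.2.1⟩
  · rw [uu_off hB.adm hp]
    refine ⟨ub_nonneg _ _, (ub_le_one hσ0 p).trans ?_⟩
    unfold MM
    have : 0 ≤ ehi ^ 2 / c0 ^ 2 := by positivity
    linarith

theorem uu_den (hσ0 : 0 < σ) (hσ1 : σ ≤ 1) (hc0 : 0 < c0) (helo : 0 < elo)
    (hB : St σ c c0 elo ehi B) (t : ℝ) : Den (MM c0 ehi) (fun y => uu σ B (y, t)) := by
  refine ⟨(uu_meas hB.adm).comp (measurable_id.prodMk measurable_const), fun y => ?_, fun y hy => ?_⟩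
  · have := uu_bd hσ0 hc0 helo hB (y, t)
    rw [abs_of_nonneg this.1]; exact this.2
  · apply uu_off0 hB.adm
    intro h
    have := exp_lt_three hσ1 h.2.1 h.2.2
    have h3 : ‖y‖ < Real.exp (σ * t) := h.1
    linarith

theorem uu_int (hσ0 : 0 < σ) (hσ1 : σ ≤ 1) (hc0 : 0 < c0) (helo : 0 < elo)
    (hB : St σ c c0 elo ehi B) : Integrable (uu σ B) := by
  have h1 : IntegrableOn (fun _ : V => MM c0 ehi) (Om0 σ) := integrableOn_const (Om0_fin hσ1).ne
  have h2 : IntegrableOn (uu σ B) (Om0 σ) :=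
    Integrable.mono' h1 (uu_meas hB.adm).aestronglyMeasurable (Eventually.of_forall fun p => by
      have := uu_bd hσ0 hc0 helo hB p
      rw [Real.norm_of_nonneg this.1]; exact this.2)
  rw [integrableOn_iff_integrable_of_support_subset] at h2
  · exact h2
  · intro p hp
    by_contra h3
    exact hp (uu_off0 hB.adm h3)

theorem ub_contAt {p : V} (h0 : 0 < p.2) (h1 : p.2 < 1) (hne : ‖p.1‖ ≠ Real.exp (σ * p.2)) :
    ContinuousAt (ub σ) p := by
  rcases lt_or_gt_of_ne hne with h | h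
  · have hm : p ∈ Om0 σ := ⟨h, h0, h1⟩
    have : ub σ =ᶠ[𝓝 p] fun p => Real.exp (-(2 * (σ * p.2))) := by
      filter_upwards [(isOpen_Om0 σ).mem_nhds hm] with q hq
      exact indicator_of_mem hq _
    exact ContinuousAt.congr (by fun_prop) this.symm
  · have ho : IsOpen {p : V | Real.exp (σ * p.2) < ‖p.1‖} := isOpen_lt (by fun_prop) (by fun_prop)
    have : ub σ =ᶠ[𝓝 p] fun _ => 0 := by
      filter_upwards [ho.mem_nhds h] with q hq
      exact indicator_of_notMem (fun hh => lt_asymm hh.1 hq) _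
    exact ContinuousAt.congr continuousAt_const this.symm

theorem ep_contAt (hσ0 : 0 < σ) (hσ1 : σ ≤ 1) (hc0 : 0 < c0) (helo : 0 < elo)
    (hB : St σ c c0 elo ehi B) {p : V} (hp : p ∈ Om σ) : ContinuousAt (ep σ c B) p := by
  have h1 : ContinuousAt (fun p : V => fld (fun y => uu σ B (y, p.2)) p.1) p := by
    refine fld_cont (fun t => uu_den hσ0 hσ1 hc0 helo hB t) p ?_
    have hs : ∀ᵐ y : E, y ∉ sphere (0:E) (Real.exp (σ * p.2)) :=
      measure_eq_zero_iff_ae_notMem.1 (Measure.addHaar_sphere volume 0 _)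
    have hq : Measure.QuasiMeasurePreserving (fun z : E => p.1 - z) volume volume :=
      (Measure.measurePreserving_sub_left volume p.1).quasiMeasurePreserving
    filter_upwards [hq.ae hs] with z hz
    have hz' : ‖p.1 - z‖ ≠ Real.exp (σ * p.2) := by
      intro h; exact hz (mem_sphere_zero_iff_norm.2 h)
    exact (ub_contAt (p := (p.1 - z, p.2)) hp.2.2.1 hp.2.2.2 hz').add (dv_cont hB.adm).continuousAt
  unfold ep fr rt
  refine continuousAt_const.mul (ContinuousAt.div (h1.inner continuousAt_fst) (by fun_prop) ?_)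
  have := norm_pos_iff.2 hp.1
  positivity

theorem uu_contOn (hB : Adm σ B) : ContinuousOn (uu σ B) (Om0 σ) := by
  intro p hp
  exact ((ub_contAt hp.2.1 hp.2.2 hp.1.ne).add (dv_cont hB).continuousAt).continuousWithinAt

theorem qq_contOn (hB : Adm σ B) : ContinuousOn (qq σ B) (Om0 σ) := by
  intro p hp
  exact ((continuousAt_const.mul (ub_contAt hp.2.1 hp.2.2 hp.1.ne)).sub
    (dt_cont hB).continuousAt).continuousWithinAt

theorem ep_contOn (hσ0 : 0 < σ) (hσ1 : σ ≤ 1) (hc0 : 0 < c0) (helo : 0 < elo)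
    (hB : St σ c c0 elo ehi B) : ContinuousOn (ep σ c B) (Om σ) := fun _ hp =>
  (ep_contAt hσ0 hσ1 hc0 helo hB hp).continuousWithinAt

theorem De_contOn (hσ0 : 0 < σ) (hσ1 : σ ≤ 1) (hc0 : 0 < c0) (helo : 0 < elo)
    (hB : St σ c c0 elo ehi B) : ContinuousOn (De σ c B) (Om σ) := by
  unfold De
  refine ((uu_contOn hB.adm).mono (Om_sub σ)).sub
    ((((qq_contOn hB.adm).mono (Om_sub σ)).div (ep_contOn hσ0 hσ1 hc0 helo hB) ?_).pow 2)
  intro p hp
  exact (helo.trans (st_facts hc0 helo hB hp).1).ne'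

theorem ep_rad (hB : Adm σ B) {p p' : V} (h1 : ‖p.1‖ = ‖p'.1‖) (h2 : p.2 = p'.2) :
    ep σ c B p = ep σ c B p' := by
  have hr : Rad (fun y => uu σ B (y, p.2)) := by
    intro y y' h
    have hb : ub σ (y, p.2) = ub σ (y', p.2) := by
      by_cases ht : 0 < p.2 ∧ p.2 < 1
      · have e := ub_slice (σ := σ) ht.1 ht.2
        have e1 : ub σ (y, p.2) = _ := congrFun e y
        have e2 : ub σ (y', p.2) = _ := congrFun e y'
        rw [e1, e2, bal_rad _ y y' h]
      · rw [ub_slice_zero ht, ub_slice_zero ht]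
    have hd : dv B (y, p.2) = dv B (y', p.2) := by
      have e := dvx_slice hB p.2
      have e1 : _ = dv B (y, p.2) := congrFun e y
      have e2 : _ = dv B (y', p.2) := congrFun e y'
      rw [← e1, ← e2]
      set R : E ≃ₗᵢ[ℝ] E := (ℝ ∙ (y - y'))ᗮ.reflection
      have hR : R y = y' := Submodule.reflection_sub h
      unfold dvx
      have hB' : (fun z => B (z, p.2)) = fun z => B (R z, p.2) := by
        funext z; exact hB.rad _ _ (R.norm_map z).symm rfl
      have hg : Differentiable ℝ (fun z => B (z, p.2)) :=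
        (hB.smooth.comp (contDiff_id.prodMk contDiff_const)).differentiable (by simp)
      have h3 : fderiv ℝ (fun z => B (z, p.2)) y y = fderiv ℝ (fun z => B (z, p.2)) y' y' := by
        have h4 : HasFDerivAt (fun z => B (R z, p.2))
            ((fderiv ℝ (fun z => B (z, p.2)) (R y)).comp (R.toContinuousLinearEquiv : E →L[ℝ] E)) y :=
          HasFDerivAt.comp (g := fun z => B (z, p.2)) (f := fun z => R z) y (hg (R y)).hasFDerivAt
            (R.toContinuousLinearEquiv : E →L[ℝ] E).hasFDerivAt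
        nth_rewrite 1 [hB']
        rw [h4.fderiv]
        simp only [ContinuousLinearMap.comp_apply]
        have : (R.toContinuousLinearEquiv : E →L[ℝ] E) y = y' := hR
        rw [this, hR]
      rw [h3]
      beta_reduce
      rw [hB.rad (y, p.2) (y', p.2) h rfl]
    unfold uu
    beta_reduce
    rw [hb, hd]
  unfold ep fr
  rw [rt_rad hr h1, h2]

end

end Pool.Agent.H522R3.Cvx
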