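import Pool.Agent.H522R3.Cvx.Ker

/-! The Riesz potential and its weak gradient. -/

open MeasureTheory Set Filter Topology Metric
open scoped ContDiff

namespace Pool.Agent.H522R3.Cvx

noncomputable def pk (z : E) : ℝ := ‖z‖ ^ (-(1/2) : ℝ)

noncomputable def pot (w : E → ℝ) (x : E) : ℝ := ∫ y, pk (x - y) * w y

theorem pk_meas : Measurable pk := by unfold pk; fun_prop

theorem pk_loc : LocallyIntegrable pk := by
  refine locallyIntegrable_of_norm_le_rpow (C := 1) (α := 1/2) (by rw [finrankE]; norm_num)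
    (by rw [finrankE]; norm_num) (Eventually.of_forall fun x => ?_) pk_meas.aestronglyMeasurable
  rw [one_mul, pk, Real.norm_of_nonneg (Real.rpow_nonneg (norm_nonneg _) _)]

theorem kn_loc : LocallyIntegrable kn := by
  refine locallyIntegrable_of_norm_le_rpow (C := 1) (α := 3/2) (by rw [finrankE]; norm_num)
    (by rw [finrankE]; norm_num) (Eventually.of_forall fun x => ?_) kn_meas.aestronglyMeasurable
  rw [one_mul, kn, Real.norm_of_nonneg (Real.rpow_nonneg (norm_nonneg _) _)]

noncomputable def k2 (e z : E) : ℝ := ‖z‖ ^ (-(5/2) : ℝ) * inner ℝ z e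

theorem k2_meas (e : E) : Measurable (k2 e) := by unfold k2; fun_prop

theorem k2_eq (e z : E) : k2 e z = inner ℝ (ker z) e := by
  unfold k2 ker; rw [real_inner_smul_left]

theorem k2_bd (e z : E) : |k2 e z| ≤ kn z * ‖e‖ := by
  rw [k2_eq]
  exact (abs_real_inner_le_norm _ _).trans (mul_le_mul_of_nonneg_right (ker_norm_le z) (norm_nonneg _))

theorem k2_loc (e : E) : LocallyIntegrable (k2 e) := by
  refine locallyIntegrable_of_norm_le_rpow (C := ‖e‖) (α := 3/2) (by rw [finrankE]; norm_num)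
    (by rw [finrankE]; norm_num) (Eventually.of_forall fun x => ?_) (k2_meas e).aestronglyMeasurable
  rw [Real.norm_eq_abs, mul_comm]
  exact k2_bd e x

theorem loc_mul {K ψ : E → ℝ} (hK : LocallyIntegrable K) (hψ : Continuous ψ) (hc : HasCompactSupport ψ) :
    Integrable (fun x => K x * ψ x) := by
  have := hK.integrable_smul_left_of_hasCompactSupport hψ hc
  refine this.congr (Eventually.of_forall fun x => ?_)
  simp [mul_comm]

theorem reg_hasFDeriv {a : ℝ} (ha : 0 < a) (z : E) :
    HasFDerivAt (fun z : E => (‖z‖ ^ 2 + a) ^ (-(1/4) : ℝ))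
      ((-(1/4) * (‖z‖ ^ 2 + a) ^ (-(1/4) - 1 : ℝ)) • ((2:ℝ) • (innerSL ℝ z))) z := by
  have h1 : HasFDerivAt (fun z : E => ‖z‖ ^ 2 + a) ((2:ℝ) • (innerSL ℝ z)) z := by
    have h := ((hasStrictFDerivAt_norm_sq z).hasFDerivAt).add_const a
    rw [show (2:ℝ) • (innerSL ℝ z : E →L[ℝ] ℝ) = 2 • (innerSL ℝ z : E →L[ℝ] ℝ) from by
      rw [two_smul, two_smul]]
    exact h
  exact h1.rpow_const (Or.inl (by positivity))

theorem reg_contDiff {a : ℝ} (ha : 0 < a) : ContDiff ℝ 1 (fun z : E => (‖z‖ ^ 2 + a) ^ (-(1/4) : ℝ)) := by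
  have h1 : ContDiff ℝ 1 (fun z : E => ‖z‖ ^ 2 + a) := (contDiff_id.norm_sq ℝ).add contDiff_const
  exact h1.rpow_const_of_ne fun z => by positivity

theorem point_ibp {ψ : E → ℝ} (hψ : ContDiff ℝ 1 ψ) (hc : HasCompactSupport ψ) (e : E) :
    ∫ x, pk x * fderiv ℝ ψ x e = (1/2) * ∫ x, k2 e x * ψ x := by
  have hcd : Continuous fun x => fderiv ℝ ψ x e :=
    (hψ.continuous_fderiv one_ne_zero).clm_apply continuous_const
  have hcc : HasCompactSupport fun x => fderiv ℝ ψ x e := hc.fderiv_apply (𝕜 := ℝ) e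
  set a : ℕ → ℝ := fun n => 1 / ((n:ℝ) + 1) with ha
  have ha0 : ∀ n, 0 < a n := fun n => by rw [ha]; positivity
  have hat : Tendsto a atTop (𝓝 0) := tendsto_one_div_add_atTop_nhds_zero_nat
  have hfd : ∀ n x, fderiv ℝ (fun z : E => (‖z‖ ^ 2 + a n) ^ (-(1/4) : ℝ)) x e =
      -((1/2) * ((‖x‖ ^ 2 + a n) ^ (-(5/4) : ℝ) * inner ℝ x e)) := by
    intro n x
    rw [(reg_hasFDeriv (ha0 n) x).fderiv]
    simp only [smul_apply, smul_eq_mul, innerSL_apply_apply]
    norm_num
    ring
  have hib : ∀ n, ∫ x, (‖x‖ ^ 2 + a n) ^ (-(1/4) : ℝ) * fderiv ℝ ψ x e =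
      ∫ x, (1/2) * ((‖x‖ ^ 2 + a n) ^ (-(5/4) : ℝ) * inner ℝ x e) * ψ x := by
    intro n
    have hr := reg_contDiff (ha0 n)
    have hrc : Continuous fun x => fderiv ℝ (fun z : E => (‖z‖ ^ 2 + a n) ^ (-(1/4) : ℝ)) x e :=
      (hr.continuous_fderiv one_ne_zero).clm_apply continuous_const
    rw [integral_mul_fderiv_eq_neg_fderiv_mul_of_integrable
      ((hrc.mul hψ.continuous).integrable_of_hasCompactSupport hc.mul_left)
      ((hr.continuous.mul hcd).integrable_of_hasCompactSupport hcc.mul_left)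
      ((hr.continuous.mul hψ.continuous).integrable_of_hasCompactSupport hc.mul_left)
      (fun x _ => hr.differentiable one_ne_zero x) (fun x _ => hψ.differentiable one_ne_zero x)]
    rw [← integral_neg]
    refine integral_congr_ae (Eventually.of_forall fun x => ?_)
    simp only
    rw [hfd]; ring
  have hz : ∀ᵐ x : E, x ≠ 0 := by
    have : (volume : Measure E) {0} = 0 := measure_singleton 0
    filter_upwards [measure_eq_zero_iff_ae_notMem.1 this] with x hx
    simpa using hx
  have hrp : ∀ x : E, x ≠ 0 → ∀ r : ℝ, (‖x‖ ^ 2) ^ r = ‖x‖ ^ (2 * r) := fun x hx r => by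
    rw [← Real.rpow_natCast ‖x‖ 2, ← Real.rpow_mul (norm_nonneg _)]; norm_num
  have l1 : Tendsto (fun n => ∫ x, (‖x‖ ^ 2 + a n) ^ (-(1/4) : ℝ) * fderiv ℝ ψ x e) atTop
      (𝓝 (∫ x, pk x * fderiv ℝ ψ x e)) := by
    refine tendsto_integral_of_dominated_convergence (fun x => ‖pk x * fderiv ℝ ψ x e‖) (fun n => ?_)
      (loc_mul pk_loc hcd hcc).norm (fun n => ?_) ?_
    · exact ((reg_contDiff (ha0 n)).continuous.mul hcd).aestronglyMeasurable
    · filter_upwards [hz] with x hx
      rw [norm_mul, norm_mul]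
      refine mul_le_mul_of_nonneg_right ?_ (norm_nonneg _)
      have hx0 : 0 < ‖x‖ := norm_pos_iff.2 hx
      have h0 := ha0 n
      rw [Real.norm_of_nonneg (by positivity), Real.norm_of_nonneg (by unfold pk; positivity)]
      have : pk x = (‖x‖ ^ 2) ^ (-(1/4) : ℝ) := by rw [hrp x hx]; unfold pk; norm_num
      rw [this]
      exact Real.rpow_le_rpow_of_nonpos (by positivity) (by linarith) (by norm_num)
    · filter_upwards [hz] with x hx
      refine Tendsto.mul_const _ ?_
      have hx0 : 0 < ‖x‖ := norm_pos_iff.2 hx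
      have : pk x = (‖x‖ ^ 2 + 0) ^ (-(1/4) : ℝ) := by rw [add_zero, hrp x hx]; unfold pk; norm_num
      rw [this]
      exact (hat.const_add (‖x‖ ^ 2)).rpow_const (Or.inl (by positivity))
  have l2 : Tendsto (fun n => ∫ x, (1/2) * ((‖x‖ ^ 2 + a n) ^ (-(5/4) : ℝ) * inner ℝ x e) * ψ x) atTop
      (𝓝 (∫ x, (1/2) * k2 e x * ψ x)) := by
    refine tendsto_integral_of_dominated_convergence (fun x => ‖(kn x * ‖e‖) * ψ x‖) (fun n => ?_) ?_ (fun n => ?_) ?_
    · have h0 := ha0 n
      have hcont : Continuous fun x : E => (‖x‖ ^ 2 + a n) ^ (-(5/4) : ℝ) := by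
        have hcn : Continuous fun x : E => ‖x‖ ^ 2 + a n := by fun_prop
        exact hcn.rpow_const fun x => Or.inl (by positivity)
      have hin : Continuous fun x : E => (inner ℝ x e : ℝ) := by fun_prop
      exact ((continuous_const.mul (hcont.mul hin)).mul hψ.continuous).aestronglyMeasurable
    · have h9 : Integrable (fun x : E => (kn x * ‖e‖) * ψ x) := by
        have := (loc_mul kn_loc hψ.continuous hc).const_mul ‖e‖
        refine this.congr (Eventually.of_forall fun x => ?_)
        simp only; ring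
      exact h9.norm
    · filter_upwards [hz] with x hx
      rw [norm_mul _ (ψ x), norm_mul _ (ψ x)]
      refine mul_le_mul_of_nonneg_right ?_ (norm_nonneg _)
      have hx0 : 0 < ‖x‖ := norm_pos_iff.2 hx
      have h0 := ha0 n
      have hk : (‖x‖ ^ 2 + a n) ^ (-(5/4) : ℝ) ≤ ‖x‖ ^ (-(5/2) : ℝ) := by
        have : ‖x‖ ^ (-(5/2) : ℝ) = (‖x‖ ^ 2) ^ (-(5/4) : ℝ) := by rw [hrp x hx]; norm_num
        rw [this]
        exact Real.rpow_le_rpow_of_nonpos (by positivity) (by linarith) (by norm_num)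
      have hkn : kn x = ‖x‖ ^ (-(5/2) : ℝ) * ‖x‖ := by
        unfold kn
        nth_rewrite 3 [← Real.rpow_one ‖x‖]
        rw [← Real.rpow_add hx0]; norm_num
      have hrn : 0 ≤ (‖x‖ ^ 2 + a n) ^ (-(5/4) : ℝ) := by positivity
      rw [Real.norm_eq_abs, Real.norm_eq_abs, abs_mul, abs_mul, abs_of_nonneg hrn,
        abs_of_nonneg (mul_nonneg (kn_nonneg x) (norm_nonneg e)), abs_of_pos (by norm_num : (0:ℝ) < 1/2), hkn]
      have h1 := abs_real_inner_le_norm x e
      have h2 : (‖x‖ ^ 2 + a n) ^ (-(5/4) : ℝ) * |inner ℝ x e| ≤ ‖x‖ ^ (-(5/2) : ℝ) * (‖x‖ * ‖e‖) :=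
        mul_le_mul hk h1 (abs_nonneg _) (by positivity)
      have h3 : 0 ≤ ‖x‖ ^ (-(5/2) : ℝ) * (‖x‖ * ‖e‖) := by positivity
      nlinarith
    · filter_upwards [hz] with x hx
      refine Tendsto.mul_const _ (Tendsto.const_mul _ ?_)
      have hx0 : 0 < ‖x‖ := norm_pos_iff.2 hx
      have : k2 e x = (‖x‖ ^ 2 + 0) ^ (-(5/4) : ℝ) * inner ℝ x e := by
        rw [add_zero, hrp x hx]; unfold k2; norm_num
      rw [this]
      exact ((hat.const_add (‖x‖ ^ 2)).rpow_const (Or.inl (by positivity))).mul_const _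
  simp_rw [hib] at l1
  rw [tendsto_nhds_unique l1 l2, ← integral_const_mul]
  refine integral_congr_ae (Eventually.of_forall fun x => ?_)
  simp only; ring

theorem prod_int {K ψ w : E → ℝ} (hK : LocallyIntegrable K) {M : ℝ} (hw : Den M w)
    (hψ : Continuous ψ) (hc : HasCompactSupport ψ) :
    Integrable (fun z : E × E => K (z.1 - z.2) * w z.2 * ψ z.1) (volume.prod volume) := by
  obtain ⟨r, hr0, hr⟩ := hc.isCompact.isBounded.exists_pos_norm_lt
  obtain ⟨C, hC⟩ := hc.exists_bound_of_continuous hψ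
  have hK1 : Integrable ((ball (0:E) (r + 3)).indicator K) := by
    rw [integrable_indicator_iff measurableSet_ball]
    exact (hK.integrableOn_isCompact (isCompact_closedBall 0 (r + 3))).mono_set ball_subset_closedBall
  have h1 := hw.int.convolution_integrand (ContinuousLinearMap.mul ℝ ℝ) hK1 (μ := volume) (ν := volume)
  have h2 : Integrable (fun z : E × E => ψ z.1 * (w z.2 * (ball (0:E) (r + 3)).indicator K (z.1 - z.2)))
      (volume.prod volume) := by
    refine Integrable.bdd_mul (c := C) h1 (hψ.comp continuous_fst).aestronglyMeasurable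
      (Eventually.of_forall fun z => hC _)
  refine h2.congr (Eventually.of_forall fun z => ?_)
  simp only
  by_cases hz : z.1 - z.2 ∈ ball (0:E) (r + 3)
  · rw [indicator_of_mem hz]; ring
  · rw [indicator_of_notMem hz]
    rw [mem_ball_zero_iff, not_lt] at hz
    by_cases h3 : ψ z.1 = 0
    · rw [h3]; simp
    · have h4 : ‖z.1‖ < r := hr _ (subset_tsupport _ h3)
      have h5 : w z.2 = 0 := by
        apply hw.supp
        have := norm_sub_le z.1 z.2
        linarith
      rw [h5]; simp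

theorem swap_int {K ψ w : E → ℝ} (hK : LocallyIntegrable K) {M : ℝ} (hw : Den M w)
    (hψ : Continuous ψ) (hc : HasCompactSupport ψ) :
    ∫ x, (∫ y, K (x - y) * w y) * ψ x = ∫ y, w y * ∫ x, K (x - y) * ψ x := by
  have h := prod_int hK hw hψ hc
  have e1 : ∫ x, (∫ y, K (x - y) * w y) * ψ x = ∫ x, ∫ y, K (x - y) * w y * ψ x := by
    refine integral_congr_ae (Eventually.of_forall fun x => ?_)
    simp only
    rw [integral_mul_const]
  rw [e1, integral_integral_swap (f := fun x y => K (x - y) * w y * ψ x) h]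
  refine integral_congr_ae (Eventually.of_forall fun y => ?_)
  simp only
  rw [← integral_const_mul]
  refine integral_congr_ae (Eventually.of_forall fun x => ?_)
  simp only; ring

theorem fld_inner {M : ℝ} {w : E → ℝ} (hw : Den M w) (x e : E) :
    inner ℝ (fld w x) e = ∫ y, k2 e (x - y) * w y := by
  unfold fld
  rw [real_inner_comm, ← integral_inner (fld_int hw x) e]
  rw [← integral_sub_left_eq_self (fun z => (inner ℝ e (w (x - z) • ker z) : ℝ)) volume x]
  refine integral_congr_ae (Eventually.of_forall fun y => ?_)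
  simp only
  rw [sub_sub_cancel, real_inner_smul_right, k2_eq, real_inner_comm]
  ring

/-- The weak gradient of the potential on time slices. -/
theorem slice_grad {M : ℝ} {w : E → ℝ} (hw : Den M w) {ψ : E → ℝ} (hψ : ContDiff ℝ 1 ψ)
    (hc : HasCompactSupport ψ) (e : E) :
    ∫ x, pot w x * fderiv ℝ ψ x e = (1/2) * ∫ x, inner ℝ (fld w x) e * ψ x := by
  have hcd : Continuous fun x => fderiv ℝ ψ x e :=
    (hψ.continuous_fderiv one_ne_zero).clm_apply continuous_const
  have hcc : HasCompactSupport fun x => fderiv ℝ ψ x e := hc.fderiv_apply (𝕜 := ℝ) e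
  have e1 : ∫ x, pot w x * fderiv ℝ ψ x e = ∫ y, w y * ∫ x, pk (x - y) * fderiv ℝ ψ x e :=
    swap_int pk_loc hw hcd hcc
  have e2 : ∫ x, inner ℝ (fld w x) e * ψ x = ∫ y, w y * ∫ x, k2 e (x - y) * ψ x := by
    rw [← swap_int (k2_loc e) hw hψ.continuous hc]
    refine integral_congr_ae (Eventually.of_forall fun x => ?_)
    simp only
    rw [fld_inner hw]
  have e3 : ∀ y : E, ∫ x, pk (x - y) * fderiv ℝ ψ x e = (1/2) * ∫ x, k2 e (x - y) * ψ x := by
    intro y
    have h1 : ContDiff ℝ 1 (fun x => ψ (x + y)) := hψ.comp (contDiff_id.add contDiff_const)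
    have h2 : HasCompactSupport (fun x => ψ (x + y)) :=
      hc.comp_homeomorph (Homeomorph.addRight y)
    have h3 := point_ibp h1 h2 e
    rw [← integral_sub_right_eq_self (fun x => pk x * fderiv ℝ (fun x => ψ (x + y)) x e) y,
      ← integral_sub_right_eq_self (fun x => k2 e x * ψ (x + y)) y] at h3
    simp only [fderiv_comp_add_right, sub_add_cancel] at h3
    exact h3
  rw [e1, e2, ← integral_const_mul]
  refine integral_congr_ae (Eventually.of_forall fun y => ?_)
  simp only
  rw [e3]; ring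

end Pool.Agent.H522R3.Cvx
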