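import Pool.Agent.H522R3.Cvx.Start
import Pool.Agent.H522R3.Cvx.Grad

/-! Properties of the packaged solutions. -/

open MeasureTheory Set Filter Topology Metric
open scoped ContDiff ENNReal

namespace Pool.Agent.H522R3.Cvx

theorem pk_nonneg (z : E) : 0 ≤ pk z := Real.rpow_nonneg (norm_nonneg _) _

theorem pk_le_one {z : E} (hz : 1 ≤ ‖z‖) : pk z ≤ 1 :=
  Real.rpow_le_one_of_one_le_of_nonpos hz (by norm_num)

theorem kn_le_one {z : E} (hz : 1 ≤ ‖z‖) : kn z ≤ 1 :=
  Real.rpow_le_one_of_one_le_of_nonpos hz (by norm_num)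

theorem kerbd {M : ℝ} {w : E → ℝ} (hw : Den M w) {k : E → ℝ} (hk0 : ∀ z, 0 ≤ k z)
    (hk1 : ∀ z, 1 ≤ ‖z‖ → k z ≤ 1) (x z : E) :
    k z * |w (x - z)| ≤ M * (ball (0:E) 1).indicator k z + |w (x - z)| := by
  have hM := hw.nonneg
  by_cases hz : z ∈ ball (0:E) 1
  · rw [indicator_of_mem hz]
    have h1 := mul_le_mul_of_nonneg_left (hw.bd (x - z)) (hk0 z)
    have h2 := abs_nonneg (w (x - z))
    linarith
  · rw [indicator_of_notMem hz, mul_zero, zero_add]
    rw [mem_ball_zero_iff, not_lt] at hz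
    exact mul_le_of_le_one_left (abs_nonneg _) (hk1 z hz)

theorem kerbd_int {M : ℝ} {w : E → ℝ} (hw : Den M w) {k : E → ℝ} (hk : LocallyIntegrable k) (x : E) :
    Integrable (fun z => M * (ball (0:E) 1).indicator k z + |w (x - z)|) := by
  refine Integrable.add (Integrable.const_mul ?_ _) (hw.int.comp_sub_left x).abs
  rw [integrable_indicator_iff measurableSet_ball]
  exact (hk.integrableOn_isCompact (isCompact_closedBall 0 1)).mono_set ball_subset_closedBall

theorem den_l1 {M : ℝ} {w : E → ℝ} (hw : Den M w) (x : E) :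
    ∫ z, |w (x - z)| ≤ M * volume.real (ball (0:E) 3) := by
  rw [integral_sub_left_eq_self (fun y => |w y|) volume x]
  calc ∫ y, |w y| ≤ ∫ y, (ball (0:E) 3).indicator (fun _ => M) y := by
        refine integral_mono hw.int.abs ((integrable_indicator_iff measurableSet_ball).2
          (integrableOn_const measure_ball_lt_top.ne)) fun y => ?_
        by_cases hy : y ∈ ball (0:E) 3
        · rw [indicator_of_mem hy]; exact hw.bd y
        · rw [indicator_of_notMem hy]
          rw [mem_ball_zero_iff, not_lt] at hy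
          simp [hw.supp y hy]
    _ = M * volume.real (ball (0:E) 3) := by
        rw [integral_indicator measurableSet_ball, setIntegral_const, smul_eq_mul, mul_comm]

/-- global constants -/
noncomputable def Cg (k : E → ℝ) : ℝ := (∫ z, (ball (0:E) 1).indicator k z) + volume.real (ball (0:E) 3)

theorem kerbd_le {M : ℝ} {w : E → ℝ} (hw : Den M w) {k : E → ℝ} (hk : LocallyIntegrable k) (x : E) :
    ∫ z, (M * (ball (0:E) 1).indicator k z + |w (x - z)|) ≤ M * Cg k := by
  have h1 : Integrable (fun z => M * (ball (0:E) 1).indicator k z) := by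
    refine Integrable.const_mul ?_ _
    rw [integrable_indicator_iff measurableSet_ball]
    exact (hk.integrableOn_isCompact (isCompact_closedBall 0 1)).mono_set ball_subset_closedBall
  rw [integral_add h1 (hw.int.comp_sub_left x).abs, integral_const_mul]
  unfold Cg
  have := den_l1 hw x
  linarith

theorem fld_global {M : ℝ} {w : E → ℝ} (hw : Den M w) (x : E) : ‖fld w x‖ ≤ M * Cg kn := by
  refine le_trans ?_ (kerbd_le hw kn_loc x)
  unfold fld
  refine norm_integral_le_of_norm_le (kerbd_int hw kn_loc x) (Eventually.of_forall fun z => ?_)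
  refine le_trans ?_ (kerbd hw kn_nonneg (fun z hz => kn_le_one hz) x z)
  rw [norm_smul, mul_comm]
  exact mul_le_mul_of_nonneg_right (ker_norm_le z) (norm_nonneg _)

theorem pot_eq (w : E → ℝ) (x : E) : pot w x = ∫ z, pk z * w (x - z) := by
  unfold pot
  rw [← integral_sub_left_eq_self (fun z => pk z * w (x - z)) volume x]
  simp

theorem pot_int' {M : ℝ} {w : E → ℝ} (hw : Den M w) (x : E) : Integrable (fun z => pk z * w (x - z)) := by
  have := hw.meas
  have := pk_meas
  refine Integrable.mono' (kerbd_int hw pk_loc x) (Measurable.aestronglyMeasurable (by fun_prop))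
    (Eventually.of_forall fun z => ?_)
  rw [norm_mul, Real.norm_of_nonneg (pk_nonneg z)]
  exact kerbd hw pk_nonneg (fun z hz => pk_le_one hz) x z

theorem pot_int {M : ℝ} {w : E → ℝ} (hw : Den M w) (x : E) : Integrable (fun y => pk (x - y) * w y) := by
  have := (pot_int' hw x).comp_sub_left x
  simpa using this

theorem pot_global {M : ℝ} {w : E → ℝ} (hw : Den M w) (x : E) : |pot w x| ≤ M * Cg pk := by
  rw [pot_eq, ← Real.norm_eq_abs]
  refine le_trans ?_ (kerbd_le hw pk_loc x)
  refine norm_integral_le_of_norm_le (kerbd_int hw pk_loc x) (Eventually.of_forall fun z => ?_)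
  rw [norm_mul, Real.norm_of_nonneg (pk_nonneg z)]
  exact kerbd hw pk_nonneg (fun z hz => pk_le_one hz) x z

theorem pot_measV {w : V → ℝ} (hw : Measurable w) : Measurable (fun p : V => pot (fun y => w (y, p.2)) p.1) := by
  have := pk_meas
  have h : Measurable (fun z : V × E => pk (z.1.1 - z.2) * w (z.2, z.1.2)) := by fun_prop
  exact (h.stronglyMeasurable.integral_prod_right' (ν := (volume : Measure E))).measurable

theorem fld_measV {w : V → ℝ} (hw : Measurable w) : Measurable (fun p : V => fld (fun y => w (y, p.2)) p.1) := by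
  have := ker_meas
  have h : Measurable (fun z : V × E => w (z.1.1 - z.2, z.1.2) • ker z.2) := by fun_prop
  exact (h.stronglyMeasurable.integral_prod_right' (ν := (volume : Measure E))).measurable

theorem bdd_loc {F : Type*} [NormedAddCommGroup F] {f : V → F} (hf : AEStronglyMeasurable f volume) {C : ℝ}
    (hC : ∀ p, ‖f p‖ ≤ C) : LocallyIntegrable f volume :=
  (memLp_top_of_bound hf C (Eventually.of_forall hC)).locallyIntegrable le_top

section
variable {c σ : ℝ} {u q : V → ℝ} {M : ℝ}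

theorem Sol.den (hσ1 : σ ≤ 1) (S : Sol c σ u q M) (t : ℝ) : Den M (fun y => u (y, t)) := by
  refine ⟨S.um.comp (measurable_id.prodMk measurable_const), fun y => ?_, fun y hy => ?_⟩
  · rw [abs_of_nonneg (S.ub _).1]; exact (S.ub _).2
  · apply S.uo
    intro h
    have := exp_lt_three hσ1 h.2.1 h.2.2
    have h3 : ‖y‖ < Real.exp (σ * t) := h.1
    linarith

theorem gradV (hσ1 : σ ≤ 1) (S : Sol c σ u q M) (a : ℝ) {ψ : V → ℝ} (hψ : ContDiff ℝ 1 ψ)
    (hc : HasCompactSupport ψ) (e : E) :
    ∫ p : V, a * pot (fun y => u (y, p.2)) p.1 * fderiv ℝ ψ p (e, (0:ℝ)) =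
      - ∫ p : V, inner ℝ ((-(a / 2)) • fld (fun y => u (y, p.2)) p.1) e * ψ p := by
  have hcd : Continuous fun p => fderiv ℝ ψ p (e, (0:ℝ)) :=
    (hψ.continuous_fderiv one_ne_zero).clm_apply continuous_const
  have hcc : HasCompactSupport fun p => fderiv ℝ ψ p (e, (0:ℝ)) := hc.fderiv_apply (𝕜 := ℝ) _
  have i1 : Integrable (fun p : V => a * pot (fun y => u (y, p.2)) p.1 * fderiv ℝ ψ p (e, (0:ℝ))) := by
    refine (hcd.integrable_of_hasCompactSupport hcc).bdd_mul (c := |a| * (M * Cg pk))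
      ((pot_measV S.um).const_mul a).aestronglyMeasurable (Eventually.of_forall fun p => ?_)
    rw [norm_mul]
    exact mul_le_mul_of_nonneg_left (pot_global (S.den hσ1 p.2) p.1) (norm_nonneg _)
  have hfm := fld_measV S.um
  have i2 : Integrable (fun p : V => inner ℝ ((-(a / 2)) • fld (fun y => u (y, p.2)) p.1) e * ψ p) := by
    refine (hψ.continuous.integrable_of_hasCompactSupport hc).bdd_mul (c := |-(a/2)| * (M * Cg kn) * ‖e‖)
      (Measurable.aestronglyMeasurable (by fun_prop)) (Eventually.of_forall fun p => ?_)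
    refine (abs_real_inner_le_norm _ _).trans (mul_le_mul_of_nonneg_right ?_ (norm_nonneg _))
    rw [norm_smul]
    exact mul_le_mul_of_nonneg_left (fld_global (S.den hσ1 p.2) p.1) (norm_nonneg _)
  rw [Measure.volume_eq_prod] at i1 i2 ⊢
  rw [integral_prod_symm _ i1, integral_prod_symm _ i2, ← integral_neg]
  refine integral_congr_ae (Eventually.of_forall fun t => ?_)
  simp only
  have hs1 : ContDiff ℝ 1 (fun x => ψ (x, t)) := hψ.comp (contDiff_id.prodMk contDiff_const)
  have hs2 : HasCompactSupport (fun x => ψ (x, t)) := by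
    obtain ⟨r, hr0, hr⟩ := hc.isCompact.isBounded.exists_pos_norm_lt
    refine HasCompactSupport.intro (isCompact_closedBall (0:E) r) fun x hx => ?_
    by_contra h
    have h1 := hr (x, t) (subset_tsupport _ h)
    have h2 : ‖x‖ ≤ ‖((x, t) : V)‖ := norm_fst_le (x, t)
    exact hx (mem_closedBall_zero_iff.2 (h2.trans h1.le))
  have h3 := slice_grad (S.den hσ1 t) hs1 hs2 e
  have h4 : ∀ x, fderiv ℝ (fun x => ψ (x, t)) x e = fderiv ℝ ψ (x, t) (e, (0:ℝ)) := by
    intro x
    have g1 : HasFDerivAt ψ (fderiv ℝ ψ (x, t)) (x, t) := (hψ.differentiable one_ne_zero _).hasFDerivAt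
    have g2 : HasFDerivAt (fun y : E => ((y, t) : V)) (ContinuousLinearMap.inl ℝ E ℝ) x :=
      hasFDerivAt_prodMk_left x t
    have g3 := HasFDerivAt.comp (g := ψ) (f := fun y : E => ((y, t) : V)) x g1 g2
    have g4 : fderiv ℝ (fun y => ψ (y, t)) x = _ := g3.fderiv
    rw [g4]; simp
  simp_rw [h4] at h3
  have e1 : ∫ x, a * pot (fun y => u (y, t)) x * fderiv ℝ ψ (x, t) (e, (0:ℝ)) =
      a * ∫ x, pot (fun y => u (y, t)) x * fderiv ℝ ψ (x, t) (e, (0:ℝ)) := by
    rw [← integral_const_mul]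
    refine integral_congr_ae (Eventually.of_forall fun x => ?_)
    simp only; ring
  have e2 : ∫ x, inner ℝ ((-(a / 2)) • fld (fun y => u (y, t)) x) e * ψ (x, t) =
      (-(a / 2)) * ∫ x, inner ℝ (fld (fun y => u (y, t)) x) e * ψ (x, t) := by
    rw [← integral_const_mul]
    refine integral_congr_ae (Eventually.of_forall fun x => ?_)
    simp only
    rw [real_inner_smul_left]; ring
  rw [e1, e2, h3]
  ring

theorem ae_ne_zero : ∀ᵐ p : V, p.1 ≠ 0 := by
  have hz : ∀ᵐ x : E, x ≠ 0 := by
    have : (volume : Measure E) {0} = 0 := measure_singleton 0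
    filter_upwards [measure_eq_zero_iff_ae_notMem.1 this] with x hx
    simpa using hx
  have hq : Measure.QuasiMeasurePreserving (Prod.fst : E × ℝ → E) volume volume := by
    rw [Measure.volume_eq_prod]
    exact Measure.quasiMeasurePreserving_fst
  exact hq.ae hz

/-- The flux identity. -/
theorem flux_ae (S : Sol c σ u q M) :
    ∀ᵐ p : V, Real.sqrt (u p) • ((-c) • fld (fun y => u (y, p.2)) p.1) = -(q p • p.1) := by
  filter_upwards [S.ex, ae_ne_zero] with p h1 h2
  by_cases hp : p ∈ Om0 σ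
  · rw [← h1 ⟨h2, hp⟩, neg_smul, smul_neg]
  · rw [S.uo p hp, S.qo p hp]; simp

theorem sol_int (hσ1 : σ ≤ 1) (S : Sol c σ u q M) {H : V → ℝ} (hH : Continuous H) :
    Integrable (fun p => u p * H p) ∧ Integrable (fun p => q p * H p) := by
  have hd := om0_dom hσ1 M hH
  constructor
  · refine hd.mono' (S.um.aestronglyMeasurable.mul hH.aestronglyMeasurable) (Eventually.of_forall fun p => ?_)
    by_cases hp : p ∈ Om0 σ
    · rw [indicator_of_mem hp, norm_mul, Real.norm_of_nonneg (S.ub p).1]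
      exact mul_le_mul_of_nonneg_right (S.ub p).2 (norm_nonneg _)
    · rw [indicator_of_notMem hp, S.uo p hp]; simp
  · refine hd.mono' (S.qm.aestronglyMeasurable.mul hH.aestronglyMeasurable) (Eventually.of_forall fun p => ?_)
    by_cases hp : p ∈ Om0 σ
    · rw [indicator_of_mem hp, norm_mul]
      exact mul_le_mul_of_nonneg_right (S.qb p) (norm_nonneg _)
    · rw [indicator_of_notMem hp, S.qo p hp]; simp

theorem sol_Mnonneg (S : Sol c σ u q M) : 0 ≤ M := (S.ub (0, 0)).1.trans (S.ub (0, 0)).2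

theorem sol_integrable (hσ1 : σ ≤ 1) (S : Sol c σ u q M) : Integrable u := by
  have := (sol_int hσ1 S (H := fun _ => 1) continuous_const).1
  simpa using this

/-- The equation in the form with the gradient field. -/
theorem sol_weak (hσ1 : σ ≤ 1) (S : Sol c σ u q M) {φ : V → ℝ} (hφ : ContDiff ℝ 1 φ)
    (hφ1 : ∀ x, φ (x, 1) = 0) :
    Integrable (fun p : V => u p * fderiv ℝ φ p ((0:E), (1:ℝ))) ∧
    Integrable (fun p : V => Real.sqrt (u p) * fderiv ℝ φ p ((-c) • fld (fun y => u (y, p.2)) p.1, (0:ℝ))) ∧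
    (∫ p : V, u p * fderiv ℝ φ p ((0:E), (1:ℝ))) -
      (∫ p : V, Real.sqrt (u p) * fderiv ℝ φ p ((-c) • fld (fun y => u (y, p.2)) p.1, (0:ℝ))) +
      (∫ x : E, bal 1 x * φ (x, (0:ℝ))) = 0 := by
  have hc1 := hφ.continuous_fderiv one_ne_zero
  have hc2 : Continuous fun p : V => fderiv ℝ φ p ((0:E), (1:ℝ)) := hc1.clm_apply continuous_const
  have hc3 : Continuous fun p : V => fderiv ℝ φ p (p.1, 0) :=
    hc1.clm_apply (continuous_fst.prodMk continuous_const)
  have i1 := (sol_int hσ1 S hc2).1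
  have i2 := (sol_int hσ1 S hc3).2
  have hae : ∀ᵐ p : V, - (q p * fderiv ℝ φ p (p.1, 0)) =
      Real.sqrt (u p) * fderiv ℝ φ p ((-c) • fld (fun y => u (y, p.2)) p.1, (0:ℝ)) := by
    filter_upwards [flux_ae S] with p hp
    have h1 : Real.sqrt (u p) * fderiv ℝ φ p ((-c) • fld (fun y => u (y, p.2)) p.1, (0:ℝ)) =
        fderiv ℝ φ p (Real.sqrt (u p) • ((-c) • fld (fun y => u (y, p.2)) p.1), (0:ℝ)) := by
      rw [← smul_eq_mul, ← map_smul]
      congr 1
      ext1
      · rfl
      · simp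
    have h2 : ((-(q p • p.1), (0:ℝ)) : V) = (-(q p)) • ((p.1, 0) : V) := by
      ext1
      · simp
      · simp
    rw [h1, hp, h2, map_smul, smul_eq_mul]
    ring
  have i3 : Integrable (fun p : V => Real.sqrt (u p) * fderiv ℝ φ p ((-c) • fld (fun y => u (y, p.2)) p.1, (0:ℝ))) :=
    i2.neg.congr hae
  refine ⟨i1, i3, ?_⟩
  have h3 : ∫ p : V, Real.sqrt (u p) * fderiv ℝ φ p ((-c) • fld (fun y => u (y, p.2)) p.1, (0:ℝ)) =
      - ∫ p : V, q p * fderiv ℝ φ p (p.1, 0) := by
    rw [← integral_neg]; exact (integral_congr_ae hae).symm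
  have h4 : ∫ x : E, bal 1 x * φ (x, (0:ℝ)) = ∫ y in ball (0:E) 1, φ (y, 0) := by
    rw [← integral_indicator measurableSet_ball]
    refine integral_congr_ae (Eventually.of_forall fun x => ?_)
    simp only
    by_cases hx : ‖x‖ < 1
    · rw [bal_of_lt hx, indicator_of_mem (mem_ball_zero_iff.2 hx), one_mul]
    · rw [bal_of_ge (not_lt.1 hx), indicator_of_notMem (by rwa [mem_ball_zero_iff]), zero_mul]
  have h5 := S.wk φ hφ hφ1
  have h6 : ∫ p : V, (u p * dt φ p + q p * fderiv ℝ φ p (p.1, 0)) =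
      (∫ p : V, u p * fderiv ℝ φ p ((0:E), (1:ℝ))) + ∫ p : V, q p * fderiv ℝ φ p (p.1, 0) :=
    integral_add i1 i2
  rw [h3, h4]
  linarith

end

end Pool.Agent.H522R3.Cvx
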