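import Mathlib

/-! The Riesz gradient kernel in the plane and its fields. -/

open MeasureTheory Set Filter Topology Metric
open scoped ContDiff

namespace Pool.Agent.H522R3.Cvx

abbrev E := EuclideanSpace ℝ (Fin 2)

/-- The kernel. -/
noncomputable def ker (z : E) : E := ‖z‖ ^ (-(5/2) : ℝ) • z

/-- The size of the kernel. -/
noncomputable def kn (z : E) : ℝ := ‖z‖ ^ (-(3/2) : ℝ)

theorem kn_nonneg (z : E) : 0 ≤ kn z := Real.rpow_nonneg (norm_nonneg _) _

theorem ker_norm_le (z : E) : ‖ker z‖ ≤ kn z := by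
  unfold ker kn
  by_cases hz : z = 0
  · subst hz; simp
  · have h : 0 < ‖z‖ := norm_pos_iff.2 hz
    rw [norm_smul, Real.norm_of_nonneg (Real.rpow_nonneg h.le _)]
    nth_rewrite 2 [← Real.rpow_one ‖z‖]
    rw [← Real.rpow_add h]
    norm_num

theorem ker_meas : Measurable ker := by
  unfold ker; fun_prop

theorem kn_meas : Measurable kn := by
  unfold kn; fun_prop

theorem ker_neg (z : E) : ker (-z) = -ker z := by
  unfold ker; simp

theorem ker_iso (R : E ≃ₗᵢ[ℝ] E) (z : E) : ker (R z) = R (ker z) := by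
  unfold ker; simp

theorem finrankE : Module.finrank ℝ E = 2 := by simp

theorem rpow_intOn (a : ℝ) (ha : a < 2) (r : ℝ) :
    IntegrableOn (fun z : E => ‖z‖ ^ (-a)) (ball 0 r) := by
  refine integrableOn_ball_of_norm_le_rpow (C := 1) (α := a) (by rw [finrankE]; norm_num)
    (by rw [finrankE]; exact_mod_cast ha) (Eventually.of_forall fun x => ?_) ?_
  · rw [one_mul, Real.norm_of_nonneg (Real.rpow_nonneg (norm_nonneg _) _)]
  · exact (measurable_norm.pow_const _).aestronglyMeasurable

theorem kn_intOn (r : ℝ) : IntegrableOn kn (ball 0 r) := by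
  exact rpow_intOn (3/2) (by norm_num) r

theorem kn_small {η : ℝ} (hη : 0 < η) : ∃ ρ : ℝ, 0 < ρ ∧ ρ ≤ 1 ∧ ∫ z in ball (0 : E) ρ, kn z ≤ η := by
  set C : ℝ := ∫ z in ball (0 : E) 1, ‖z‖ ^ (-(7/4) : ℝ) with hC
  have hC0 : 0 ≤ C := setIntegral_nonneg measurableSet_ball fun z _ => Real.rpow_nonneg (norm_nonneg _) _
  have hI := rpow_intOn (7/4) (by norm_num) 1
  have key : ∀ ρ : ℝ, 0 < ρ → ρ ≤ 1 → ∫ z in ball (0 : E) ρ, kn z ≤ ρ ^ (1/4 : ℝ) * C := by
    intro ρ h0 h1
    have hsub : ball (0 : E) ρ ⊆ ball 0 1 := ball_subset_ball h1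
    calc ∫ z in ball (0 : E) ρ, kn z ≤ ∫ z in ball (0 : E) ρ, ρ ^ (1/4 : ℝ) * ‖z‖ ^ (-(7/4) : ℝ) := by
          refine setIntegral_mono_on (kn_intOn ρ) ((hI.mono_set hsub).const_mul _) measurableSet_ball ?_
          intro z hz
          rw [mem_ball_zero_iff] at hz
          unfold kn
          by_cases hz0 : z = 0
          · subst hz0
            rw [norm_zero, Real.zero_rpow (by norm_num), Real.zero_rpow (by norm_num)]; simp
          · have h : 0 < ‖z‖ := norm_pos_iff.2 hz0
            have e : ‖z‖ ^ (-(3/2) : ℝ) = ‖z‖ ^ (1/4 : ℝ) * ‖z‖ ^ (-(7/4) : ℝ) := by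
              rw [← Real.rpow_add h]; norm_num
            rw [e]
            exact mul_le_mul_of_nonneg_right (Real.rpow_le_rpow h.le hz.le (by norm_num))
              (Real.rpow_nonneg h.le _)
      _ = ρ ^ (1/4 : ℝ) * ∫ z in ball (0 : E) ρ, ‖z‖ ^ (-(7/4) : ℝ) := by
          rw [integral_const_mul]
      _ ≤ ρ ^ (1/4 : ℝ) * C := by
          refine mul_le_mul_of_nonneg_left ?_ (Real.rpow_nonneg h0.le _)
          exact setIntegral_mono_set hI
            (Eventually.of_forall fun z => Real.rpow_nonneg (norm_nonneg _) _) hsub.eventuallyLE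
  have ht : Tendsto (fun ρ : ℝ => ρ ^ (1/4 : ℝ) * C) (𝓝[>] 0) (𝓝 (0 ^ (1/4 : ℝ) * C)) := by
    refine Tendsto.mul_const _ ?_
    exact ((Real.continuous_rpow_const (by norm_num)).tendsto 0).mono_left nhdsWithin_le_nhds
  rw [Real.zero_rpow (by norm_num), zero_mul] at ht
  have h1 : ∀ᶠ ρ in 𝓝[>] (0:ℝ), ρ ^ (1/4 : ℝ) * C < η := ht.eventually (gt_mem_nhds hη)
  have h2 : ∀ᶠ ρ in 𝓝[>] (0:ℝ), ρ ∈ Ioo (0:ℝ) 1 := Ioo_mem_nhdsGT one_pos
  obtain ⟨ρ, ha, hb⟩ := (h1.and h2).exists
  exact ⟨ρ, hb.1, hb.2.le, (key ρ hb.1 hb.2.le).trans ha.le⟩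

/-- Densities we consider: measurable, bounded by `M`, supported in the ball of radius `3`. -/
structure Den (M : ℝ) (w : E → ℝ) : Prop where
  meas : Measurable w
  bd : ∀ y, |w y| ≤ M
  supp : ∀ y, 3 ≤ ‖y‖ → w y = 0

theorem Den.nonneg {M : ℝ} {w : E → ℝ} (h : Den M w) : 0 ≤ M := (abs_nonneg _).trans (h.bd 0)

theorem Den.add {M M' : ℝ} {w w' : E → ℝ} (h : Den M w) (h' : Den M' w') :
    Den (M + M') (fun y => w y + w' y) :=
  ⟨h.meas.add h'.meas, fun y => (abs_add_le _ _).trans (add_le_add (h.bd y) (h'.bd y)),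
    fun y hy => by rw [h.supp y hy, h'.supp y hy, add_zero]⟩

theorem Den.sub {M M' : ℝ} {w w' : E → ℝ} (h : Den M w) (h' : Den M' w') :
    Den (M + M') (fun y => w y - w' y) :=
  ⟨h.meas.sub h'.meas, fun y => (abs_sub _ _).trans (add_le_add (h.bd y) (h'.bd y)),
    fun y hy => by rw [h.supp y hy, h'.supp y hy, sub_zero]⟩

theorem Den.int {M : ℝ} {w : E → ℝ} (h : Den M w) : Integrable w := by
  have h1 : IntegrableOn (fun _ : E => M) (ball 0 3) :=
    integrableOn_const measure_ball_lt_top.ne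
  have h2 : IntegrableOn w (ball 0 3) :=
    Integrable.mono' h1 h.meas.aestronglyMeasurable (Eventually.of_forall h.bd)
  rw [integrableOn_iff_integrable_of_support_subset] at h2
  · exact h2
  · intro y hy
    by_contra h3
    rw [mem_ball_zero_iff, not_lt] at h3
    exact hy (h.supp y h3)

/-- The field of a density. -/
noncomputable def fld (w : E → ℝ) (x : E) : E := ∫ z, w (x - z) • ker z

theorem fld_bound {M : ℝ} {w : E → ℝ} (h : Den M w) (x z : E) :
    ‖w (x - z) • ker z‖ ≤ (ball (0:E) (‖x‖ + 3)).indicator (fun z => M * kn z) z := by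
  by_cases hz : z ∈ ball (0:E) (‖x‖ + 3)
  · rw [indicator_of_mem hz, norm_smul]
    exact mul_le_mul (h.bd _) (ker_norm_le z) (norm_nonneg _) h.nonneg
  · rw [indicator_of_notMem hz]
    rw [mem_ball_zero_iff, not_lt] at hz
    have : w (x - z) = 0 := by
      apply h.supp
      have := norm_sub_norm_le z x
      rw [norm_sub_rev] at this
      linarith
    simp [this]

theorem fld_dom_int (M r : ℝ) : Integrable ((ball (0:E) r).indicator (fun z => M * kn z)) := by
  rw [integrable_indicator_iff measurableSet_ball]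
  exact (kn_intOn _).const_mul M

theorem fld_meas {M : ℝ} {w : E → ℝ} (h : Den M w) (x : E) :
    AEStronglyMeasurable (fun z => w (x - z) • ker z) volume := by
  have := h.meas
  have := ker_meas
  exact Measurable.aestronglyMeasurable (by fun_prop)

theorem fld_int {M : ℝ} {w : E → ℝ} (h : Den M w) (x : E) :
    Integrable (fun z => w (x - z) • ker z) :=
  Integrable.mono' (fld_dom_int M (‖x‖ + 3)) (fld_meas h x)
    (Eventually.of_forall fun z => fld_bound h x z)

/-- The total size of the kernel. -/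
noncomputable def KK : ℝ := ∫ z in ball (0:E) 6, kn z

theorem KK_nonneg : 0 ≤ KK := setIntegral_nonneg measurableSet_ball fun z _ => kn_nonneg z

theorem fld_norm_le {M : ℝ} {w : E → ℝ} (h : Den M w) {x : E} (hx : ‖x‖ ≤ 3) :
    ‖fld w x‖ ≤ M * KK := by
  unfold fld
  calc ‖∫ z, w (x - z) • ker z‖ ≤ ∫ z, (ball (0:E) (‖x‖ + 3)).indicator (fun z => M * kn z) z :=
        norm_integral_le_of_norm_le (fld_dom_int M (‖x‖ + 3))
          (Eventually.of_forall fun z => fld_bound h x z)
    _ = ∫ z in ball (0:E) (‖x‖ + 3), M * kn z := integral_indicator measurableSet_ball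
    _ ≤ ∫ z in ball (0:E) 6, M * kn z := by
        refine setIntegral_mono_set ((kn_intOn _).const_mul M)
          (Eventually.of_forall fun z => mul_nonneg h.nonneg (kn_nonneg z)) ?_
        exact (ball_subset_ball (by linarith)).eventuallyLE
    _ = M * KK := by rw [integral_const_mul]; rfl

theorem fld_add {M M' : ℝ} {w w' : E → ℝ} (h : Den M w) (h' : Den M' w') (x : E) :
    fld (fun y => w y + w' y) x = fld w x + fld w' x := by
  unfold fld
  rw [← integral_add (fld_int h x) (fld_int h' x)]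
  refine integral_congr_ae (Eventually.of_forall fun z => ?_)
  simp [add_smul]

theorem fld_sub {M M' : ℝ} {w w' : E → ℝ} (h : Den M w) (h' : Den M' w') (x : E) :
    fld (fun y => w y - w' y) x = fld w x - fld w' x := by
  unfold fld
  rw [← integral_sub (fld_int h x) (fld_int h' x)]
  refine integral_congr_ae (Eventually.of_forall fun z => ?_)
  simp [sub_smul]

theorem fld_smul (a : ℝ) (w : E → ℝ) (x : E) :
    fld (fun y => a * w y) x = a • fld w x := by
  unfold fld
  rw [← integral_smul]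
  refine integral_congr_ae (Eventually.of_forall fun z => ?_)
  simp [mul_smul]

theorem fld_iso {w : E → ℝ} (R : E ≃ₗᵢ[ℝ] E) (h : ∀ y, w (R y) = w y) (x : E) :
    fld w (R x) = R (fld w x) := by
  unfold fld
  rw [← R.measurePreserving.integral_comp R.toHomeomorph.measurableEmbedding]
  have : (fun z => w (R x - R z) • ker (R z)) = fun z => R (w (x - z) • ker z) := by
    funext z
    rw [← map_sub, h, ker_iso, map_smul]
  rw [this]
  exact R.toContinuousLinearEquiv.toContinuousLinearMap.integral_comp_comm' R.isometry.antilipschitz _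

/-- Radial functions. -/
def Rad (w : E → ℝ) : Prop := ∀ y y', ‖y‖ = ‖y'‖ → w y = w y'

/-- The ratio of the field to the position. -/
noncomputable def rt (w : E → ℝ) (x : E) : ℝ := inner ℝ (fld w x) x / ‖x‖ ^ 2

theorem fld_eq {w : E → ℝ} (h : Rad w) {x : E} (hx : x ≠ 0) : fld w x = rt w x • x := by
  set R : E ≃ₗᵢ[ℝ] E := (ℝ ∙ x).reflection
  have h1 : R x = x := Submodule.reflection_mem_subspace_eq_self (Submodule.mem_span_singleton_self x)
  have h2 : R (fld w x) = fld w x := by
    rw [← fld_iso R (fun y => h _ _ (R.norm_map y)) x, h1]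
  have h3 : fld w x ∈ (ℝ ∙ x) := (Submodule.reflection_eq_self_iff _).1 h2
  obtain ⟨a, ha⟩ := Submodule.mem_span_singleton.1 h3
  unfold rt
  rw [← ha, real_inner_smul_left, real_inner_self_eq_norm_sq,
    mul_div_assoc, div_self (by have := norm_pos_iff.2 hx; positivity), mul_one]

theorem rt_rad {w : E → ℝ} (h : Rad w) {x x' : E} (hx : ‖x‖ = ‖x'‖) : rt w x = rt w x' := by
  set R : E ≃ₗᵢ[ℝ] E := (ℝ ∙ (x - x'))ᗮ.reflection
  have h1 : R x = x' := Submodule.reflection_sub hx
  have h2 : fld w x' = R (fld w x) := by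
    rw [← fld_iso R (fun y => h _ _ (R.norm_map y)) x, h1]
  unfold rt
  rw [h2, ← h1, R.inner_map_map, R.norm_map]

theorem rt_add {M M' : ℝ} {w w' : E → ℝ} (h : Den M w) (h' : Den M' w') (x : E) :
    rt (fun y => w y + w' y) x = rt w x + rt w' x := by
  unfold rt; rw [fld_add h h', inner_add_left, add_div]

theorem rt_sub {M M' : ℝ} {w w' : E → ℝ} (h : Den M w) (h' : Den M' w') (x : E) :
    rt (fun y => w y - w' y) x = rt w x - rt w' x := by
  unfold rt; rw [fld_sub h h', inner_sub_left, sub_div]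

theorem rt_smul (a : ℝ) (w : E → ℝ) (x : E) :
    rt (fun y => a * w y) x = a * rt w x := by
  unfold rt; rw [fld_smul, real_inner_smul_left, mul_div_assoc]

/-- Continuity of the field. -/
theorem fld_cont {M : ℝ} {w : E × ℝ → ℝ} (h : ∀ t, Den M (fun y => w (y, t))) (p : E × ℝ)
    (hc : ∀ᵐ z : E, ContinuousAt w (p.1 - z, p.2)) :
    ContinuousAt (fun p : E × ℝ => fld (fun y => w (y, p.2)) p.1) p := by
  unfold fld
  refine continuousAt_of_dominated (bound := (ball (0:E) (‖p.1‖ + 1 + 3)).indicator (fun z => M * kn z))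
    (Eventually.of_forall fun q => fld_meas (h q.2) q.1) ?_ (fld_dom_int M _) ?_
  · have hn : ∀ᶠ q : E × ℝ in 𝓝 p, ‖q.1‖ < ‖p.1‖ + 1 := by
      have hcn : Continuous fun q : E × ℝ => ‖q.1‖ := by fun_prop
      exact hcn.continuousAt.eventually (gt_mem_nhds (by simp))
    filter_upwards [hn] with q hq
    refine Eventually.of_forall fun z => (fld_bound (h q.2) q.1 z).trans ?_
    refine indicator_le_indicator_of_subset (ball_subset_ball (by linarith))
      (fun z => mul_nonneg (h 0).nonneg (kn_nonneg z)) z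
  · filter_upwards [hc] with z hz
    have h1 : ContinuousAt (fun q : E × ℝ => (q.1 - z, q.2)) p := by fun_prop
    have h2 : ContinuousAt (fun q : E × ℝ => w (q.1 - z, q.2)) p :=
      ContinuousAt.comp (g := w) (f := fun q : E × ℝ => (q.1 - z, q.2)) hz h1
    exact h2.smul (continuousAt_const (y := ker z))

/-- Convergence of the field. -/
theorem fld_tendsto {M : ℝ} {w : ℕ → E → ℝ} {w' : E → ℝ} (h : ∀ n, Den M (w n)) (x : E)
    (hc : ∀ᵐ z : E, Tendsto (fun n => w n z) atTop (𝓝 (w' z))) :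
    Tendsto (fun n => fld (w n) x) atTop (𝓝 (fld w' x)) := by
  unfold fld
  refine tendsto_integral_of_dominated_convergence
    ((ball (0:E) (‖x‖ + 3)).indicator (fun z => M * kn z))
    (fun n => fld_meas (h n) x) (fld_dom_int M _)
    (fun n => Eventually.of_forall fun z => fld_bound (h n) x z) ?_
  have hq : Measure.QuasiMeasurePreserving (fun z : E => x - z) volume volume :=
    (Measure.measurePreserving_sub_left volume x).quasiMeasurePreserving
  filter_upwards [hq.ae hc] with z hz
  exact hz.smul_const _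

end Pool.Agent.H522R3.Cvx
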