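import Pool.Agent.H522R3.Cvx.Seq

/-! The limit of the sequence of states is an exact solution. -/

open MeasureTheory Set Filter Topology Metric
open scoped ContDiff ENNReal

namespace Pool.Agent.H522R3.Cvx

section
variable {σ c c0 elo ehi : ℝ} {B : V → ℝ}

theorem uu_slice_rad (hB : Adm σ B) (t : ℝ) : Rad (fun y => uu σ B (y, t)) := by
  intro y y' h
  obtain ⟨a1, a2, a3⟩ := uu_rad (p := (y, t)) (p' := (y', t)) hB h rfl
  show ub σ (y, t) + dv B (y, t) = ub σ (y', t) + dv B (y', t)
  rw [a1, a3]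

theorem qq_bd (hσ0 : 0 < σ) (hσ1 : σ ≤ 1) (hc0 : 0 < c0) (helo : 0 < elo)
    (hB : St σ c c0 elo ehi B) (p : V) :
    |qq σ B p| ≤ ehi ^ 2 / c0 + 1 ∧ (p ∉ Om0 σ → qq σ B p = 0) := by
  have h0 : 0 ≤ ehi ^ 2 / c0 := by positivity
  constructor
  · by_cases hp : p ∈ Om σ
    · have h := st_facts hc0 helo hB hp
      rw [abs_of_pos h.2.2.2.2.2.1]; linarith [h.2.2.2.2.2.2.2.2.2]
    · unfold qq
      rw [dt_off hB.adm hp, sub_zero, abs_of_nonneg (mul_nonneg hσ0.le (ub_nonneg _ _))]
      have := ub_le_one hσ0 p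
      have := ub_nonneg σ p
      nlinarith
  · intro hp
    unfold qq
    rw [dt_off hB.adm (fun h => hp (Om_sub σ h)), show ub σ p = 0 from indicator_of_notMem hp _]; simp

theorem om0_dom (hσ1 : σ ≤ 1) (C : ℝ) {H : V → ℝ} (hH : Continuous H) :
    Integrable ((Om0 σ).indicator fun p => C * |H p|) := by
  rw [integrable_indicator_iff (isOpen_Om0 σ).measurableSet]
  have hc : Continuous fun p => C * |H p| := by fun_prop
  exact (hc.continuousOn.integrableOn_compact
      ((isCompact_closedBall (0:E) 3).prod (isCompact_Icc (a := (0:ℝ)) (b := 1)))).mono_set (Om0_bdd hσ1)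

theorem ae_swap {P : V → Prop} (h : ∀ᵐ p : V, P p) : ∀ᵐ t : ℝ, ∀ᵐ y : E, P (y, t) := by
  have h1 : ∀ᵐ z : ℝ × E, P z.swap := by
    have hq : Measure.QuasiMeasurePreserving (Prod.swap : ℝ × E → E × ℝ) volume volume := by
      rw [Measure.volume_eq_prod, Measure.volume_eq_prod]
      exact Measure.measurePreserving_swap.quasiMeasurePreserving
    exact hq.ae h
  rw [Measure.volume_eq_prod] at h1
  exact Measure.ae_ae_of_ae_prod h1

theorem ae_time {P : ℝ → Prop} (h : ∀ᵐ t : ℝ, P t) : ∀ᵐ p : V, P p.2 := by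
  have hq : Measure.QuasiMeasurePreserving (Prod.snd : E × ℝ → ℝ) volume volume := by
    rw [Measure.volume_eq_prod]
    exact Measure.quasiMeasurePreserving_snd
  exact hq.ae h

set_option maxHeartbeats 2000000 in
theorem limit (hσ0 : 0 < σ) (hσ1 : σ ≤ 1) (hc : 0 < c) (hc0 : 0 < c0) (helo : 0 < elo)
    (hehi : elo < ehi) {B0 : V → ℝ} (hB0 : St σ c c0 elo ehi B0) {g : V → ℝ} (hg : Integrable g)
    {η : ℝ} (hη : 0 < η) :
    ∃ (u q : V → ℝ) (Q : ℝ), Measurable u ∧ Measurable q ∧ (∀ p, 0 ≤ u p ∧ u p ≤ MM c0 ehi) ∧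
      (∀ p, p ∉ Om0 σ → u p = 0) ∧ (∀ p, p ∉ Om0 σ → q p = 0) ∧ (∀ p, |q p| ≤ Q) ∧
      (∀ᵐ p : V, p ∈ Om σ → Real.sqrt (u p) • (c • fld (fun y => u (y, p.2)) p.1) = q p • p.1) ∧
      (∀ φ : V → ℝ, ContDiff ℝ 1 φ → (∀ x, φ (x, 1) = 0) →
        ∫ p : V, (u p * dt φ p + q p * fderiv ℝ φ p (p.1, 0)) = - ∫ y in ball (0:E) 1, φ (y, 0)) ∧
      |∫ p, (u p - uu σ B0 p) * g p| ≤ 2 * η := by
  obtain ⟨κ, hκ, Bs, hBs0, hst, hJ, horth, hgo, hep, hbe⟩ :=
    exists_seq_states hσ0 hσ1 hc hc0 helo hehi hB0 hg hη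
  set M := MM c0 ehi with hM
  have hM0 : 0 < M := MM_pos c0 ehi
  have hOm : MeasurableSet (Om σ) := (isOpen_Om σ).measurableSet
  have hOm0 : MeasurableSet (Om0 σ) := (isOpen_Om0 σ).measurableSet
  have hO0fin := Om0_fin hσ1
  have hOfin : volume (Om σ) < ⊤ := (measure_mono (Om_sub σ)).trans_lt hO0fin
  have hU : ∀ n p, 0 ≤ uu σ (Bs n) p ∧ uu σ (Bs n) p ≤ M := fun n p => uu_bd hσ0 hc0 helo (hst n) p
  have hUm : ∀ n, Measurable (uu σ (Bs n)) := fun n => uu_meas (hst n).adm
  have hUi : ∀ n, Integrable (uu σ (Bs n)) := fun n => uu_int hσ0 hσ1 hc0 helo (hst n)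
  have hUU : ∀ n i, Integrable (fun p => uu σ (Bs n) p * uu σ (Bs i) p) := fun n i =>
    (hUi i).bdd_mul (c := M) (hUm n).aestronglyMeasurable (Eventually.of_forall fun p => by
      rw [Real.norm_of_nonneg (hU n p).1]; exact (hU n p).2)
  have hmem : ∀ n, MemLp (uu σ (Bs n)) 2 volume := fun n => by
    rw [memLp_two_iff_integrable_sq_norm (hUm n).aestronglyMeasurable]
    refine (hUU n n).congr (Eventually.of_forall fun p => ?_)
    simp only [Real.norm_eq_abs, sq_abs]; ring
  have hcoe : ∀ n, ((hmem n).toLp (uu σ (Bs n)) : V → ℝ) =ᵐ[volume] uu σ (Bs n) := fun n =>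
    (hmem n).coeFn_toLp
  have hnorm : ∀ n, ‖(hmem n).toLp (uu σ (Bs n))‖ ^ 2 ≤ M ^ 2 * volume.real (Om0 σ) := by
    intro n
    rw [← real_inner_self_eq_norm_sq, L2.inner_def]
    have e : ∫ p, inner ℝ (((hmem n).toLp (uu σ (Bs n)) : V → ℝ) p) (((hmem n).toLp (uu σ (Bs n)) : V → ℝ) p) =
        ∫ p, uu σ (Bs n) p * uu σ (Bs n) p := by
      refine integral_congr_ae ?_
      filter_upwards [hcoe n] with p hp
      rw [hp]; simp; ring
    rw [e]
    calc ∫ p, uu σ (Bs n) p * uu σ (Bs n) p ≤ ∫ p, (Om0 σ).indicator (fun _ => M ^ 2) p := by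
          refine integral_mono (hUU n n) ((integrable_indicator_iff hOm0).2
            (integrableOn_const hO0fin.ne)) fun p => ?_
          by_cases hp : p ∈ Om0 σ
          · rw [indicator_of_mem hp]
            have := hU n p
            simp only
            nlinarith
          · rw [indicator_of_notMem hp]
            simp only
            rw [uu_off0 (hst n).adm hp]; simp
      _ = M ^ 2 * volume.real (Om0 σ) := by
          rw [integral_indicator hOm0, setIntegral_const, smul_eq_mul, mul_comm]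
  have hcauchy : CauchySeq fun n => (hmem n).toLp (uu σ (Bs n)) := by
    refine hilb hnorm hη.le fun k i hi => ?_
    rw [← MemLp.toLp_sub, L2.inner_def]
    have e : ∫ p, inner ℝ ((((hmem (k + 1)).sub (hmem k)).toLp (uu σ (Bs (k + 1)) - uu σ (Bs k)) : V → ℝ) p)
        (((hmem i).toLp (uu σ (Bs i)) : V → ℝ) p) =
        ∫ p, (uu σ (Bs (k + 1)) p - uu σ (Bs k) p) * uu σ (Bs i) p := by
      refine integral_congr_ae ?_
      filter_upwards [((hmem (k + 1)).sub (hmem k)).coeFn_toLp, hcoe i] with p hp hp2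
      rw [hp, hp2]; simp [mul_comm]
    rw [e]
    exact horth k i hi
  obtain ⟨F, hF⟩ := cauchySeq_tendsto_of_complete hcauchy
  obtain ⟨ns, hns, hae⟩ := (tendstoInMeasure_of_tendsto_Lp hF).exists_seq_tendsto_ae
  have hFm : Measurable (F : V → ℝ) := (Lp.stronglyMeasurable F).measurable
  set u : V → ℝ := (Om0 σ).indicator (fun p => max 0 (min M (F p))) with hu
  have hum : Measurable u := (measurable_const.max (measurable_const.min hFm)).indicator hOm0
  have huae : ∀ᵐ p : V, Tendsto (fun k => uu σ (Bs (ns k)) p) atTop (𝓝 (u p)) := by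
    filter_upwards [hae, ae_all_iff.2 hcoe] with p hp hc'
    have h1 : Tendsto (fun k => uu σ (Bs (ns k)) p) atTop (𝓝 (F p)) := by
      refine hp.congr fun k => ?_
      exact hc' (ns k)
    by_cases hpO : p ∈ Om0 σ
    · have h2 : 0 ≤ (F : V → ℝ) p := ge_of_tendsto' h1 fun k => (hU _ p).1
      have h3 : (F : V → ℝ) p ≤ M := le_of_tendsto' h1 fun k => (hU _ p).2
      rw [hu, indicator_of_mem hpO, min_eq_right h3, max_eq_right h2]
      exact h1
    · rw [hu, indicator_of_notMem hpO]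
      refine tendsto_const_nhds.congr fun k => ?_
      exact (uu_off0 (hst (ns k)).adm hpO).symm
  have hu0 : ∀ p, 0 ≤ u p ∧ u p ≤ M := by
    intro p
    by_cases hpO : p ∈ Om0 σ
    · rw [hu, indicator_of_mem hpO]
      exact ⟨le_max_left _ _, max_le hM0.le (min_le_left _ _)⟩
    · rw [hu, indicator_of_notMem hpO]; exact ⟨le_rfl, hM0.le⟩
  have huoff : ∀ p, p ∉ Om0 σ → u p = 0 := fun p hp => indicator_of_notMem hp _
  -- the linear part
  have hbc : ∀ p, ∃ b, Tendsto (fun n => qq σ (Bs n) p - c0 * uu σ (Bs n) p) atTop (𝓝 b) := by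
    intro p
    refine cauchySeq_tendsto_of_complete (cauchySeq_of_le_geometric (1/2) η (by norm_num) fun n => ?_)
    rw [dist_comm, Real.dist_eq]; exact hbe n p
  choose bl hbl using hbc
  have hblm : Measurable bl := by
    refine measurable_of_tendsto_metrizable (f := fun n p => qq σ (Bs n) p - c0 * uu σ (Bs n) p) ?_
      (tendsto_pi_nhds.2 hbl)
    exact fun n => (qq_meas (hst n).adm).sub ((hUm n).const_mul c0)
  have hec : ∀ p, ∃ e, p ∈ Om σ → Tendsto (fun n => ep σ c (Bs n) p) atTop (𝓝 e) := by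
    intro p
    by_cases hp : p ∈ Om σ
    · obtain ⟨e, he⟩ := cauchySeq_tendsto_of_complete
        (cauchySeq_of_le_geometric (f := fun n => ep σ c (Bs n) p) (1/2) η (by norm_num) fun n => by
          rw [dist_comm, Real.dist_eq]; exact hep n p hp)
      exact ⟨e, fun _ => he⟩
    · exact ⟨0, fun h => absurd h hp⟩
  choose el hel using hec
  set q : V → ℝ := (Om0 σ).indicator (fun p => max (-(ehi ^ 2 / c0 + 1)) (min (ehi ^ 2 / c0 + 1) (bl p + c0 * u p))) with hq
  have hQ0 : 0 < ehi ^ 2 / c0 + 1 := by positivity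
  have hqm : Measurable q := (measurable_const.max (measurable_const.min
    (hblm.add (hum.const_mul c0)))).indicator hOm0
  have hqae : ∀ᵐ p : V, Tendsto (fun k => qq σ (Bs (ns k)) p) atTop (𝓝 (q p)) := by
    filter_upwards [huae] with p hp
    have h1 : Tendsto (fun k => qq σ (Bs (ns k)) p) atTop (𝓝 (bl p + c0 * u p)) := by
      have := ((hbl p).comp hns.tendsto_atTop).add (hp.const_mul c0)
      refine this.congr fun k => ?_
      simp
    by_cases hpO : p ∈ Om0 σ
    · have h2 : -(ehi ^ 2 / c0 + 1) ≤ bl p + c0 * u p := ge_of_tendsto' h1 fun k =>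
        (abs_le.1 (qq_bd hσ0 hσ1 hc0 helo (hst _) p).1).1
      have h3 : bl p + c0 * u p ≤ ehi ^ 2 / c0 + 1 := le_of_tendsto' h1 fun k =>
        (abs_le.1 (qq_bd hσ0 hσ1 hc0 helo (hst _) p).1).2
      rw [hq, indicator_of_mem hpO, min_eq_right h3, max_eq_right h2]
      exact h1
    · rw [hq, indicator_of_notMem hpO]
      refine tendsto_const_nhds.congr fun k => ?_
      exact ((qq_bd hσ0 hσ1 hc0 helo (hst (ns k)) p).2 hpO).symm
  have hqoff : ∀ p, p ∉ Om0 σ → q p = 0 := fun p hp => indicator_of_notMem hp _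
  have hqb : ∀ p, |q p| ≤ ehi ^ 2 / c0 + 1 := by
    intro p
    by_cases hpO : p ∈ Om0 σ
    · rw [hq, indicator_of_mem hpO, abs_le]
      exact ⟨le_max_left _ _, max_le (by linarith) (min_le_left _ _)⟩
    · rw [hq, indicator_of_notMem hpO, abs_zero]; exact hQ0.le
  -- exactness
  have hJ0 : Tendsto (fun k => J σ c (Bs (ns k))) atTop (𝓝 0) :=
    (real_seq hκ (fun n => (J_pos hσ0 hσ1 hc0 helo (hst n)).le) hJ).comp hns.tendsto_atTop
  have hfac := fun n p (hp : p ∈ Om σ) => st_facts hc0 helo (hst n) hp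
  have helo' : ∀ p ∈ Om σ, elo ≤ el p := fun p hp => ge_of_tendsto' (hel p hp) fun n => (hfac n p hp).1.le
  have hDt : ∀ᵐ p : V, p ∈ Om σ → Tendsto (fun k => De σ c (Bs (ns k)) p) atTop
      (𝓝 (u p - (q p / el p) ^ 2)) := by
    filter_upwards [huae, hqae] with p h1 h2 hp
    unfold De
    have h3 := (hel p hp).comp hns.tendsto_atTop
    exact h1.sub ((h2.div h3 (by have := helo' p hp; intro h; rw [h] at this; linarith)).pow 2)
  have hDt' : ∀ᵐ p ∂(volume.restrict (Om σ)), Tendsto (fun k => De σ c (Bs (ns k)) p) atTop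
      (𝓝 (u p - (q p / el p) ^ 2)) := (ae_restrict_iff' hOm).2 hDt
  have hDb : ∀ n, ∀ᵐ p ∂(volume.restrict (Om σ)), ‖De σ c (Bs n) p‖ ≤ M := by
    intro n
    refine (ae_restrict_iff' hOm).2 (Eventually.of_forall fun p hp => ?_)
    have h := hfac n p hp
    rw [Real.norm_of_nonneg h.2.2.1.le]
    have : De σ c (Bs n) p ≤ uu σ (Bs n) p := by
      unfold De; have := sq_nonneg (qq σ (Bs n) p / ep σ c (Bs n) p); linarith
    exact this.trans (hU n p).2
  have hDmeas : ∀ n, AEStronglyMeasurable (De σ c (Bs n)) (volume.restrict (Om σ)) := fun n =>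
    (De_contOn hσ0 hσ1 hc0 helo (hst n)).aestronglyMeasurable hOm
  have hDlim : ∫ p in Om σ, (u p - (q p / el p) ^ 2) = 0 := by
    have h1 := tendsto_integral_of_dominated_convergence (fun _ => M) (fun k => hDmeas (ns k))
      (integrableOn_const hOfin.ne) (fun k => hDb (ns k)) hDt'
    exact tendsto_nhds_unique h1 hJ0
  have hDnn : ∀ᵐ p ∂(volume.restrict (Om σ)), 0 ≤ u p - (q p / el p) ^ 2 := by
    have h1 : ∀ᵐ p ∂(volume.restrict (Om σ)), p ∈ Om σ := ae_restrict_mem hOm
    filter_upwards [hDt', h1] with p hp hpO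
    exact ge_of_tendsto' hp fun k => (hfac _ p hpO).2.2.1.le
  have hDint : Integrable (fun p => u p - (q p / el p) ^ 2) (volume.restrict (Om σ)) := by
    refine Integrable.mono' (integrableOn_const (C := M) hOfin.ne)
      (aestronglyMeasurable_of_tendsto_ae atTop (fun k => hDmeas (ns k)) hDt') ?_
    filter_upwards [hDnn] with p hp
    rw [Real.norm_of_nonneg hp]
    have := sq_nonneg (q p / el p)
    linarith [(hu0 p).2]
  have hDz : ∀ᵐ p ∂(volume.restrict (Om σ)), u p - (q p / el p) ^ 2 = 0 :=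
    (integral_eq_zero_iff_of_nonneg_ae hDnn hDint).1 hDlim
  have hDz' : ∀ᵐ p : V, p ∈ Om σ → u p - (q p / el p) ^ 2 = 0 := (ae_restrict_iff' hOm).1 hDz
  -- the field
  have hfield : ∀ᵐ p : V, p ∈ Om σ → c • fld (fun y => u (y, p.2)) p.1 = el p • p.1 := by
    have h1 : ∀ᵐ t : ℝ, ∀ᵐ y : E, Tendsto (fun k => uu σ (Bs (ns k)) (y, t)) atTop (𝓝 (u (y, t))) :=
      ae_swap huae
    filter_upwards [ae_time h1] with p hp hpO
    have h2 := fld_tendsto (w := fun k y => uu σ (Bs (ns k)) (y, p.2)) (w' := fun y => u (y, p.2))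
      (fun k => uu_den hσ0 hσ1 hc0 helo (hst (ns k)) p.2) p.1 hp
    have h3 : ∀ k, c • fld (fun y => uu σ (Bs (ns k)) (y, p.2)) p.1 = ep σ c (Bs (ns k)) p • p.1 := by
      intro k
      rw [fld_eq (uu_slice_rad (hst (ns k)).adm p.2) hpO.1, smul_smul]; rfl
    have h4 := h2.const_smul c
    simp_rw [h3] at h4
    exact tendsto_nhds_unique h4 (((hel p hpO).comp hns.tendsto_atTop).smul_const p.1)
  refine ⟨u, q, ehi ^ 2 / c0 + 1, hum, hqm, hu0, huoff, hqoff, hqb, ?_, ?_, ?_⟩
  · filter_upwards [hfield, hDz', hqae] with p h1 h2 h3 hp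
    have hq0 : 0 ≤ q p := ge_of_tendsto' h3 fun k => (hfac _ p hp).2.2.2.2.2.1.le
    have he0 : 0 < el p := helo.trans_le (helo' p hp)
    have h4 : u p = (q p / el p) ^ 2 := by linarith [h2 hp]
    rw [h1 hp, h4, Real.sqrt_sq (by positivity), smul_smul, div_mul_cancel₀ _ he0.ne']
  · intro φ hφ hφ1
    have hc1 := hφ.continuous_fderiv one_ne_zero
    have hc2 : Continuous fun p : V => dt φ p := hc1.clm_apply continuous_const
    have hc3 : Continuous fun p : V => fderiv ℝ φ p (p.1, 0) :=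
      hc1.clm_apply (continuous_fst.prodMk continuous_const)
    have hb1 := om0_dom hσ1 M hc2
    have hb2 := om0_dom hσ1 (ehi ^ 2 / c0 + 1) hc3
    have hlim := tendsto_integral_of_dominated_convergence
      (F := fun k p => uu σ (Bs (ns k)) p * dt φ p + qq σ (Bs (ns k)) p * fderiv ℝ φ p (p.1, 0))
      (f := fun p => u p * dt φ p + q p * fderiv ℝ φ p (p.1, 0)) (μ := (volume : Measure V))
      (fun p => (Om0 σ).indicator (fun p => M * |dt φ p|) p +
        (Om0 σ).indicator (fun p => (ehi ^ 2 / c0 + 1) * |fderiv ℝ φ p (p.1, 0)|) p)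
      (fun k => ((hUm (ns k)).aestronglyMeasurable.mul hc2.aestronglyMeasurable).add
        ((qq_meas (hst (ns k)).adm).aestronglyMeasurable.mul hc3.aestronglyMeasurable))
      (hb1.add hb2) ?_ ?_
    · have h1 : ∀ k, ∫ p, (uu σ (Bs (ns k)) p * dt φ p + qq σ (Bs (ns k)) p * fderiv ℝ φ p (p.1, 0)) =
          - ∫ y in ball (0:E) 1, φ (y, 0) := fun k => weak_state hσ0 hσ1 (hst (ns k)).adm hφ hφ1
      simp_rw [h1] at hlim
      exact (tendsto_nhds_unique hlim tendsto_const_nhds)
    · intro k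
      refine Eventually.of_forall fun p => ?_
      by_cases hpO : p ∈ Om0 σ
      · rw [indicator_of_mem hpO, indicator_of_mem hpO]
        refine (norm_add_le _ _).trans (add_le_add ?_ ?_)
        · rw [norm_mul, Real.norm_of_nonneg (hU _ p).1]
          exact mul_le_mul_of_nonneg_right (hU _ p).2 (norm_nonneg _)
        · rw [norm_mul]
          exact mul_le_mul_of_nonneg_right (qq_bd hσ0 hσ1 hc0 helo (hst _) p).1 (norm_nonneg _)
      · rw [indicator_of_notMem hpO, indicator_of_notMem hpO, uu_off0 (hst (ns k)).adm hpO,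
          (qq_bd hσ0 hσ1 hc0 helo (hst (ns k)) p).2 hpO]
        simp
    · filter_upwards [huae, hqae] with p h1 h2
      exact (h1.mul_const _).add (h2.mul_const _)
  · have hbound : ∀ n, |∫ p, (uu σ (Bs n) p - uu σ (Bs 0) p) * g p| ≤ 2 * η * (1 - (1/2) ^ n) := by
      have hgi : ∀ n m, Integrable (fun p => (uu σ (Bs n) p - uu σ (Bs m) p) * g p) := fun n m => by
        refine hg.bdd_mul (c := 2 * M) ((hUm n).sub (hUm m)).aestronglyMeasurable
          (Eventually.of_forall fun p => ?_)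
        have h1 := hU n p
        have h2 := hU m p
        rw [Real.norm_eq_abs, abs_le]; constructor <;> linarith
      intro n
      induction n with
      | zero => simp
      | succ n ih =>
        have e : ∫ p, (uu σ (Bs (n + 1)) p - uu σ (Bs 0) p) * g p =
            (∫ p, (uu σ (Bs (n + 1)) p - uu σ (Bs n) p) * g p) +
            ∫ p, (uu σ (Bs n) p - uu σ (Bs 0) p) * g p := by
          rw [← integral_add (hgi _ _) (hgi _ _)]
          refine integral_congr_ae (Eventually.of_forall fun p => ?_)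
          simp only; ring
        rw [e]
        refine (abs_add_le _ _).trans ?_
        have h2 := hgo n
        rw [pow_succ]
        linarith
    have hlim := tendsto_integral_of_dominated_convergence
      (F := fun k p => (uu σ (Bs (ns k)) p - uu σ (Bs 0) p) * g p)
      (f := fun p => (u p - uu σ (Bs 0) p) * g p) (μ := (volume : Measure V))
      (fun p => 2 * M * |g p|)
      (fun k => ((hUm (ns k)).sub (hUm 0)).aestronglyMeasurable.mul hg.aestronglyMeasurable)
      (hg.abs.const_mul _) ?_ ?_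
    · rw [hBs0] at hlim
      refine le_of_tendsto' hlim.abs fun k => ?_
      have h1 := hbound (ns k)
      rw [hBs0] at h1
      refine h1.trans ?_
      have : 0 ≤ η * (1/2 : ℝ) ^ (ns k) := by positivity
      linarith
    · intro k
      refine Eventually.of_forall fun p => ?_
      rw [norm_mul]
      refine mul_le_mul_of_nonneg_right ?_ (norm_nonneg _)
      have h1 := hU (ns k) p
      have h2 := hU 0 p
      rw [Real.norm_eq_abs, abs_le]; constructor <;> linarith
    · filter_upwards [huae] with p h1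
      exact (h1.sub_const _).mul_const _

end

end Pool.Agent.H522R3.Cvx
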