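import Pool.Agent.H522R3.Cvx.State

/-! Oscillating perturbations. -/

open MeasureTheory Set Filter Topology Metric
open scoped ContDiff FourierTransform

namespace Pool.Agent.H522R3.Cvx

theorem rl1 {f : ℝ → ℝ} (hf : Integrable f) {c : ℝ} (hc : 0 < c) (a : ℝ) :
    Tendsto (fun l : ℝ => ∫ t, f t * Real.cos (l * (a - c * t))) atTop (𝓝 0) := by
  have h1 := Real.tendsto_integral_exp_smul_cocompact (fun t => (f t : ℂ))
  have h2 : Tendsto (fun l : ℝ => l * (c / (2 * Real.pi))) atTop (cocompact ℝ) := by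
    have h3 : Tendsto (fun l : ℝ => l * (c / (2 * Real.pi))) atTop atTop :=
      tendsto_id.atTop_mul_const (by positivity)
    exact h3.mono_right atTop_le_cocompact
  have h4 := (h1.comp h2).norm
  rw [norm_zero] at h4
  refine squeeze_zero_norm (fun l => ?_) h4
  have hint : Integrable (fun t => Complex.exp (Complex.I * (l * (a - c * t) : ℝ)) * (f t : ℂ)) := by
    refine hf.ofReal.bdd_mul (c := 1) ?_ (Eventually.of_forall fun t => ?_)
    · exact Continuous.aestronglyMeasurable (by fun_prop)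
    · rw [mul_comm, Complex.norm_exp_ofReal_mul_I]
  have h5 : ∫ t, f t * Real.cos (l * (a - c * t)) =
      (∫ t, Complex.exp (Complex.I * (l * (a - c * t) : ℝ)) * (f t : ℂ)).re := by
    have := integral_re hint
    simp only [RCLike.re_eq_complex_re] at this
    rw [← this]
    refine integral_congr_ae (Eventually.of_forall fun t => ?_)
    simp only
    rw [Complex.re_mul_ofReal, mul_comm Complex.I, Complex.exp_ofReal_mul_I_re]
    ring
  have h6 : ∫ t, Complex.exp (Complex.I * (l * (a - c * t) : ℝ)) * (f t : ℂ) =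
      Complex.exp ((l * a : ℝ) * Complex.I) *
        ∫ t, 𝐞 (-(t * (l * (c / (2 * Real.pi))))) • (f t : ℂ) := by
    rw [← integral_const_mul]
    refine integral_congr_ae (Eventually.of_forall fun t => ?_)
    simp only
    rw [Circle.smul_def, Real.fourierChar_apply, smul_eq_mul, ← mul_assoc, ← Complex.exp_add]
    congr 2
    have hpi : (Real.pi : ℂ) ≠ 0 := by exact_mod_cast Real.pi_ne_zero
    push_cast
    field_simp
    ring
  rw [h5, h6]
  refine (Complex.abs_re_le_norm _).trans ?_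
  rw [norm_mul, Complex.norm_exp_ofReal_mul_I, one_mul]
  exact le_rfl

/-- Riemann–Lebesgue on space-time. -/
theorem rl {h : V → ℝ} (hh : Integrable h) {a : E → ℝ} (ha : Measurable a) {c : ℝ} (hc : 0 < c) :
    Tendsto (fun l : ℝ => ∫ p : V, h p * Real.cos (l * (a p.1 - c * p.2))) atTop (𝓝 0) := by
  have hm : ∀ l : ℝ, AEStronglyMeasurable (fun p : V => Real.cos (l * (a p.1 - c * p.2))) volume := by
    intro l
    exact Measurable.aestronglyMeasurable (by fun_prop)
  have hi : ∀ l : ℝ, Integrable (fun p : V => h p * Real.cos (l * (a p.1 - c * p.2))) := fun l =>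
    hh.mul_bdd (c := 1) (hm l) (Eventually.of_forall fun p => Real.abs_cos_le_one _)
  rw [Measure.volume_eq_prod] at hh hi
  have e1 : ∀ l : ℝ, ∫ p : V, h p * Real.cos (l * (a p.1 - c * p.2)) =
      ∫ x : E, ∫ t : ℝ, h (x, t) * Real.cos (l * (a x - c * t)) := by
    intro l
    rw [Measure.volume_eq_prod]
    exact integral_prod _ (hi l)
  simp_rw [e1]
  have e2 : (0:ℝ) = ∫ _x : E, (0:ℝ) := by simp
  rw [e2]
  refine tendsto_integral_filter_of_dominated_convergence (fun x => ∫ t : ℝ, ‖h (x, t)‖)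
    (Eventually.of_forall fun l => (hi l).integral_prod_left.aestronglyMeasurable) ?_
    hh.integral_norm_prod_left ?_
  · refine Eventually.of_forall fun l => ?_
    filter_upwards [hh.prod_right_ae] with x hx
    refine norm_integral_le_of_norm_le hx.norm (Eventually.of_forall fun t => ?_)
    rw [norm_mul]
    exact mul_le_of_le_one_right (norm_nonneg _) (Real.abs_cos_le_one _)
  · filter_upwards [hh.prod_right_ae] with x hx
    exact rl1 hx hc (a x)

/-- The phase. -/
noncomputable def th (c0 : ℝ) (p : V) : ℝ := Real.log ‖p.1‖ - c0 * p.2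

/-- The perturbation. -/
noncomputable def pP (c0 : ℝ) (b : V → ℝ) (l : ℝ) (p : V) : ℝ := b p * (l⁻¹ * Real.sin (l * th c0 p))

theorem th_contDiffAt (c0 : ℝ) {p : V} (hp : p.1 ≠ 0) : ContDiffAt ℝ ∞ (th c0) p := by
  unfold th
  have h1 : ContDiffAt ℝ ∞ (fun p : V => ‖p.1‖) p := contDiffAt_fst.norm ℝ hp
  exact (h1.log (norm_ne_zero_iff.2 hp)).sub (contDiffAt_const.mul contDiffAt_snd)

theorem th_fderiv (c0 : ℝ) {p : V} (hp : p.1 ≠ 0) :
    fderiv ℝ (th c0) p (p.1, 0) = 1 ∧ fderiv ℝ (th c0) p (0, 1) = - c0 := by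
  have hd : HasFDerivAt (th c0) (fderiv ℝ (th c0) p) p :=
    ((th_contDiffAt c0 hp).differentiableAt (by simp)).hasFDerivAt
  have hn : 0 < ‖p.1‖ := norm_pos_iff.2 hp
  constructor
  · have h1 : HasDerivAt (fun s : ℝ => ((Real.exp s • p.1, p.2) : V)) ((p.1, 0) : V) 0 := by
      have h2 : HasDerivAt (fun s : ℝ => Real.exp s • p.1) (Real.exp 0 • p.1) 0 :=
        (Real.hasDerivAt_exp 0).smul_const p.1
      rw [Real.exp_zero, one_smul] at h2
      exact h2.prodMk (hasDerivAt_const 0 p.2)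
    have hd' : HasFDerivAt (th c0) (fderiv ℝ (th c0) p) ((Real.exp 0 • p.1, p.2) : V) := by
      rw [Real.exp_zero, one_smul]; exact hd
    have h3 := HasFDerivAt.comp_hasDerivAt (f := fun s : ℝ => ((Real.exp s • p.1, p.2) : V))
      (l := th c0) 0 hd' h1
    have h4 : (th c0 ∘ fun s : ℝ => ((Real.exp s • p.1, p.2) : V)) = fun s => s + th c0 p := by
      funext s
      simp only [th, Function.comp_apply, norm_smul]
      rw [Real.norm_of_nonneg (Real.exp_pos s).le, Real.log_mul (Real.exp_pos s).ne' hn.ne', Real.log_exp]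
      ring
    rw [h4] at h3
    have h5 : HasDerivAt (fun s : ℝ => s + th c0 p) 1 0 := (hasDerivAt_id (0:ℝ)).add_const _
    exact h3.unique h5
  · have h1 : HasDerivAt (fun s : ℝ => ((p.1, s) : V)) ((0, 1) : V) p.2 :=
      (hasDerivAt_const p.2 p.1).prodMk (hasDerivAt_id p.2)
    have h3 := HasFDerivAt.comp_hasDerivAt (f := fun s : ℝ => ((p.1, s) : V))
      (l := th c0) p.2 hd h1
    have h5 : HasDerivAt (th c0 ∘ fun s : ℝ => ((p.1, s) : V)) (- c0) p.2 := by
      have : (th c0 ∘ fun s : ℝ => ((p.1, s) : V)) = fun s => Real.log ‖p.1‖ - c0 * s := rfl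
      rw [this]
      simpa using ((hasDerivAt_id p.2).const_mul c0).const_sub (Real.log ‖p.1‖)
    exact h3.unique h5

section
variable {σ c0 : ℝ} {b : V → ℝ}

theorem b_event (hb : Adm σ b) {p : V} (hp : p ∉ Om σ) : b =ᶠ[𝓝 p] fun _ => 0 :=
  notMem_tsupport_iff_eventuallyEq.1 fun h => hp (hb.sub h)

theorem zero_off (hb : Adm σ b) {p : V} (hp : p ∉ Om σ) : b p = 0 := (b_event hb hp).eq_of_nhds

theorem dv_off (hb : Adm σ b) {p : V} (hp : p ∉ Om σ) : dv b p = 0 := by
  unfold dv; rw [zero_off hb hp, (b_event hb hp).fderiv_eq]; simp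

theorem dt_off (hb : Adm σ b) {p : V} (hp : p ∉ Om σ) : dt b p = 0 := by
  unfold dt; rw [(b_event hb hp).fderiv_eq]; simp

theorem pP_adm (hb : Adm σ b) (l : ℝ) : Adm σ (pP c0 b l) := by
  have hts : tsupport (pP c0 b l) ⊆ tsupport b := by
    unfold pP; exact tsupport_mul_subset_left
  refine ⟨?_, ?_, hts.trans hb.sub, ?_⟩
  · rw [contDiff_iff_contDiffAt]
    intro p
    by_cases hp : p ∈ Om σ
    · unfold pP
      exact hb.smooth.contDiffAt.mul (contDiffAt_const.mul
        ((contDiffAt_const.mul (th_contDiffAt c0 hp.1)).sin))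
    · have : pP c0 b l =ᶠ[𝓝 p] fun _ => 0 := by
        filter_upwards [b_event hb hp] with q hq
        unfold pP; rw [hq, zero_mul]
      exact contDiffAt_const.congr_of_eventuallyEq this
  · unfold pP; exact hb.cpt.mul_right
  · intro p p' h1 h2
    unfold pP th
    rw [hb.rad p p' h1 h2, h1, h2]

theorem pP_fderiv (hb : Adm σ b) {l : ℝ} {p : V} (hp : p.1 ≠ 0) (v : V) :
    fderiv ℝ (pP c0 b l) p v = fderiv ℝ b p v * (l⁻¹ * Real.sin (l * th c0 p)) +
      b p * (l⁻¹ * (Real.cos (l * th c0 p) * (l * fderiv ℝ (th c0) p v))) := by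
  have h1 : HasFDerivAt b (fderiv ℝ b p) p := (hb.smooth.differentiable (by simp) p).hasFDerivAt
  have h2 : HasFDerivAt (th c0) (fderiv ℝ (th c0) p) p :=
    ((th_contDiffAt c0 hp).differentiableAt (by simp)).hasFDerivAt
  have h3 := ((h2.const_mul l).sin).const_mul l⁻¹
  have h4 : fderiv ℝ (pP c0 b l) p = _ := (h1.mul h3).fderiv
  rw [h4]
  simp only [add_apply, smul_apply, smul_eq_mul]
  ring

theorem pP_dv (hb : Adm σ b) {l : ℝ} (hl : 0 < l) (p : V) :
    dv (pP c0 b l) p = b p * Real.cos (l * th c0 p) + dv b p * (l⁻¹ * Real.sin (l * th c0 p)) := by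
  by_cases hp : p ∈ Om σ
  · unfold dv
    rw [pP_fderiv hb hp.1, (th_fderiv c0 hp.1).1]
    unfold pP
    field_simp
    ring
  · rw [dv_off (pP_adm hb l) hp, dv_off hb hp, zero_off hb hp]; simp

theorem pP_dt (hb : Adm σ b) {l : ℝ} (hl : 0 < l) (p : V) :
    dt (pP c0 b l) p = - (c0 * (b p * Real.cos (l * th c0 p))) + dt b p * (l⁻¹ * Real.sin (l * th c0 p)) := by
  by_cases hp : p ∈ Om σ
  · unfold dt
    rw [pP_fderiv hb hp.1, (th_fderiv c0 hp.1).2]
    field_simp
    ring
  · rw [dt_off (pP_adm hb l) hp, dt_off hb hp, zero_off hb hp]; simp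

theorem dv_cont (hb : Adm σ b) : Continuous (dv b) := by
  unfold dv
  have h1 := hb.smooth.continuous_fderiv (by simp)
  exact (continuous_const.mul hb.smooth.continuous).add (h1.clm_apply (continuous_fst.prodMk continuous_const))

theorem dt_cont (hb : Adm σ b) : Continuous (dt b) := by
  unfold dt
  have h1 := hb.smooth.continuous_fderiv (by simp)
  exact h1.clm_apply continuous_const

theorem dv_cpt (hb : Adm σ b) : HasCompactSupport (dv b) :=
  HasCompactSupport.intro hb.cpt fun p hp => by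
    have : b =ᶠ[𝓝 p] fun _ => 0 := notMem_tsupport_iff_eventuallyEq.1 hp
    unfold dv; rw [this.eq_of_nhds, this.fderiv_eq]; simp

theorem dt_cpt (hb : Adm σ b) : HasCompactSupport (dt b) :=
  HasCompactSupport.intro hb.cpt fun p hp => by
    have : b =ᶠ[𝓝 p] fun _ => 0 := notMem_tsupport_iff_eventuallyEq.1 hp
    unfold dt; rw [this.fderiv_eq]; simp

theorem adm_bound (hb : Adm σ b) : ∃ C : ℝ, 1 ≤ C ∧ ∀ p, |b p| ≤ C ∧ |dv b p| ≤ C ∧ |dt b p| ≤ C := by
  obtain ⟨C1, h1⟩ := hb.cpt.exists_bound_of_continuous hb.smooth.continuous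
  obtain ⟨C2, h2⟩ := (dv_cpt hb).exists_bound_of_continuous (dv_cont hb)
  obtain ⟨C3, h3⟩ := (dt_cpt hb).exists_bound_of_continuous (dt_cont hb)
  refine ⟨max 1 (max C1 (max C2 C3)), le_max_left _ _, fun p => ⟨?_, ?_, ?_⟩⟩
  · exact (h1 p).trans ((le_max_left _ _).trans (le_max_right _ _))
  · exact (h2 p).trans ((le_max_left _ _).trans ((le_max_right _ _).trans (le_max_right _ _)))
  · exact (h3 p).trans ((le_max_right _ _).trans ((le_max_right _ _).trans (le_max_right _ _)))

theorem adm_away (hb : Adm σ b) : ∃ r : ℝ, 0 < r ∧ ∀ p : V, ‖p.1‖ < r → b p = 0 := by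
  by_cases hne : (tsupport b).Nonempty
  · obtain ⟨q, hq, hmin⟩ := IsCompact.exists_isMinOn hb.cpt hne
      (f := fun p : V => ‖p.1‖) (continuous_fst.norm.continuousOn)
    refine ⟨‖q.1‖, norm_pos_iff.2 (hb.sub hq).1, fun p hp => ?_⟩
    by_contra h
    have := hmin (subset_tsupport _ h)
    simp only [mem_setOf_eq] at this
    linarith
  · refine ⟨1, one_pos, fun p _ => ?_⟩
    by_contra h
    exact hne ⟨p, subset_tsupport _ h⟩

theorem dvx_slice (hb : Adm σ b) (t : ℝ) : dvx (fun y => b (y, t)) = fun y => dv b (y, t) := by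
  funext y
  unfold dvx dv
  have h1 : HasFDerivAt b (fderiv ℝ b (y, t)) (y, t) := (hb.smooth.differentiable (by simp) _).hasFDerivAt
  have h2 : HasFDerivAt (fun y : E => ((y, t) : V)) (ContinuousLinearMap.inl ℝ E ℝ) y := by
    exact hasFDerivAt_prodMk_left y t
  have h3 := HasFDerivAt.comp (g := b) (f := fun y : E => ((y, t) : V)) y h1 h2
  have h4 : fderiv ℝ (fun y => b (y, t)) y = _ := h3.fderiv
  rw [h4]; simp

/-- The ratio of the field on space-time. -/
noncomputable def fr (w : V → ℝ) (p : V) : ℝ := rt (fun y => w (y, p.2)) p.1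

theorem slice_den {σ : ℝ} (hσ1 : σ ≤ 1) {b : V → ℝ} (hb : Adm σ b) {C : ℝ} (hC : ∀ p, |dv b p| ≤ C) (t : ℝ) :
    Den C (fun y => dv b (y, t)) := by
  refine ⟨?_, fun y => hC _, fun y hy => ?_⟩
  · exact ((dv_cont hb).comp (continuous_id.prodMk continuous_const)).measurable
  · apply dv_off hb
    intro h
    have := exp_lt_three hσ1 h.2.2.1 h.2.2.2
    have h3 : ‖y‖ < Real.exp (σ * t) := h.2.1
    linarith

/-- The field of the perturbation is eventually small. -/
theorem pP_field (hσ1 : σ ≤ 1) (hb : Adm σ b) {η : ℝ} (hη : 0 < η) :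
    ∀ᶠ l : ℝ in atTop, ∀ p ∈ Om σ, |fr (dv (pP c0 b l)) p| ≤ η := by
  obtain ⟨C, hC1, hC⟩ := adm_bound hb
  obtain ⟨r, hr, hr0⟩ := adm_away hb
  obtain ⟨γ, hγ, hs⟩ := small_field hr (2 * C) hη
  filter_upwards [eventually_ge_atTop (max 1 (C / γ))] with l hl p hp
  have hl1 : 1 ≤ l := (le_max_left _ _).trans hl
  have hl0 : 0 < l := by linarith
  have hlC : C / γ ≤ l := (le_max_right _ _).trans hl
  have hinv : l⁻¹ ≤ 1 := inv_le_one_of_one_le₀ hl1
  have hinv0 : 0 < l⁻¹ := by positivity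
  have hA := pP_adm (c0 := c0) hb l
  have hsin : ∀ x : ℝ, |l⁻¹ * Real.sin x| ≤ l⁻¹ := fun x => by
    rw [abs_mul, abs_of_pos hinv0]
    exact mul_le_of_le_one_right hinv0.le (Real.abs_sin_le_one x)
  have hbd : ∀ p, |dv (pP c0 b l) p| ≤ 2 * C := by
    intro q
    rw [pP_dv hb hl0]
    refine (abs_add_le _ _).trans ?_
    have h1 : |b q * Real.cos (l * th c0 q)| ≤ C := by
      rw [abs_mul]
      calc |b q| * |Real.cos (l * th c0 q)| ≤ C * 1 :=
            mul_le_mul (hC q).1 (Real.abs_cos_le_one _) (abs_nonneg _) (by linarith)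
        _ = C := mul_one C
    have h2 : |dv b q * (l⁻¹ * Real.sin (l * th c0 q))| ≤ C := by
      rw [abs_mul]
      calc |dv b q| * |l⁻¹ * Real.sin (l * th c0 q)| ≤ C * 1 :=
            mul_le_mul (hC q).2.1 ((hsin _).trans hinv) (abs_nonneg _) (by linarith)
        _ = C := mul_one C
    linarith
  have hp3 : ‖p.1‖ ≤ 3 := (hp.2.1.trans (exp_lt_three hσ1 hp.2.2.1 hp.2.2.2)).le
  have hmain := hs (fun y => pP c0 b l (y, p.2)) ?_ ?_ ?_ ?_ ?_ ?_ p.1 hp.1 hp3
  · unfold fr
    rw [dvx_slice hA p.2] at hmain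
    exact hmain
  · exact (hA.smooth.comp (contDiff_id.prodMk contDiff_const)).of_le ENat.LEInfty.out
  · intro y hy
    apply zero_off hA
    intro h
    have := exp_lt_three hσ1 h.2.2.1 h.2.2.2
    have h3 : ‖y‖ < Real.exp (σ * p.2) := h.2.1
    linarith
  · intro y hy
    unfold pP
    rw [hr0 (y, p.2) hy, zero_mul]
  · intro y
    exact hA.rad (-y, p.2) (y, p.2) (norm_neg y) rfl
  · intro y
    unfold pP
    rw [abs_mul]
    calc |b (y, p.2)| * |l⁻¹ * Real.sin (l * th c0 (y, p.2))| ≤ C * l⁻¹ :=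
          mul_le_mul (hC _).1 (hsin _) (abs_nonneg _) (by linarith)
      _ ≤ γ := by
          rw [div_le_iff₀ hγ] at hlC
          rw [← div_eq_mul_inv, div_le_iff₀ hl0]
          linarith
  · rw [dvx_slice hA p.2]
    exact slice_den hσ1 hA hbd p.2

end

end Pool.Agent.H522R3.Cvx
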