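import Pool.Agent.H522R3.Cvx.Step

/-! The sequence of states. -/

open MeasureTheory Set Filter Topology Metric
open scoped ContDiff ENNReal

namespace Pool.Agent.H522R3.Cvx

theorem hilb {H : Type*} [NormedAddCommGroup H] [InnerProductSpace ℝ H] {f : ℕ → H} {C η : ℝ}
    (hC : ∀ k, ‖f k‖ ^ 2 ≤ C) (hη : 0 ≤ η)
    (h : ∀ k, ∀ i ≤ k, |inner ℝ (f (k + 1) - f k) (f i)| ≤ η * (1 / 2) ^ k) : CauchySeq f := by
  have h1 : ∀ i k : ℕ, |inner ℝ (f (i + k) - f i) (f i)| ≤ 2 * η * ((1 / 2) ^ i - (1 / 2) ^ (i + k)) := by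
    intro i k
    induction k with
    | zero => simp
    | succ k ih =>
      have e : f (i + (k + 1)) - f i = (f (i + k + 1) - f (i + k)) + (f (i + k) - f i) := by
        rw [← add_assoc]; abel
      rw [e, inner_add_left]
      refine (abs_add_le _ _).trans ?_
      have h2 := h (i + k) i (Nat.le_add_right _ _)
      have e2 : ((1:ℝ) / 2) ^ (i + (k + 1)) = (1 / 2) ^ (i + k) / 2 := by
        rw [← add_assoc, pow_succ]; ring
      rw [e2]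
      nlinarith
  have h2 : ∀ i k : ℕ, ‖f (i + k) - f i‖ ^ 2 ≤ ‖f (i + k)‖ ^ 2 - ‖f i‖ ^ 2 + 4 * η * (1 / 2) ^ i := by
    intro i k
    have e : f (i + k) = (f (i + k) - f i) + f i := by abel
    have e1 : ‖f (i + k)‖ ^ 2 = ‖f (i + k) - f i‖ ^ 2 + 2 * inner ℝ (f (i + k) - f i) (f i) + ‖f i‖ ^ 2 := by
      conv_lhs => rw [e]
      exact norm_add_sq_real _ _
    have h3 := (abs_le.1 (h1 i k)).1
    have h4 : 0 ≤ 2 * η * (1 / 2 : ℝ) ^ (i + k) := by positivity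
    nlinarith
  have hmono : Monotone fun k => ‖f k‖ ^ 2 - 8 * η * (1 / 2) ^ k := by
    refine monotone_nat_of_le_succ fun k => ?_
    have h3 := h2 k 1
    have h4 := (abs_le.1 (h k k le_rfl)).1
    have e1 : ‖f (k + 1)‖ ^ 2 = ‖f (k + 1) - f k‖ ^ 2 + 2 * inner ℝ (f (k + 1) - f k) (f k) + ‖f k‖ ^ 2 := by
      have e : f (k + 1) = (f (k + 1) - f k) + f k := by abel
      conv_lhs => rw [e]
      exact norm_add_sq_real _ _
    have h5 := sq_nonneg ‖f (k + 1) - f k‖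
    have e2 : ((1:ℝ) / 2) ^ (k + 1) = (1 / 2) ^ k / 2 := by rw [pow_succ]; ring
    have h6 : 0 ≤ η * (1 / 2 : ℝ) ^ k := by positivity
    rw [e2]
    linarith
  have hbdd : BddAbove (range fun k => ‖f k‖ ^ 2 - 8 * η * (1 / 2) ^ k) := by
    refine ⟨C, ?_⟩
    rintro _ ⟨k, rfl⟩
    have h6 : 0 ≤ η * (1 / 2 : ℝ) ^ k := by positivity
    have := hC k
    simp only
    linarith
  obtain ⟨A, hA⟩ : ∃ A, Tendsto (fun k => ‖f k‖ ^ 2 - 8 * η * (1 / 2) ^ k) atTop (𝓝 A) :=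
    ⟨_, tendsto_atTop_ciSup hmono hbdd⟩
  have hz : Tendsto (fun k : ℕ => (1 / 2 : ℝ) ^ k) atTop (𝓝 0) :=
    tendsto_pow_atTop_nhds_zero_of_lt_one (by norm_num) (by norm_num)
  have hA2 : Tendsto (fun k => ‖f k‖ ^ 2) atTop (𝓝 A) := by
    have := hA.add (hz.const_mul (8 * η))
    simpa using this
  rw [Metric.cauchySeq_iff']
  intro ε hε
  have e1 : ∀ᶠ k in atTop, |‖f k‖ ^ 2 - A| < ε ^ 2 / 8 := by
    have := hA2.eventually (Metric.ball_mem_nhds A (show 0 < ε ^ 2 / 8 by positivity))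
    filter_upwards [this] with k hk
    rwa [← Real.dist_eq]
  have e2 : ∀ᶠ k in atTop, 4 * η * (1 / 2) ^ k < ε ^ 2 / 4 := by
    have := (hz.const_mul (4 * η))
    rw [mul_zero] at this
    exact this.eventually (gt_mem_nhds (by positivity))
  obtain ⟨N1, hN1⟩ := eventually_atTop.1 (e1.and e2)
  refine ⟨N1, fun n hn => ?_⟩
  obtain ⟨k, rfl⟩ := Nat.exists_eq_add_of_le hn
  have a1 := abs_lt.1 (hN1 (N1 + k) hn).1
  have a2 := abs_lt.1 (hN1 N1 le_rfl).1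
  have a3 := (hN1 N1 le_rfl).2
  have a4 := h2 N1 k
  rw [dist_eq_norm]
  refine lt_of_pow_lt_pow_left₀ 2 hε.le ?_
  nlinarith

theorem real_seq {a : ℕ → ℝ} {κ : ℝ} (hκ : 0 < κ) (h0 : ∀ n, 0 ≤ a n)
    (h : ∀ n, a (n + 1) ≤ a n - κ * a n ^ 3) : Tendsto a atTop (𝓝 0) := by
  have hanti : Antitone a := antitone_nat_of_succ_le fun n => by
    have := h n
    have h1 : 0 ≤ κ * a n ^ 3 := mul_nonneg hκ.le (pow_nonneg (h0 n) 3)
    linarith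
  have hbdd : BddBelow (range a) := ⟨0, by rintro _ ⟨n, rfl⟩; exact h0 n⟩
  obtain ⟨L, hL⟩ : ∃ L, Tendsto a atTop (𝓝 L) := ⟨_, tendsto_atTop_ciInf hanti hbdd⟩
  have hL0 : 0 ≤ L := ge_of_tendsto' hL h0
  have h2 : L ≤ L - κ * L ^ 3 :=
    le_of_tendsto_of_tendsto' (hL.comp (tendsto_add_atTop_nat 1)) (hL.sub ((hL.pow 3).const_mul κ)) h
  have h3 : L = 0 := by
    by_contra hne
    have : 0 < L := lt_of_le_of_ne hL0 (Ne.symm hne)
    have : 0 < κ * L ^ 3 := by positivity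
    linarith
  rwa [h3] at hL

section
variable {σ c c0 elo ehi : ℝ}

theorem exists_seq_states (hσ0 : 0 < σ) (hσ1 : σ ≤ 1) (hc : 0 < c) (hc0 : 0 < c0) (helo : 0 < elo)
    (hehi : elo < ehi) {B0 : V → ℝ} (hB0 : St σ c c0 elo ehi B0) {g : V → ℝ} (hg : Integrable g)
    {η : ℝ} (hη : 0 < η) :
    ∃ κ : ℝ, 0 < κ ∧ ∃ Bs : ℕ → V → ℝ, Bs 0 = B0 ∧ (∀ n, St σ c c0 elo ehi (Bs n)) ∧
      (∀ n, J σ c (Bs (n + 1)) ≤ J σ c (Bs n) - κ * J σ c (Bs n) ^ 3) ∧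
      (∀ n, ∀ i ≤ n, |∫ p, (uu σ (Bs (n + 1)) p - uu σ (Bs n) p) * uu σ (Bs i) p| ≤ η * (1 / 2) ^ n) ∧
      (∀ n, |∫ p, (uu σ (Bs (n + 1)) p - uu σ (Bs n) p) * g p| ≤ η * (1 / 2) ^ n) ∧
      (∀ n, ∀ p ∈ Om σ, |ep σ c (Bs (n + 1)) p - ep σ c (Bs n) p| ≤ η * (1 / 2) ^ n) ∧
      (∀ n p, |(qq σ (Bs (n + 1)) p - c0 * uu σ (Bs (n + 1)) p) - (qq σ (Bs n) p - c0 * uu σ (Bs n) p)|
        ≤ η * (1 / 2) ^ n) := by
  obtain ⟨κ, hκ, hstep⟩ := step (c := c) (c0 := c0) (elo := elo) (ehi := ehi) hσ0 hσ1 hc hc0 helo hehi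
  refine ⟨κ, hκ, ?_⟩
  let X := {x : (V → ℝ) × Set (V → ℝ) // St σ c c0 elo ehi x.1 ∧ x.2.Finite ∧
    (∀ G ∈ x.2, Integrable G) ∧ uu σ x.1 ∈ x.2 ∧ g ∈ x.2}
  let R : ℕ → X → X → Prop := fun n x y => ∃ P : V → ℝ, Adm σ P ∧
    y.1.1 = (fun p => x.1.1 p + P p) ∧ J σ c y.1.1 ≤ J σ c x.1.1 - κ * J σ c x.1.1 ^ 3 ∧
    (∀ G ∈ x.1.2, |∫ p, dv P p * G p| ≤ η * (1 / 2) ^ n) ∧
    (∀ p ∈ Om σ, |c * fr (dv P) p| ≤ η * (1 / 2) ^ n) ∧
    (∀ p, |- dt P p - c0 * dv P p| ≤ η * (1 / 2) ^ n) ∧ x.1.2 ⊆ y.1.2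
  have hnext : ∀ n (x : X), ∃ y : X, R n x y := by
    rintro n ⟨⟨B, S⟩, h1, h2, h3, h4, h5⟩
    obtain ⟨P, p1, p2, p3, p4, p5, p6⟩ := hstep B h1 S h2 h3 (η * (1 / 2) ^ n) (by positivity)
    refine ⟨⟨(fun p => B p + P p, insert (uu σ (fun p => B p + P p)) S), p2, h2.insert _, ?_,
      mem_insert _ _, mem_insert_of_mem _ h5⟩, P, p1, rfl, p3, p4, p5, p6, subset_insert _ _⟩
    intro G hG
    rcases hG with rfl | hG
    · exact uu_int hσ0 hσ1 hc0 helo p2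
    · exact h3 G hG
  choose nx hnx using hnext
  let x0 : X := ⟨(B0, {uu σ B0, g}), hB0, Set.toFinite _, by
    intro G hG
    rcases hG with rfl | hG
    · exact uu_int hσ0 hσ1 hc0 helo hB0
    · rw [mem_singleton_iff.1 hG]; exact hg, by simp, by simp⟩
  let xs : ℕ → X := fun n => Nat.rec x0 (fun n x => nx n x) n
  have hxs : ∀ n, R n (xs n) (xs (n + 1)) := fun n => hnx n (xs n)
  have hsub : ∀ i k, (xs i).1.2 ⊆ (xs (i + k)).1.2 := by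
    intro i k
    induction k with
    | zero => exact subset_rfl
    | succ k ih =>
      obtain ⟨P, _, _, _, _, _, _, h⟩ := hxs (i + k)
      exact ih.trans h
  have hadd : ∀ n, ∃ P : V → ℝ, Adm σ P ∧ (∀ p, uu σ (xs (n + 1)).1.1 p - uu σ (xs n).1.1 p = dv P p) ∧
      (∀ p, ep σ c (xs (n + 1)).1.1 p - ep σ c (xs n).1.1 p = c * fr (dv P) p) ∧
      (∀ p, (qq σ (xs (n + 1)).1.1 p - c0 * uu σ (xs (n + 1)).1.1 p) -
        (qq σ (xs n).1.1 p - c0 * uu σ (xs n).1.1 p) = - dt P p - c0 * dv P p) ∧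
      (∀ G ∈ (xs n).1.2, |∫ p, dv P p * G p| ≤ η * (1 / 2) ^ n) ∧
      (∀ p ∈ Om σ, |c * fr (dv P) p| ≤ η * (1 / 2) ^ n) ∧
      (∀ p, |- dt P p - c0 * dv P p| ≤ η * (1 / 2) ^ n) := by
    intro n
    obtain ⟨P, p1, p2, p3, p4, p5, p6, p7⟩ := hxs n
    have hst : St σ c c0 elo ehi (xs n).1.1 := (xs n).2.1
    have hu : ∀ p, uu σ (xs (n + 1)).1.1 p = uu σ (xs n).1.1 p + dv P p := fun p => by
      rw [p2]; exact uu_add hst.adm p1 p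
    have hq : ∀ p, qq σ (xs (n + 1)).1.1 p = qq σ (xs n).1.1 p - dt P p := fun p => by
      rw [p2]; exact qq_add hst.adm p1 p
    have he : ∀ p, ep σ c (xs (n + 1)).1.1 p = ep σ c (xs n).1.1 p + c * fr (dv P) p := fun p => by
      rw [p2]; exact ep_add hσ0 hσ1 hc0 helo hst p1 p
    exact ⟨P, p1, fun p => by rw [hu]; ring, fun p => by rw [he]; ring,
      fun p => by rw [hu, hq]; ring, p4, p5, p6⟩
  refine ⟨fun n => (xs n).1.1, rfl, fun n => (xs n).2.1, fun n => ?_, fun n i hi => ?_, fun n => ?_,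
    fun n p hp => ?_, fun n p => ?_⟩
  · obtain ⟨P, p1, p2, p3, p4, p5, p6, p7⟩ := hxs n
    exact p3
  · obtain ⟨P, a1, a2, a3, a4, a5, a6, a7⟩ := hadd n
    simp_rw [a2]
    refine a5 _ ?_
    obtain ⟨k, rfl⟩ := Nat.exists_eq_add_of_le hi
    exact hsub i k (xs i).2.2.2.2.1
  · obtain ⟨P, a1, a2, a3, a4, a5, a6, a7⟩ := hadd n
    simp_rw [a2]
    exact a5 _ (xs n).2.2.2.2.2
  · obtain ⟨P, a1, a2, a3, a4, a5, a6, a7⟩ := hadd n
    simp_rw [a3]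
    exact a6 p hp
  · obtain ⟨P, a1, a2, a3, a4, a5, a6, a7⟩ := hadd n
    simp_rw [a4]
    exact a7 p

end

end Pool.Agent.H522R3.Cvx
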