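import Pool.Agent.H522R3.Cvx.Ker

/-! Fields of oscillating divergences are small. -/

open MeasureTheory Set Filter Topology Metric
open scoped ContDiff

namespace Pool.Agent.H522R3.Cvx

/-- The divergence of `g(y) y` in the plane. -/
noncomputable def dvx (g : E → ℝ) (y : E) : ℝ := 2 * g y + fderiv ℝ g y y

/-- basis vector -/
noncomputable def be (i : Fin 2) : E := EuclideanSpace.single i 1

theorem decomp (y : E) : y = y 0 • be 0 + y 1 • be 1 := by
  ext j
  fin_cases j <;> simp [be]

theorem map_decomp {F : Type*} [NormedAddCommGroup F] [NormedSpace ℝ F] (L : E →L[ℝ] F) (y : E) :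
    L y = y 0 • L (be 0) + y 1 • L (be 1) := by
  conv_lhs => rw [decomp y]
  rw [map_add, map_smul, map_smul]

theorem be_apply (i : Fin 2) : be i i = 1 := by simp [be]

theorem coord_hasFDerivAt (i : Fin 2) (y : E) :
    HasFDerivAt (fun y : E => y i) (EuclideanSpace.proj i : E →L[ℝ] ℝ) y :=
  (EuclideanSpace.proj i : E →L[ℝ] ℝ).hasFDerivAt

theorem fderiv_mul_coord {g : E → ℝ} (hg : ContDiff ℝ 1 g) (i : Fin 2) (y : E) :
    fderiv ℝ (fun y => g y * y i) y (be i) = g y + y i * fderiv ℝ g y (be i) := by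
  have h1 := (hg.differentiable one_ne_zero y).hasFDerivAt
  have h2 : fderiv ℝ (fun y : E => g y * y i) y = _ := (h1.mul (coord_hasFDerivAt i y)).fderiv
  have h3 : (EuclideanSpace.proj i : E →L[ℝ] ℝ) (be i) = 1 := be_apply i
  rw [h2]
  simp [h3]

theorem ibp_coord {F : Type*} [NormedAddCommGroup F] [NormedSpace ℝ F] [CompleteSpace F]
    {g : E → ℝ} (hg : ContDiff ℝ 1 g) (hgc : HasCompactSupport g)
    {f : E → F} (hf : ContDiff ℝ 1 f) (i : Fin 2) :
    ∫ y, (g y + y i * fderiv ℝ g y (be i)) • f y = - ∫ y, (g y * y i) • fderiv ℝ f y (be i) := by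
  have hG : ContDiff ℝ 1 (fun y : E => g y * y i) :=
    hg.mul (EuclideanSpace.proj i : E →L[ℝ] ℝ).contDiff
  have hGc : HasCompactSupport (fun y : E => g y * y i) := hgc.mul_right
  have hcf : Continuous f := hf.continuous
  have hcd : Continuous fun y => fderiv ℝ f y (be i) :=
    (hf.continuous_fderiv one_ne_zero).clm_apply continuous_const
  have hcG : Continuous fun y => fderiv ℝ (fun y : E => g y * y i) y (be i) :=
    (hG.continuous_fderiv one_ne_zero).clm_apply continuous_const
  have hcGc : HasCompactSupport fun y => fderiv ℝ (fun y : E => g y * y i) y (be i) :=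
    hGc.fderiv_apply (𝕜 := ℝ) (be i)
  have := integral_smul_fderiv_eq_neg_fderiv_smul_of_integrable (μ := (volume : Measure E))
    (f := fun y : E => g y * y i) (g := f) (v := be i)
    ((hcG.smul hcf).integrable_of_hasCompactSupport hcGc.smul_right)
    ((hG.continuous.smul hcd).integrable_of_hasCompactSupport hGc.smul_right)
    ((hG.continuous.smul hcf).integrable_of_hasCompactSupport hGc.smul_right)
    (fun x _ => hG.differentiable one_ne_zero x) (fun x _ => hf.differentiable one_ne_zero x)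
  rw [this, neg_neg]
  refine integral_congr_ae (Eventually.of_forall fun y => ?_)
  simp only
  rw [fderiv_mul_coord hg]

theorem ibp_div {F : Type*} [NormedAddCommGroup F] [NormedSpace ℝ F] [CompleteSpace F]
    {g : E → ℝ} (hg : ContDiff ℝ 1 g) (hgc : HasCompactSupport g)
    {f : E → F} (hf : ContDiff ℝ 1 f) :
    ∫ y, dvx g y • f y = - ∫ y, g y • fderiv ℝ f y y := by
  have hcd : ∀ i, Continuous fun y => fderiv ℝ f y (be i) := fun i =>
    (hf.continuous_fderiv one_ne_zero).clm_apply continuous_const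
  have hcg : ∀ i, Continuous fun y => fderiv ℝ g y (be i) := fun i =>
    (hg.continuous_fderiv one_ne_zero).clm_apply continuous_const
  have hcy : ∀ i : Fin 2, Continuous fun y : E => y i := fun i =>
    (EuclideanSpace.proj i : E →L[ℝ] ℝ).continuous
  have i1 : ∀ i, Integrable fun y : E => (g y + y i * fderiv ℝ g y (be i)) • f y := by
    intro i
    refine Continuous.integrable_of_hasCompactSupport
      ((hg.continuous.add ((hcy i).mul (hcg i))).smul hf.continuous) ?_
    exact (hgc.add (hgc.fderiv_apply (𝕜 := ℝ) (be i)).mul_left).smul_right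
  have i2 : ∀ i, Integrable fun y : E => (g y * y i) • fderiv ℝ f y (be i) := by
    intro i
    refine Continuous.integrable_of_hasCompactSupport
      ((hg.continuous.mul (hcy i)).smul (hcd i)) ?_
    exact hgc.mul_right.smul_right
  have e1 : ∫ y, dvx g y • f y = (∫ y, (g y + y 0 * fderiv ℝ g y (be 0)) • f y) +
      ∫ y, (g y + y 1 * fderiv ℝ g y (be 1)) • f y := by
    rw [← integral_add (i1 0) (i1 1)]
    refine integral_congr_ae (Eventually.of_forall fun y => ?_)
    simp only [dvx]
    rw [map_decomp (fderiv ℝ g y) y, ← add_smul]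
    congr 1
    simp only [smul_eq_mul]; ring
  have e2 : ∫ y, g y • fderiv ℝ f y y = (∫ y, (g y * y 0) • fderiv ℝ f y (be 0)) +
      ∫ y, (g y * y 1) • fderiv ℝ f y (be 1) := by
    rw [← integral_add (i2 0) (i2 1)]
    refine integral_congr_ae (Eventually.of_forall fun y => ?_)
    simp only
    rw [map_decomp (fderiv ℝ f y) y, smul_add, smul_smul, smul_smul]
  rw [e1, e2, ibp_coord hg hgc hf, ibp_coord hg hgc hf]
  abel

/-- Odd functions have even derivative. -/
theorem fderiv_odd {f : E → E} (hf : ContDiff ℝ 1 f) (ho : ∀ z, f (-z) = - f z) (z : E) :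
    fderiv ℝ f (-z) = fderiv ℝ f z := by
  have h1 : HasFDerivAt f (fderiv ℝ f (-z)) (-z) := (hf.differentiable one_ne_zero _).hasFDerivAt
  have h2 : HasFDerivAt (fun z : E => f (-z)) ((fderiv ℝ f (-z)).comp (-(ContinuousLinearMap.id ℝ E))) z :=
    HasFDerivAt.comp (g := f) (f := fun z : E => -z) z h1 (hasFDerivAt_id z).neg
  have h3 : HasFDerivAt (fun z : E => f (-z)) (-(fderiv ℝ f z)) z := by
    have : (fun z : E => f (-z)) = fun z => - f z := funext ho
    rw [this]
    exact (hf.differentiable one_ne_zero _).hasFDerivAt.neg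
  have h4 := h2.unique h3
  have h5 : (fderiv ℝ f (-z)).comp (-(ContinuousLinearMap.id ℝ E)) = -(fderiv ℝ f (-z)) := by
    ext1 v; simp
  rw [h5] at h4
  exact neg_injective h4

theorem far_bound {f : E → E} (hf : ContDiff ℝ 1 f) (ho : ∀ z, f (-z) = - f z) {L : ℝ}
    (hL : ∀ a b, ‖fderiv ℝ f a - fderiv ℝ f b‖ ≤ L * ‖a - b‖)
    {g : E → ℝ} (hg : ContDiff ℝ 1 g) (hgs : ∀ y, 3 ≤ ‖y‖ → g y = 0) (hge : ∀ y, g (-y) = g y)
    {γ : ℝ} (hγ : ∀ y, |g y| ≤ γ) (x : E) :
    ‖∫ z, dvx g (x - z) • f z‖ ≤ γ * L * ‖x‖ * ∫ y in ball (0:E) 3, ‖y‖ := by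
  have hgc : HasCompactSupport g := by
    refine HasCompactSupport.intro (isCompact_closedBall 0 3) fun y hy => ?_
    apply hgs
    by_contra h
    exact hy (mem_closedBall_zero_iff.2 (not_le.1 h).le)
  have hF : ContDiff ℝ 1 (fun y => f (x - y)) := hf.comp (contDiff_const.sub contDiff_id)
  have hF' : ∀ y, fderiv ℝ (fun y => f (x - y)) y = -(fderiv ℝ f (x - y)) := by
    intro y
    have h1 : HasFDerivAt f (fderiv ℝ f (x - y)) (x - y) := (hf.differentiable one_ne_zero _).hasFDerivAt
    have h2 : HasFDerivAt (fun y : E => f (x - y)) ((fderiv ℝ f (x - y)).comp (-(ContinuousLinearMap.id ℝ E))) y :=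
      HasFDerivAt.comp (g := f) (f := fun y : E => x - y) y h1 ((hasFDerivAt_id y).const_sub x)
    rw [h2.fderiv]; ext1 v; simp
  have e1 : ∫ z, dvx g (x - z) • f z = ∫ y, dvx g y • f (x - y) := by
    rw [← integral_sub_left_eq_self (fun y => dvx g y • f (x - y)) volume x]
    simp
  have e2 : ∫ y, dvx g y • f (x - y) = ∫ y, g y • fderiv ℝ f (x - y) y := by
    rw [ibp_div hg hgc hF, ← integral_neg]
    refine integral_congr_ae (Eventually.of_forall fun y => ?_)
    simp only
    rw [hF' y]; simp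
  have hcy : Continuous fun y : E => fderiv ℝ f (x - y) y :=
    ((hf.continuous_fderiv one_ne_zero).comp (continuous_const.sub continuous_id)).clm_apply continuous_id
  have hc0 : Continuous fun y : E => fderiv ℝ f (-y) y :=
    ((hf.continuous_fderiv one_ne_zero).comp continuous_neg).clm_apply continuous_id
  have i1 : Integrable fun y => g y • fderiv ℝ f (x - y) y :=
    (hg.continuous.smul hcy).integrable_of_hasCompactSupport hgc.smul_right
  have i0 : Integrable fun y => g y • fderiv ℝ f (-y) y :=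
    (hg.continuous.smul hc0).integrable_of_hasCompactSupport hgc.smul_right
  have e0 : ∫ y, g y • fderiv ℝ f (-y) y = 0 := by
    have h1 := integral_neg_eq_self (fun y => g y • fderiv ℝ f (-y) y) volume
    have h2 : ∫ y, g (-y) • fderiv ℝ f (-(-y)) (-y) = - ∫ y, g y • fderiv ℝ f (-y) y := by
      rw [← integral_neg]
      refine integral_congr_ae (Eventually.of_forall fun y => ?_)
      simp only
      rw [hge, neg_neg, fderiv_odd hf ho y]; simp
    rw [h2] at h1
    have h3 : (2:ℝ) • ∫ y, g y • fderiv ℝ f (-y) y = 0 := by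
      rw [two_smul]; nth_rewrite 1 [← h1]; simp
    exact (smul_eq_zero.1 h3).resolve_left two_ne_zero
  have e3 : ∫ z, dvx g (x - z) • f z = ∫ y, g y • (fderiv ℝ f (x - y) - fderiv ℝ f (-y)) y := by
    rw [e1, e2, ← sub_zero (∫ y, g y • fderiv ℝ f (x - y) y), ← e0, ← integral_sub i1 i0]
    refine integral_congr_ae (Eventually.of_forall fun y => ?_)
    simp [smul_sub]
  have hγ0 : 0 ≤ γ := (abs_nonneg _).trans (hγ 0)
  have hint : Integrable ((ball (0:E) 3).indicator fun y => γ * L * ‖x‖ * ‖y‖) := by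
    rw [integrable_indicator_iff measurableSet_ball]
    have hc : Continuous fun y : E => γ * L * ‖x‖ * ‖y‖ := by fun_prop
    exact (hc.continuousOn.integrableOn_compact (isCompact_closedBall 0 3)).mono_set ball_subset_closedBall
  rw [e3]
  calc ‖∫ y, g y • (fderiv ℝ f (x - y) - fderiv ℝ f (-y)) y‖
      ≤ ∫ y, (ball (0:E) 3).indicator (fun y => γ * L * ‖x‖ * ‖y‖) y := by
        refine norm_integral_le_of_norm_le hint (Eventually.of_forall fun y => ?_)
        by_cases hy : y ∈ ball (0:E) 3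
        · rw [indicator_of_mem hy, norm_smul]
          have h1 : ‖(fderiv ℝ f (x - y) - fderiv ℝ f (-y)) y‖ ≤ L * ‖x‖ * ‖y‖ := by
            refine (ContinuousLinearMap.le_opNorm _ _).trans ?_
            refine mul_le_mul_of_nonneg_right ?_ (norm_nonneg _)
            have := hL (x - y) (-y)
            simpa using this
          calc ‖g y‖ * ‖(fderiv ℝ f (x - y) - fderiv ℝ f (-y)) y‖ ≤ γ * (L * ‖x‖ * ‖y‖) :=
                mul_le_mul (hγ y) h1 (norm_nonneg _) hγ0
            _ = γ * L * ‖x‖ * ‖y‖ := by ring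
        · rw [indicator_of_notMem hy]
          rw [mem_ball_zero_iff, not_lt] at hy
          simp [hgs y hy]
    _ = γ * L * ‖x‖ * ∫ y in ball (0:E) 3, ‖y‖ := by
        rw [integral_indicator measurableSet_ball, integral_const_mul]

theorem ker_smoothAt {z : E} (hz : z ≠ 0) : ContDiffAt ℝ ∞ ker z := by
  unfold ker
  have h1 : ContDiffAt ℝ ∞ (fun z : E => ‖z‖) z := contDiffAt_norm ℝ hz
  exact (h1.rpow_const_of_ne (norm_ne_zero_iff.2 hz)).smul contDiffAt_id

/-- The cut-off kernel. -/
theorem exists_cut {ρ : ℝ} (hρ : 0 < ρ) :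
    ∃ f : E → E, ContDiff ℝ ∞ f ∧ HasCompactSupport f ∧ (∀ z, f (-z) = - f z) ∧
      (∀ z, ρ ≤ ‖z‖ → ‖z‖ ≤ 6 → f z = ker z) ∧ ∀ z, ‖ker z - f z‖ ≤ kn z := by
  let b1 : ContDiffBump (0:E) := ⟨6, 7, by norm_num, by norm_num⟩
  let b2 : ContDiffBump (0:E) := ⟨ρ/2, ρ, by positivity, by linarith⟩
  refine ⟨fun z => (b1 z * (1 - b2 z)) • ker z, ?_, ?_, ?_, ?_, ?_⟩
  · rw [contDiff_iff_contDiffAt]
    intro z
    by_cases hz : z = 0
    · subst hz
      have : (fun z => (b1 z * (1 - b2 z)) • ker z) =ᶠ[𝓝 0] fun _ => (0:E) := by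
        have h := b2.eventuallyEq_one
        filter_upwards [h] with z hz
        rw [hz]; simp
      exact (contDiffAt_const).congr_of_eventuallyEq this
    · exact ((b1.contDiffAt.mul (contDiffAt_const.sub b2.contDiffAt)).smul (ker_smoothAt hz))
  · exact (b1.hasCompactSupport.mul_right).smul_right
  · intro z
    simp only [b1.neg, b2.neg, ker_neg, smul_neg]
  · intro z h1 h2
    have e1 : b1 z = 1 := b1.one_of_mem_closedBall (by rw [mem_closedBall_zero_iff]; exact h2)
    have e2 : b2 z = 0 := b2.zero_of_le_dist (by rw [dist_zero_right]; exact h1)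
    simp [e1, e2]
  · intro z
    have h1 : ker z - (b1 z * (1 - b2 z)) • ker z = (1 - b1 z * (1 - b2 z)) • ker z := by
      rw [sub_smul, one_smul]
    rw [h1, norm_smul]
    have a1 := b1.nonneg (x := z)
    have a2 := b1.le_one (x := z)
    have a3 := b2.nonneg (x := z)
    have a4 := b2.le_one (x := z)
    have h2 : |1 - b1 z * (1 - b2 z)| ≤ 1 := by
      rw [abs_le]; constructor <;> nlinarith
    calc ‖1 - b1 z * (1 - b2 z)‖ * ‖ker z‖ ≤ 1 * ‖ker z‖ :=
          mul_le_mul_of_nonneg_right h2 (norm_nonneg _)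
      _ ≤ kn z := by rw [one_mul]; exact ker_norm_le z

set_option maxHeartbeats 2000000 in
/-- The small field lemma. -/
theorem small_field {r0 : ℝ} (hr0 : 0 < r0) (M : ℝ) {η : ℝ} (hη : 0 < η) :
    ∃ γ : ℝ, 0 < γ ∧ ∀ g : E → ℝ, ContDiff ℝ 1 g → (∀ y, 3 ≤ ‖y‖ → g y = 0) →
      (∀ y, ‖y‖ < r0 → g y = 0) → (∀ y, g (-y) = g y) → (∀ y, |g y| ≤ γ) →
      Den M (dvx g) → ∀ x : E, x ≠ 0 → ‖x‖ ≤ 3 → |rt (dvx g) x| ≤ η := by
  obtain ⟨ρ', h1, h2, h3⟩ := kn_small (η := η * r0 / (4 * (|M| + 1))) (by positivity)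
  set ρ := min ρ' (r0 / 2) with hρd
  have hρ0 : 0 < ρ := lt_min h1 (by positivity)
  have hρ3 : ∫ z in ball (0 : E) ρ, kn z ≤ η * r0 / (4 * (|M| + 1)) := by
    refine le_trans ?_ h3
    exact setIntegral_mono_set (kn_intOn _) (Eventually.of_forall fun z => kn_nonneg z)
      (ball_subset_ball (min_le_left _ _)).eventuallyLE
  obtain ⟨f, f1, f2, f3, f4, f5⟩ := exists_cut hρ0
  have hfd : ContDiff ℝ ∞ (fderiv ℝ f) := by
    exact (contDiff_infty_iff_fderiv.1 f1).2
  obtain ⟨L, hL⟩ := ContDiff.lipschitzWith_of_hasCompactSupport (f2.fderiv ℝ) hfd (by simp)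
  have hL' : ∀ a b, ‖fderiv ℝ f a - fderiv ℝ f b‖ ≤ (L:ℝ) * ‖a - b‖ := fun a b => by
    simpa [dist_eq_norm] using hL.dist_le_mul a b
  set Y : ℝ := ∫ y in ball (0:E) 3, ‖y‖ with hY
  have hY0 : 0 ≤ Y := setIntegral_nonneg measurableSet_ball fun z _ => norm_nonneg z
  have hL0 : (0:ℝ) ≤ L := L.2
  generalize (L : ℝ) = L' at hL' hL0
  have hLY : 0 ≤ L' * Y := mul_nonneg hL0 hY0
  refine ⟨η / (2 * (L' * Y + 1)), by positivity, ?_⟩
  intro g g1 g2 g3 g4 g5 g6 x x0 x3
  have hxn : 0 < ‖x‖ := norm_pos_iff.2 x0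
  have hM0 : 0 ≤ M := g6.nonneg
  have fint : Integrable (fun z => dvx g (x - z) • f z) := by
    obtain ⟨C, hC⟩ := f2.exists_bound_of_continuous f1.continuous
    exact (g6.int.comp_sub_left x).smul_bdd C f1.continuous.aestronglyMeasurable
      (Eventually.of_forall hC)
  have hfar := far_bound (f1.of_le (by exact_mod_cast le_top)) f3 hL' g1 g2 g4 g5 x
  rw [← hY] at hfar
  clear_value Y
  have hsplit : fld (dvx g) x = (∫ z, dvx g (x - z) • f z) + ∫ z, dvx g (x - z) • (ker z - f z) := by
    unfold fld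
    rw [← integral_add fint]
    · refine integral_congr_ae (Eventually.of_forall fun z => ?_)
      simp [smul_sub]
    · refine ((fld_int g6 x).sub fint).congr (Eventually.of_forall fun z => ?_)
      simp [smul_sub]
  have hz0 : ∀ z, ‖z‖ < r0 → dvx g z = 0 := by
    intro z hz
    unfold dvx
    have : g =ᶠ[𝓝 z] fun _ => 0 := by
      have : ∀ᶠ y in 𝓝 z, ‖y‖ < r0 := (continuous_norm.continuousAt).eventually (gt_mem_nhds hz)
      filter_upwards [this] with y hy using g3 y hy
    rw [this.fderiv_eq, g3 z hz]; simp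
  have hnear : ‖∫ z, dvx g (x - z) • (ker z - f z)‖ ≤ ‖x‖ * (η / 2) := by
    by_cases hxs : ‖x‖ < r0 / 2
    · have : ∀ z, dvx g (x - z) • (ker z - f z) = 0 := by
        intro z
        by_cases h : dvx g (x - z) = 0
        · rw [h, zero_smul]
        · have a1 : r0 ≤ ‖x - z‖ := by
            by_contra hh; exact h (hz0 _ (not_le.1 hh))
          have a2 : ‖x - z‖ < 3 := by
            by_contra hh; exact h (g6.supp _ (not_lt.1 hh))
          have a3 : r0 / 2 ≤ ‖z‖ := by
            have := norm_sub_le x z; linarith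
          have a4 : ‖z‖ ≤ 6 := by
            have := norm_sub_norm_le z x; rw [norm_sub_rev] at this; linarith
          rw [f4 z ((min_le_right _ _).trans a3) a4, sub_self, smul_zero]
      simp only [this, integral_zero, norm_zero]
      positivity
    · rw [not_lt] at hxs
      have hb : ∀ z, ‖dvx g (x - z) • (ker z - f z)‖ ≤ (ball (0:E) ρ).indicator (fun z => M * kn z) z := by
        intro z
        by_cases hz : z ∈ ball (0:E) ρ
        · rw [indicator_of_mem hz, norm_smul]
          exact mul_le_mul (g6.bd _) (f5 z) (norm_nonneg _) hM0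
        · rw [indicator_of_notMem hz]
          rw [mem_ball_zero_iff, not_lt] at hz
          by_cases h : dvx g (x - z) = 0
          · rw [h, zero_smul, norm_zero]
          · have a2 : ‖x - z‖ < 3 := by
              by_contra hh; exact h (g6.supp _ (not_lt.1 hh))
            have a4 : ‖z‖ ≤ 6 := by
              have := norm_sub_norm_le z x; rw [norm_sub_rev] at this; linarith
            rw [f4 z hz a4, sub_self, smul_zero, norm_zero]
      calc ‖∫ z, dvx g (x - z) • (ker z - f z)‖
          ≤ ∫ z, (ball (0:E) ρ).indicator (fun z => M * kn z) z :=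
            norm_integral_le_of_norm_le (fld_dom_int M ρ) (Eventually.of_forall hb)
        _ = M * ∫ z in ball (0:E) ρ, kn z := by
            rw [integral_indicator measurableSet_ball, integral_const_mul]
        _ ≤ M * (η * r0 / (4 * (|M| + 1))) := mul_le_mul_of_nonneg_left hρ3 hM0
        _ ≤ η * r0 / 4 := by
            rw [abs_of_nonneg hM0]
            rw [← mul_div_assoc, div_le_div_iff₀ (by positivity) (by norm_num)]
            nlinarith [mul_pos hη hr0]
        _ ≤ ‖x‖ * (η / 2) := by nlinarith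
  have hfar2 : ‖∫ z, dvx g (x - z) • f z‖ ≤ ‖x‖ * (η / 2) := by
    refine hfar.trans ?_
    have h5 : η / (2 * (L' * Y + 1)) * L' * Y ≤ η / 2 := by
      have : η / (2 * (L' * Y + 1)) * L' * Y = η * (L' * Y) / (2 * (L' * Y + 1)) := by ring
      rw [this, div_le_div_iff₀ (by positivity) (by norm_num)]
      nlinarith
    have h6 : η / (2 * (L' * Y + 1)) * L' * ‖x‖ * Y = ‖x‖ * (η / (2 * (L' * Y + 1)) * L' * Y) := by ring
    rw [h6]
    exact mul_le_mul_of_nonneg_left h5 hxn.le
  have htot : ‖fld (dvx g) x‖ ≤ ‖x‖ * η := by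
    rw [hsplit]
    refine (norm_add_le _ _).trans ?_
    linarith
  unfold rt
  rw [abs_div, abs_of_nonneg (sq_nonneg ‖x‖), div_le_iff₀ (by positivity)]
  calc |inner ℝ (fld (dvx g) x) x| ≤ ‖fld (dvx g) x‖ * ‖x‖ := abs_real_inner_le_norm _ _
    _ ≤ ‖x‖ * η * ‖x‖ := mul_le_mul_of_nonneg_right htot (norm_nonneg _)
    _ = η * ‖x‖ ^ 2 := by ring

end Pool.Agent.H522R3.Cvx
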