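import Pool.Agent.H522R3.Cvx.Limit

/-! The starting state. -/

open MeasureTheory Set Filter Topology Metric
open scoped ContDiff ENNReal

namespace Pool.Agent.H522R3.Cvx

theorem adm_zero (σ : ℝ) : Adm σ (fun _ => 0) := by
  refine ⟨contDiff_const, HasCompactSupport.zero, ?_, fun _ _ _ _ => rfl⟩
  have : tsupport (fun _ : V => (0:ℝ)) = ∅ := by
    rw [tsupport_eq_empty_iff]; rfl
  rw [this]; exact empty_subset _

theorem uu_zero (σ : ℝ) (p : V) : uu σ (fun _ => 0) p = ub σ p := by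
  unfold uu dv; simp

theorem qq_zero (σ : ℝ) (p : V) : qq σ (fun _ => 0) p = σ * ub σ p := by
  unfold qq dt; simp

theorem ub_eq {σ : ℝ} {p : V} (hp : p ∈ Om σ) : ub σ p = Real.exp (-(2 * (σ * p.2))) :=
  indicator_of_mem (Om_sub σ hp) _

theorem exists_start {c : ℝ} (hc : 0 < c) :
    ∃ s0 : ℝ, 0 < s0 ∧ s0 ≤ 1 ∧ ∃ elo ehi : ℝ, 0 < elo ∧ elo < ehi ∧ ∀ σ : ℝ, 0 < σ → σ ≤ s0 →
      St σ c (σ / 2) elo ehi (fun _ => 0) := by
  set V1 := volume.real (ball (0:E) 1) with hV1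
  have hV10 : 0 < V1 := by
    rw [hV1]
    exact ENNReal.toReal_pos (measure_ball_pos volume 0 one_pos).ne' measure_ball_lt_top.ne
  set a1 : ℝ := (6 : ℝ) ^ (-(5/2) : ℝ) * V1 with ha1
  set a2 : ℝ := (1/2 : ℝ) ^ (-(5/2) : ℝ) * volume.real (ball (0:E) 3) + 2 * KK with ha2
  have ha10 : 0 < a1 := by positivity
  have ha20 : 0 ≤ a2 := by
    have := KK_nonneg
    positivity
  set e1 : ℝ := c * (Real.exp (-2) * a1) with he1
  have he10 : 0 < e1 := by positivity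
  refine ⟨min 1 (e1 / 2), by positivity, min_le_left _ _, e1 / 2, e1 + c * a2 + 1, by positivity,
    by nlinarith [mul_nonneg hc.le ha20], ?_⟩
  intro σ hσ0 hσs
  have hσ1 : σ ≤ 1 := hσs.trans (min_le_left _ _)
  have hσe : σ ≤ e1 / 2 := hσs.trans (min_le_right _ _)
  refine ⟨adm_zero σ, min (min (e1 / 2) 1) (min (Real.exp (-2) * (3/4)) (σ / 2 * Real.exp (-2))),
    by positivity, fun p hp => ?_⟩
  have hub : ub σ p = Real.exp (-(2 * (σ * p.2))) := ub_eq hp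
  have ht0 := hp.2.2.1
  have ht1 := hp.2.2.2
  have hst : σ * p.2 ≤ 1 := by nlinarith
  have hst0 : 0 < σ * p.2 := mul_pos hσ0 ht0
  have hE1 : Real.exp (-2) ≤ Real.exp (-(2 * (σ * p.2))) := Real.exp_le_exp.2 (by linarith)
  have hE2 : Real.exp (-(2 * (σ * p.2))) ≤ 1 := Real.exp_le_one_iff.2 (by linarith)
  have hR1 : 1 ≤ Real.exp (σ * p.2) := Real.one_le_exp hst0.le
  have hR3 : Real.exp (σ * p.2) ≤ 3 := (exp_lt_three hσ1 ht0 ht1).le
  have hlow := rt_bal_lower hR1 hR3 hp.1 hp.2.1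
  have hupp := rt_bal_upper hR1 hR3 hp.1 hp.2.1
  have hep : ep σ c (fun _ => 0) p = c * (Real.exp (-(2 * (σ * p.2))) * rt (bal (Real.exp (σ * p.2))) p.1) := by
    unfold ep fr
    have : (fun y => uu σ (fun _ => 0) (y, p.2)) =
        fun y => Real.exp (-(2 * (σ * p.2))) * bal (Real.exp (σ * p.2)) y := by
      rw [← ub_slice ht0 ht1]
      funext y; exact uu_zero σ _
    rw [this, rt_smul]
  have hep1 : e1 ≤ ep σ c (fun _ => 0) p := by
    rw [hep, he1]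
    refine mul_le_mul_of_nonneg_left ?_ hc.le
    exact mul_le_mul hE1 hlow ha10.le (Real.exp_pos _).le
  have hep2 : ep σ c (fun _ => 0) p ≤ c * a2 := by
    rw [hep]
    refine mul_le_mul_of_nonneg_left ?_ hc.le
    calc Real.exp (-(2 * (σ * p.2))) * rt (bal (Real.exp (σ * p.2))) p.1 ≤ 1 * a2 :=
          mul_le_mul hE2 hupp (ha10.le.trans hlow) (by norm_num)
      _ = a2 := one_mul _
  have hep0 : 0 < ep σ c (fun _ => 0) p := he10.trans_le hep1
  have m1 : min (min (e1 / 2) 1) (min (Real.exp (-2) * (3/4)) (σ / 2 * Real.exp (-2))) ≤ e1 / 2 :=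
    (min_le_left _ _).trans (min_le_left _ _)
  have m2 : min (min (e1 / 2) 1) (min (Real.exp (-2) * (3/4)) (σ / 2 * Real.exp (-2))) ≤ 1 :=
    (min_le_left _ _).trans (min_le_right _ _)
  have m3 : min (min (e1 / 2) 1) (min (Real.exp (-2) * (3/4)) (σ / 2 * Real.exp (-2))) ≤ Real.exp (-2) * (3/4) :=
    (min_le_right _ _).trans (min_le_left _ _)
  have m4 : min (min (e1 / 2) 1) (min (Real.exp (-2) * (3/4)) (σ / 2 * Real.exp (-2))) ≤ σ / 2 * Real.exp (-2) :=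
    (min_le_right _ _).trans (min_le_right _ _)
  refine ⟨by linarith, by linarith, m3.trans ?_, m4.trans ?_⟩
  · unfold De
    rw [uu_zero, qq_zero, hub]
    set x := Real.exp (-(2 * (σ * p.2))) with hx
    have hx0 : 0 < x := Real.exp_pos _
    have h1 : (σ * x / ep σ c (fun _ => 0) p) ^ 2 ≤ (1/4) * x := by
      have h2 : σ * x / ep σ c (fun _ => 0) p ≤ x / 2 := by
        rw [div_le_div_iff₀ hep0 (by norm_num)]
        have : σ * 2 ≤ ep σ c (fun _ => 0) p := by linarith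
        nlinarith
      have h3 : 0 ≤ σ * x / ep σ c (fun _ => 0) p := by positivity
      calc (σ * x / ep σ c (fun _ => 0) p) ^ 2 ≤ (x / 2) ^ 2 := pow_le_pow_left₀ h3 h2 2
        _ ≤ (1/4) * x := by nlinarith
    nlinarith
  · rw [uu_zero, qq_zero, hub]
    have : σ * Real.exp (-(2 * (σ * p.2))) - σ / 2 * Real.exp (-(2 * (σ * p.2))) =
      σ / 2 * Real.exp (-(2 * (σ * p.2))) := by ring
    rw [this]
    exact mul_le_mul_of_nonneg_left hE1 (by positivity)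

/-- Packaged solutions. -/
structure Sol (c σ : ℝ) (u q : V → ℝ) (M : ℝ) : Prop where
  um : Measurable u
  qm : Measurable q
  ub : ∀ p, 0 ≤ u p ∧ u p ≤ M
  uo : ∀ p, p ∉ Om0 σ → u p = 0
  qo : ∀ p, p ∉ Om0 σ → q p = 0
  qb : ∀ p, |q p| ≤ M
  ex : ∀ᵐ p : V, p ∈ Om σ → Real.sqrt (u p) • (c • fld (fun y => u (y, p.2)) p.1) = q p • p.1
  wk : ∀ φ : V → ℝ, ContDiff ℝ 1 φ → (∀ x, φ (x, 1) = 0) →
        ∫ p : V, (u p * dt φ p + q p * fderiv ℝ φ p (p.1, 0)) = - ∫ y in ball (0:E) 1, φ (y, 0)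

theorem exists_sol {c : ℝ} (hc : 0 < c) :
    ∃ s0 : ℝ, 0 < s0 ∧ s0 ≤ 1 ∧ ∀ σ : ℝ, 0 < σ → σ ≤ s0 → ∀ g : V → ℝ, Integrable g →
      ∀ η : ℝ, 0 < η → ∃ (u q : V → ℝ) (M : ℝ), Sol c σ u q M ∧ |∫ p, (u p - ub σ p) * g p| ≤ 2 * η := by
  obtain ⟨s0, h1, h2, elo, ehi, h3, h4, h5⟩ := exists_start hc
  refine ⟨s0, h1, h2, fun σ hσ0 hσs g hg η hη => ?_⟩
  obtain ⟨u, q, Q, l1, l2, l3, l4, l5, l6, l7, l8, l9⟩ := limit hσ0 (hσs.trans h2) hc
    (show 0 < σ / 2 by positivity) h3 h4 (h5 σ hσ0 hσs) hg hη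
  refine ⟨u, q, max (MM (σ / 2) ehi) Q, ⟨l1, l2, fun p => ⟨(l3 p).1, (l3 p).2.trans (le_max_left _ _)⟩,
    l4, l5, fun p => (l6 p).trans (le_max_right _ _), l7, l8⟩, ?_⟩
  simpa only [uu_zero] using l9

/-- Two different solutions. -/
theorem two_sols {c : ℝ} (hc : 0 < c) :
    ∃ (σ₁ σ₂ : ℝ) (u₁ q₁ u₂ q₂ : V → ℝ) (M₁ M₂ : ℝ), 0 < σ₁ ∧ σ₁ ≤ 1 ∧ 0 < σ₂ ∧ σ₂ ≤ 1 ∧
      Sol c σ₁ u₁ q₁ M₁ ∧ Sol c σ₂ u₂ q₂ M₂ ∧ ¬ u₁ =ᵐ[volume] u₂ := by
  obtain ⟨s0, h1, h2, hs⟩ := exists_sol hc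
  set A : Set V := Om0 s0 ∩ {p | Real.exp (s0 / 2 * p.2) < ‖p.1‖} with hA
  have hAo : IsOpen A := (isOpen_Om0 s0).inter (isOpen_lt (by fun_prop) (by fun_prop))
  have hAm : MeasurableSet A := hAo.measurableSet
  have hAfin : volume A < ⊤ := (measure_mono inter_subset_left).trans_lt (Om0_fin h2)
  set g : V → ℝ := A.indicator (fun _ => 1) with hg
  have hgi : Integrable g := (integrable_indicator_iff hAm).2 (integrableOn_const hAfin.ne)
  have hpos : 0 < ∫ p, ub s0 p * g p := by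
    have hi : Integrable (fun p => ub s0 p * g p) :=
      hgi.bdd_mul (c := 1) (ub_meas s0).aestronglyMeasurable (Eventually.of_forall fun p => by
        rw [Real.norm_of_nonneg (ub_nonneg _ _)]; exact ub_le_one h1 p)
    rw [integral_pos_iff_support_of_nonneg (fun p => mul_nonneg (ub_nonneg _ _)
      (indicator_nonneg (fun _ _ => zero_le_one) p)) hi]
    have : A ⊆ Function.support (fun p => ub s0 p * g p) := by
      intro p hp
      have e1 : ub s0 p = Real.exp (-(2 * (s0 * p.2))) := indicator_of_mem hp.1 _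
      have e2 : g p = 1 := indicator_of_mem hp _
      simp only [Function.mem_support]
      rw [e1, e2, mul_one]
      exact (Real.exp_pos _).ne'
    refine lt_of_lt_of_le ?_ (measure_mono this)
    refine hAo.measure_pos volume ?_
    refine ⟨((Real.exp (s0 * (3/4) * (1/2))) • be 0, 1/2), ⟨?_, ?_, ?_⟩, ?_⟩
    · show ‖(Real.exp (s0 * (3/4) * (1/2))) • be 0‖ < Real.exp (s0 * (1/2))
      rw [norm_smul, norm_be0, mul_one, Real.norm_of_nonneg (Real.exp_pos _).le]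
      exact Real.exp_lt_exp.2 (by nlinarith)
    · show (0:ℝ) < 1/2; norm_num
    · show (1/2:ℝ) < 1; norm_num
    · show Real.exp (s0 / 2 * (1/2)) < ‖(Real.exp (s0 * (3/4) * (1/2))) • be 0‖
      rw [norm_smul, norm_be0, mul_one, Real.norm_of_nonneg (Real.exp_pos _).le]
      exact Real.exp_lt_exp.2 (by nlinarith)
  set a := ∫ p, ub s0 p * g p with ha
  obtain ⟨u₁, q₁, M₁, S₁, _⟩ := hs (s0 / 2) (by positivity) (by linarith) g hgi 1 one_pos
  obtain ⟨u₂, q₂, M₂, S₂, hd⟩ := hs s0 h1 le_rfl g hgi (a / 4) (by positivity)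
  refine ⟨s0 / 2, s0, u₁, q₁, u₂, q₂, M₁, M₂, by positivity, by linarith, h1, h2, S₁, S₂, ?_⟩
  intro hEq
  have hz : ∀ᵐ p : V, u₂ p * g p = 0 := by
    filter_upwards [hEq] with p hp
    rw [← hp]
    by_cases hpA : p ∈ A
    · rw [S₁.uo p (fun h => lt_asymm h.1 hpA.2), zero_mul]
    · rw [hg, indicator_of_notMem hpA, mul_zero]
  have h3 : ∫ p, (u₂ p - ub s0 p) * g p = - a := by
    rw [ha, ← integral_neg]
    refine integral_congr_ae ?_
    filter_upwards [hz] with p hp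
    rw [sub_mul, hp, zero_sub]
  rw [h3, abs_neg, abs_of_pos hpos] at hd
  linarith

end Pool.Agent.H522R3.Cvx
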