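import Pool.Agent.H522R3.Cvx.Small
import Pool.Agent.H522R3.Cvx.Base

/-! The weak equation for the states. -/

open MeasureTheory Set Filter Topology Metric
open scoped ContDiff

namespace Pool.Agent.H522R3.Cvx

abbrev V := E × ℝ

/-- The moving disc, with and without its centre. -/
def Om0 (σ : ℝ) : Set V := {p | ‖p.1‖ < Real.exp (σ * p.2) ∧ 0 < p.2 ∧ p.2 < 1}
def Om (σ : ℝ) : Set V := {p | p.1 ≠ 0 ∧ ‖p.1‖ < Real.exp (σ * p.2) ∧ 0 < p.2 ∧ p.2 < 1}

theorem Om_sub (σ : ℝ) : Om σ ⊆ Om0 σ := fun _ h => h.2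

theorem isOpen_Om0 (σ : ℝ) : IsOpen (Om0 σ) := by
  have h1 : IsOpen {p : V | ‖p.1‖ < Real.exp (σ * p.2)} := isOpen_lt (by fun_prop) (by fun_prop)
  have h2 : IsOpen {p : V | 0 < p.2} := isOpen_lt (by fun_prop) (by fun_prop)
  have h3 : IsOpen {p : V | p.2 < 1} := isOpen_lt (by fun_prop) (by fun_prop)
  exact h1.inter (h2.inter h3)

theorem isOpen_Om (σ : ℝ) : IsOpen (Om σ) := by
  have h1 : IsOpen {p : V | p.1 ≠ 0} := isOpen_ne_fun (by fun_prop) (by fun_prop)
  exact h1.inter (isOpen_Om0 σ)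

/-- The divergence and the time derivative. -/
noncomputable def dv (B : V → ℝ) (p : V) : ℝ := 2 * B p + fderiv ℝ B p (p.1, 0)
noncomputable def dt (B : V → ℝ) (p : V) : ℝ := fderiv ℝ B p (0, 1)

theorem second_symm {G : V → ℝ} (hG : ContDiff ℝ ∞ G) (a b p : V) :
    fderiv ℝ (fun p => fderiv ℝ G p a) p b = fderiv ℝ (fun p => fderiv ℝ G p b) p a := by
  have hd : DifferentiableAt ℝ (fderiv ℝ G) p :=
    ((contDiff_infty_iff_fderiv.1 hG).2.differentiable (by simp)) p
  have e : ∀ c : V, fderiv ℝ (fun p => fderiv ℝ G p c) p = (fderiv ℝ (fderiv ℝ G) p).flip c := by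
    intro c
    have := (hd.hasFDerivAt.clm_apply (hasFDerivAt_const c p)).fderiv
    simpa using this
  rw [e a, e b]
  have hs : IsSymmSndFDerivAt ℝ G p := (hG.contDiffAt).isSymmSndFDerivAt
    (by rw [minSmoothness_of_isRCLikeNormedField]; exact ENat.LEInfty.out)
  exact hs b a

instance : (volume : Measure V).IsAddHaarMeasure := by
  rw [Measure.volume_eq_prod]; infer_instance

theorem comm_zero {G φ : V → ℝ} (hG : ContDiff ℝ ∞ G) (hGc : HasCompactSupport G)
    (hφ : ContDiff ℝ 1 φ) (a b : V) :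
    Integrable (fun p => fderiv ℝ G p a * fderiv ℝ φ p b - fderiv ℝ G p b * fderiv ℝ φ p a) ∧
    ∫ p, (fderiv ℝ G p a * fderiv ℝ φ p b - fderiv ℝ G p b * fderiv ℝ φ p a) = 0 := by
  have hGa : ∀ c : V, ContDiff ℝ ∞ (fun p => fderiv ℝ G p c) := fun c =>
    (contDiff_infty_iff_fderiv.1 hG).2.clm_apply contDiff_const
  have hGac : ∀ c : V, HasCompactSupport (fun p => fderiv ℝ G p c) := fun c =>
    hGc.fderiv_apply (𝕜 := ℝ) c
  have hφc : ∀ c : V, Continuous (fun p => fderiv ℝ φ p c) := fun c =>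
    (hφ.continuous_fderiv one_ne_zero).clm_apply continuous_const
  have hGGc : ∀ c d : V, Continuous (fun p => fderiv ℝ (fun p => fderiv ℝ G p c) p d) := fun c d =>
    ((hGa c).continuous_fderiv (by simp)).clm_apply continuous_const
  have i1 : ∀ c d : V, Integrable (fun p => fderiv ℝ G p c * fderiv ℝ φ p d) := fun c d =>
    ((hGa c).continuous.mul (hφc d)).integrable_of_hasCompactSupport (hGac c).mul_right
  have key : ∀ c d : V, ∫ p, fderiv ℝ G p c * fderiv ℝ φ p d =
      - ∫ p, fderiv ℝ (fun p => fderiv ℝ G p c) p d * φ p := by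
    intro c d
    refine integral_mul_fderiv_eq_neg_fderiv_mul_of_integrable ?_ (i1 c d) ?_ ?_ ?_
    · exact ((hGGc c d).mul hφ.continuous).integrable_of_hasCompactSupport
        ((hGac c).fderiv_apply (𝕜 := ℝ) d).mul_right
    · exact ((hGa c).continuous.mul hφ.continuous).integrable_of_hasCompactSupport (hGac c).mul_right
    · exact fun x _ => (hGa c).differentiable (by simp) x
    · exact fun x _ => hφ.differentiable one_ne_zero x
  refine ⟨(i1 a b).sub (i1 b a), ?_⟩
  rw [integral_sub (i1 a b) (i1 b a), key a b, key b a]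
  simp_rw [second_symm hG a b]
  ring

theorem pair_decomp (x : E) : ((x, 0) : V) = x 0 • ((be 0, 0) : V) + x 1 • ((be 1, 0) : V) := by
  ext1
  · simpa using decomp x
  · simp

theorem vmap_decomp (L : V →L[ℝ] ℝ) (x : E) :
    L (x, 0) = x 0 * L (be 0, 0) + x 1 * L (be 1, 0) := by
  rw [pair_decomp x, map_add, map_smul, map_smul]; simp

theorem vcoord_contDiff (i : Fin 2) : ContDiff ℝ ∞ (fun p : V => p.1 i) :=
  (EuclideanSpace.proj i : E →L[ℝ] ℝ).contDiff.comp contDiff_fst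

theorem vcoord_fderiv (i : Fin 2) (p v : V) :
    fderiv ℝ (fun p : V => p.1 i) p v = v.1 i := by
  have : HasFDerivAt (fun p : V => p.1 i) ((EuclideanSpace.proj i : E →L[ℝ] ℝ).comp
      (ContinuousLinearMap.fst ℝ E ℝ)) p :=
    ((EuclideanSpace.proj i : E →L[ℝ] ℝ).comp (ContinuousLinearMap.fst ℝ E ℝ)).hasFDerivAt
  rw [this.fderiv]; simp

theorem fderiv_mul_vcoord {B : V → ℝ} (hB : ContDiff ℝ ∞ B) (i : Fin 2) (p v : V) :
    fderiv ℝ (fun p : V => B p * p.1 i) p v = B p * v.1 i + p.1 i * fderiv ℝ B p v := by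
  have h := fderiv_mul (hB.differentiable (by simp) p)
    ((vcoord_contDiff i).differentiable (by simp) p)
  have h2 : fderiv ℝ (fun p : V => B p * p.1 i) p = _ := h
  rw [h2]
  simp only [add_apply, smul_apply, smul_eq_mul]
  rw [vcoord_fderiv]

theorem weak_pert {B φ : V → ℝ} (hB : ContDiff ℝ ∞ B) (hBc : HasCompactSupport B)
    (hφ : ContDiff ℝ 1 φ) :
    Integrable (fun p : V => dv B p * dt φ p - dt B p * fderiv ℝ φ p (p.1, 0)) ∧
    ∫ p : V, (dv B p * dt φ p - dt B p * fderiv ℝ φ p (p.1, 0)) = 0 := by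
  have hG : ∀ i : Fin 2, ContDiff ℝ ∞ (fun p : V => B p * p.1 i) := fun i =>
    hB.mul (vcoord_contDiff i)
  have hGc : ∀ i : Fin 2, HasCompactSupport (fun p : V => B p * p.1 i) := fun i => hBc.mul_right
  have h0 := comm_zero (hG 0) (hGc 0) hφ (be 0, 0) (0, 1)
  have h1 := comm_zero (hG 1) (hGc 1) hφ (be 1, 0) (0, 1)
  have hpt : ∀ p : V, dv B p * dt φ p - dt B p * fderiv ℝ φ p (p.1, 0) =
      (fderiv ℝ (fun p : V => B p * p.1 0) p (be 0, 0) * fderiv ℝ φ p (0, 1) -
        fderiv ℝ (fun p : V => B p * p.1 0) p (0, 1) * fderiv ℝ φ p (be 0, 0)) +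
      (fderiv ℝ (fun p : V => B p * p.1 1) p (be 1, 0) * fderiv ℝ φ p (0, 1) -
        fderiv ℝ (fun p : V => B p * p.1 1) p (0, 1) * fderiv ℝ φ p (be 1, 0)) := by
    intro p
    simp only [dv, dt]
    rw [fderiv_mul_vcoord hB, fderiv_mul_vcoord hB, fderiv_mul_vcoord hB, fderiv_mul_vcoord hB,
      vmap_decomp (fderiv ℝ B p) p.1, vmap_decomp (fderiv ℝ φ p) p.1]
    simp only [be_apply]
    simp
    ring
  constructor
  · exact (h0.1.add h1.1).congr (Eventually.of_forall fun p => (hpt p).symm)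
  · simp_rw [hpt]
    rw [integral_add h0.1 h1.1, h0.2, h1.2, add_zero]

/-- The base density. -/
noncomputable def ub (σ : ℝ) (p : V) : ℝ := (Om0 σ).indicator (fun p => Real.exp (-(2 * (σ * p.2)))) p

theorem ub_slice {σ t : ℝ} (ht : 0 < t) (ht1 : t < 1) :
    (fun y => ub σ (y, t)) = fun y => Real.exp (-(2 * (σ * t))) * bal (Real.exp (σ * t)) y := by
  funext y
  unfold ub
  by_cases h : ‖y‖ < Real.exp (σ * t)
  · rw [indicator_of_mem (show (y, t) ∈ Om0 σ from ⟨h, ht, ht1⟩), bal_of_lt h, mul_one]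
  · rw [indicator_of_notMem (fun hh : (y, t) ∈ Om0 σ => h hh.1), bal_of_ge (not_lt.1 h), mul_zero]

theorem ub_slice_zero {σ t : ℝ} (ht : ¬ (0 < t ∧ t < 1)) (y : E) : ub σ (y, t) = 0 :=
  indicator_of_notMem (fun hh : (y, t) ∈ Om0 σ => ht hh.2) _

theorem base_inner {σ t : ℝ} (ht : 0 < t) (ht1 : t < 1) (H : V → ℝ) :
    ∫ x : E, ub σ (x, t) * H (x, t) = ∫ y in ball (0:E) 1, H (Real.exp (σ * t) • y, t) := by
  set r := Real.exp (σ * t) with hr
  have hr0 : 0 < r := Real.exp_pos _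
  have h1 := Measure.integral_comp_smul (volume : Measure E) (fun x : E => ub σ (x, t) * H (x, t)) r
  have hfr : |(r ^ Module.finrank ℝ E)⁻¹| = Real.exp (-(2 * (σ * t))) := by
    rw [finrankE, abs_of_pos (by positivity), hr, ← Real.exp_nat_mul, ← Real.exp_neg]
    norm_num
  rw [hfr, smul_eq_mul] at h1
  have h2 : ∫ y : E, ub σ (r • y, t) * H (r • y, t) =
      Real.exp (-(2 * (σ * t))) * ∫ y in ball (0:E) 1, H (r • y, t) := by
    rw [← integral_const_mul, ← integral_indicator measurableSet_ball]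
    refine integral_congr_ae (Eventually.of_forall fun y => ?_)
    simp only
    have hs : ub σ (r • y, t) = _ := congrFun (ub_slice (σ := σ) ht ht1) (r • y)
    rw [hs, ← hr]
    by_cases hy : ‖y‖ < 1
    · have : ‖r • y‖ < r := by
        rw [norm_smul, Real.norm_of_nonneg hr0.le]
        nlinarith
      rw [bal_of_lt this, indicator_of_mem (mem_ball_zero_iff.2 hy), mul_one]
    · have : r ≤ ‖r • y‖ := by
        rw [norm_smul, Real.norm_of_nonneg hr0.le]
        rw [not_lt] at hy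
        nlinarith
      rw [bal_of_ge this, indicator_of_notMem (by rwa [mem_ball_zero_iff])]
      simp
  rw [h2] at h1
  exact (mul_left_cancel₀ (Real.exp_pos _).ne' h1).symm

theorem ub_meas (σ : ℝ) : Measurable (ub σ) := by
  unfold ub
  exact Measurable.indicator (by fun_prop) (isOpen_Om0 σ).measurableSet

theorem exp_lt_three {σ t : ℝ} (hσ1 : σ ≤ 1) (ht : 0 < t) (ht1 : t < 1) :
    Real.exp (σ * t) < 3 := by
  have h : σ * t ≤ 1 := by nlinarith
  calc Real.exp (σ * t) ≤ Real.exp 1 := Real.exp_le_exp.2 h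
    _ < 2.7182818286 := Real.exp_one_lt_d9
    _ < 3 := by norm_num

theorem ub_nonneg (σ : ℝ) (p : V) : 0 ≤ ub σ p :=
  indicator_nonneg (fun _ _ => (Real.exp_pos _).le) p

theorem ub_le_one {σ : ℝ} (hσ0 : 0 < σ) (p : V) : ub σ p ≤ 1 := by
  unfold ub
  refine indicator_apply_le' (fun h => ?_) (fun _ => zero_le_one)
  rw [Real.exp_le_one_iff]
  have : 0 < p.2 := h.2.1
  nlinarith [mul_pos hσ0 this]

theorem Om0_bdd {σ : ℝ} (hσ1 : σ ≤ 1) : Om0 σ ⊆ (closedBall (0:E) 3) ×ˢ (Icc (0:ℝ) 1) := by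
  intro p hp
  refine ⟨?_, hp.2.1.le, hp.2.2.le⟩
  rw [mem_closedBall_zero_iff]
  exact (hp.1.trans (exp_lt_three hσ1 hp.2.1 hp.2.2)).le

theorem Om0_fin {σ : ℝ} (hσ1 : σ ≤ 1) : volume (Om0 σ) < ⊤ :=
  (measure_mono (Om0_bdd hσ1)).trans_lt (((isCompact_closedBall _ _).prod isCompact_Icc).measure_lt_top)

theorem ub_mul_int {σ : ℝ} (hσ0 : 0 < σ) (hσ1 : σ ≤ 1) {H : V → ℝ} (hH : Continuous H) :
    Integrable (fun p => ub σ p * H p) := by
  have h1 : IntegrableOn H (Om0 σ) :=
    (hH.continuousOn.integrableOn_compact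
      ((isCompact_closedBall (0:E) 3).prod (isCompact_Icc (a := (0:ℝ)) (b := 1)))).mono_set (Om0_bdd hσ1)
  rw [← integrable_indicator_iff (isOpen_Om0 σ).measurableSet] at h1
  refine h1.mono ((ub_meas σ).aestronglyMeasurable.mul hH.aestronglyMeasurable)
    (Eventually.of_forall fun p => ?_)
  by_cases hp : p ∈ Om0 σ
  · rw [indicator_of_mem hp, norm_mul, Real.norm_of_nonneg (ub_nonneg σ p)]
    exact mul_le_of_le_one_left (norm_nonneg _) (ub_le_one hσ0 p)
  · have : ub σ p = 0 := indicator_of_notMem hp _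
    rw [this, zero_mul, norm_zero]; exact norm_nonneg _

/-- The base equation. -/
theorem weak_base {σ : ℝ} (hσ0 : 0 < σ) (hσ1 : σ ≤ 1) {φ : V → ℝ} (hφ : ContDiff ℝ 1 φ)
    (hφ1 : ∀ x, φ (x, 1) = 0) :
    ∫ p : V, ub σ p * (dt φ p + σ * fderiv ℝ φ p (p.1, 0)) = - ∫ y in ball (0:E) 1, φ (y, 0) := by
  set H : V → ℝ := fun p => dt φ p + σ * fderiv ℝ φ p (p.1, 0) with hHd
  have hHc : Continuous H := by
    have h1 := hφ.continuous_fderiv one_ne_zero
    have h2 : Continuous fun p : V => fderiv ℝ φ p (0, 1) := h1.clm_apply continuous_const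
    have h3 : Continuous fun p : V => fderiv ℝ φ p (p.1, 0) :=
      h1.clm_apply (continuous_fst.prodMk continuous_const)
    exact h2.add (continuous_const.mul h3)
  have hint := ub_mul_int hσ0 hσ1 hHc
  have e1 : ∫ p : V, ub σ p * H p = ∫ t : ℝ, ∫ x : E, ub σ (x, t) * H (x, t) := by
    rw [Measure.volume_eq_prod] at hint ⊢
    exact integral_prod_symm _ hint
  have e2 : ∫ t : ℝ, ∫ x : E, ub σ (x, t) * H (x, t) =
      ∫ t in Ioo (0:ℝ) 1, ∫ y in ball (0:E) 1, H (Real.exp (σ * t) • y, t) := by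
    rw [← integral_indicator measurableSet_Ioo]
    refine integral_congr_ae (Eventually.of_forall fun t => ?_)
    simp only
    by_cases ht : t ∈ Ioo (0:ℝ) 1
    · rw [indicator_of_mem ht, base_inner ht.1 ht.2]
    · rw [indicator_of_notMem ht]
      simp [ub_slice_zero ht]
  have hcont : Continuous fun q : ℝ × E => H (Real.exp (σ * q.1) • q.2, q.1) := by
    refine hHc.comp ?_
    exact (((Real.continuous_exp.comp (continuous_const.mul continuous_fst)).smul continuous_snd).prodMk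
      continuous_fst)
  have e3 : ∫ t in Ioo (0:ℝ) 1, ∫ y in ball (0:E) 1, H (Real.exp (σ * t) • y, t) =
      ∫ y in ball (0:E) 1, ∫ t in Ioo (0:ℝ) 1, H (Real.exp (σ * t) • y, t) := by
    refine integral_integral_swap (f := fun (t : ℝ) (y : E) => H (Real.exp (σ * t) • y, t)) ?_
    rw [Measure.prod_restrict]
    exact (hcont.continuousOn.integrableOn_compact
      ((isCompact_Icc (a := (0:ℝ)) (b := 1)).prod (isCompact_closedBall (0:E) 1))).mono_set
      (prod_mono Ioo_subset_Icc_self ball_subset_closedBall)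
  have e4 : ∀ y : E, ∫ t in Ioo (0:ℝ) 1, H (Real.exp (σ * t) • y, t) = - φ (y, 0) := by
    intro y
    have hd : ∀ t : ℝ, HasDerivAt (fun t : ℝ => φ (Real.exp (σ * t) • y, t))
        (H (Real.exp (σ * t) • y, t)) t := by
      intro t
      have h1 : HasDerivAt (fun t : ℝ => Real.exp (σ * t)) (Real.exp (σ * t) * σ) t := by
        have := ((hasDerivAt_id t).const_mul σ).exp
        simpa using this
      have h2 : HasDerivAt (fun t : ℝ => ((Real.exp (σ * t) • y, t) : V))
          (((Real.exp (σ * t) * σ) • y, 1) : V) t :=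
        (h1.smul_const y).prodMk (hasDerivAt_id t)
      have h3 := HasFDerivAt.comp_hasDerivAt (f := fun t : ℝ => ((Real.exp (σ * t) • y, t) : V)) (l := φ) t
        ((hφ.differentiable one_ne_zero (Real.exp (σ * t) • y, t)).hasFDerivAt) h2
      have h4 : fderiv ℝ φ (Real.exp (σ * t) • y, t) (((Real.exp (σ * t) * σ) • y, 1) : V) =
          H (Real.exp (σ * t) • y, t) := by
        have : (((Real.exp (σ * t) * σ) • y, 1) : V) = (0, 1) + σ • ((Real.exp (σ * t) • y, 0) : V) := by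
          ext1
          · simp [smul_smul, mul_comm]
          · simp
        rw [this, map_add, map_smul]
        simp [hHd, dt]
      rw [h4] at h3
      exact h3
    have hci : Continuous fun t : ℝ => H (Real.exp (σ * t) • y, t) :=
      hcont.comp (continuous_id.prodMk continuous_const)
    rw [← integral_Ioc_eq_integral_Ioo, ← intervalIntegral.integral_of_le zero_le_one,
      intervalIntegral.integral_eq_sub_of_hasDerivAt (fun t _ => hd t) (hci.intervalIntegrable _ _)]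
    simp [hφ1]
  calc ∫ p : V, ub σ p * H p = ∫ y in ball (0:E) 1, ∫ t in Ioo (0:ℝ) 1, H (Real.exp (σ * t) • y, t) := by
        rw [e1, e2, e3]
    _ = ∫ y in ball (0:E) 1, - φ (y, 0) := by simp_rw [e4]
    _ = - ∫ y in ball (0:E) 1, φ (y, 0) := integral_neg _

/-- The admissible potentials. -/
structure Adm (σ : ℝ) (B : V → ℝ) : Prop where
  smooth : ContDiff ℝ ∞ B
  cpt : HasCompactSupport B
  sub : tsupport B ⊆ Om σ
  rad : ∀ p p' : V, ‖p.1‖ = ‖p'.1‖ → p.2 = p'.2 → B p = B p'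

/-- Density and flux coefficient of a state. -/
noncomputable def uu (σ : ℝ) (B : V → ℝ) (p : V) : ℝ := ub σ p + dv B p
noncomputable def qq (σ : ℝ) (B : V → ℝ) (p : V) : ℝ := σ * ub σ p - dt B p

theorem weak_state {σ : ℝ} (hσ0 : 0 < σ) (hσ1 : σ ≤ 1) {B : V → ℝ} (hB : Adm σ B) {φ : V → ℝ}
    (hφ : ContDiff ℝ 1 φ) (hφ1 : ∀ x, φ (x, 1) = 0) :
    ∫ p : V, (uu σ B p * dt φ p + qq σ B p * fderiv ℝ φ p (p.1, 0)) =
      - ∫ y in ball (0:E) 1, φ (y, 0) := by
  have h1 := hφ.continuous_fderiv one_ne_zero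
  have h2 : Continuous fun p : V => fderiv ℝ φ p (0, 1) := h1.clm_apply continuous_const
  have h3 : Continuous fun p : V => fderiv ℝ φ p (p.1, 0) :=
    h1.clm_apply (continuous_fst.prodMk continuous_const)
  have hi := ub_mul_int hσ0 hσ1 (H := fun p => dt φ p + σ * fderiv ℝ φ p (p.1, 0))
    (h2.add (continuous_const.mul h3))
  have hw := weak_pert hB.smooth hB.cpt hφ
  have e : ∀ p : V, uu σ B p * dt φ p + qq σ B p * fderiv ℝ φ p (p.1, 0) =
      ub σ p * (dt φ p + σ * fderiv ℝ φ p (p.1, 0)) + (dv B p * dt φ p - dt B p * fderiv ℝ φ p (p.1, 0)) := by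
    intro p; simp only [uu, qq]; ring
  simp_rw [e]
  rw [integral_add hi hw.1, hw.2, add_zero, weak_base hσ0 hσ1 hφ hφ1]

end Pool.Agent.H522R3.Cvx
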