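import Pool.Agent.H522R3.Cvx.Bump

/-! The main step of the convex integration. -/

open MeasureTheory Set Filter Topology Metric
open scoped ContDiff ENNReal

namespace Pool.Agent.H522R3.Cvx

theorem real_id {u q e c0 b C : ℝ} (he : e ≠ 0) :
    u + b * C - ((q + c0 * (b * C)) / e) ^ 2 = (u - (q / e) ^ 2) +
      (b * (1 - 2 * (q * c0 / e ^ 2))) * C - ((1/2) * (c0 ^ 2 * b ^ 2 / e ^ 2) +
        (1/2) * ((c0 ^ 2 * b ^ 2 / e ^ 2) * (2 * C ^ 2 - 1))) := by
  field_simp; ring

theorem real_fin {a W M J D : ℝ} (hW : 0 < W) (hM : 0 < M)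
    (h : a * ((J / (8 * W)) ^ 2 * (J / (4 * M))) ≤ D) :
    a * (1 / (8 * W)) ^ 2 * (1 / (4 * M)) / 4 * J ^ 3 ≤ D / 4 := by
  have : a * (1 / (8 * W)) ^ 2 * (1 / (4 * M)) / 4 * J ^ 3 =
      a * ((J / (8 * W)) ^ 2 * (J / (4 * M))) / 4 := by field_simp
  rw [this]; linarith

theorem decr {α : Type*} [MeasurableSpace α] {μ : Measure α} {s : Set α} (hs : MeasurableSet s)
    (hfin : μ s < ⊤) {De De' A X Y F : α → ℝ} (iD : IntegrableOn De s μ) (iD' : IntegrableOn De' s μ)
    (iA : IntegrableOn A s μ) (iX : IntegrableOn X s μ) (iY : IntegrableOn Y s μ)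
    (hF : ∀ p ∈ s, F p = De p + A p - ((1/2) * X p + (1/2) * Y p)) {η2 D W : ℝ} (hη20 : 0 < η2)
    (hW : 0 < W) (hWv : μ.real s ≤ W) (hη : η2 ≤ D / (16 * W))
    (hDe : ∀ p ∈ s, De' p ≤ F p + η2) (k1 : |∫ p in s, A p ∂μ| ≤ D / 16)
    (k2 : |∫ p in s, Y p ∂μ| ≤ D / 16) (hX : ∫ p in s, X p ∂μ = D) :
    ∫ p in s, De' p ∂μ ≤ (∫ p in s, De p ∂μ) - D / 4 := by
  have m1 : IntegrableOn (fun p => De p + A p) s μ := iD.add iA
  have m2 : IntegrableOn (fun p => (1/2) * X p) s μ := iX.const_mul _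
  have m3 : IntegrableOn (fun p => (1/2) * Y p) s μ := iY.const_mul _
  have m4 : IntegrableOn (fun p => (1/2) * X p + (1/2) * Y p) s μ := m2.add m3
  have m5 : IntegrableOn (fun p => De p + A p - ((1/2) * X p + (1/2) * Y p)) s μ := m1.sub m4
  have m6 : IntegrableOn (fun p => De p + A p - ((1/2) * X p + (1/2) * Y p) + η2) s μ :=
    m5.add (integrableOn_const hfin.ne)
  have h1 : ∫ p in s, De' p ∂μ ≤ ∫ p in s, (De p + A p - ((1/2) * X p + (1/2) * Y p) + η2) ∂μ := by
    refine setIntegral_mono_on iD' m6 hs fun p hp => ?_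
    rw [← hF p hp]; exact hDe p hp
  rw [integral_add m5 (integrableOn_const (C := η2) hfin.ne), integral_sub m1 m4, integral_add iD iA,
    integral_add m2 m3, integral_const_mul, integral_const_mul, hX, setIntegral_const, smul_eq_mul] at h1
  have h6 : μ.real s * η2 ≤ W * (D / (16 * W)) := mul_le_mul hWv hη hη20.le hW.le
  have h7 : W * (D / (16 * W)) = D / 16 := by field_simp
  have a1 := (abs_le.1 k1).2
  have a2 := (abs_le.1 k2).1
  have hD : 0 < D := by
    have h8 := hη20.trans_le hη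
    rwa [div_pos_iff_of_pos_right (by positivity)] at h8
  linarith

section
variable {σ c c0 elo ehi : ℝ} {B : V → ℝ}

theorem uu_rad (hB : Adm σ B) {p p' : V} (h1 : ‖p.1‖ = ‖p'.1‖) (h2 : p.2 = p'.2) :
    dv B p = dv B p' ∧ dt B p = dt B p' ∧ ub σ p = ub σ p' := by
  set R : E ≃ₗᵢ[ℝ] E := (ℝ ∙ (p.1 - p'.1))ᗮ.reflection with hRd
  have hR : R p.1 = p'.1 := Submodule.reflection_sub h1
  set RR : V →L[ℝ] V := ((R.toContinuousLinearEquiv : E →L[ℝ] E).comp (ContinuousLinearMap.fst ℝ E ℝ)).prod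
    (ContinuousLinearMap.snd ℝ E ℝ) with hRR
  have hRRv : ∀ v : V, RR v = (R v.1, v.2) := fun v => rfl
  have hB' : B = fun z => B (RR z) := by
    funext z; exact hB.rad _ _ (R.norm_map z.1).symm rfl
  have hg : Differentiable ℝ B := hB.smooth.differentiable (by simp)
  have hRp : RR p = p' := by rw [hRRv]; ext1 <;> simp [hR, h2]
  have h4 : HasFDerivAt (fun z => B (RR z)) ((fderiv ℝ B (RR p)).comp RR) p :=
    HasFDerivAt.comp (g := B) (f := fun z => RR z) p (hg (RR p)).hasFDerivAt RR.hasFDerivAt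
  have h5 : ∀ v, fderiv ℝ B p v = fderiv ℝ B p' (RR v) := by
    intro v
    have : fderiv ℝ B p = fderiv ℝ (fun z => B (RR z)) p := by rw [← hB']
    rw [this, h4.fderiv, hRp]; rfl
  refine ⟨?_, ?_, ?_⟩
  · unfold dv
    rw [h5, hRRv, hB.rad p p' h1 h2]; simp only [hR]
  · unfold dt
    rw [h5, hRRv]; simp
  · have e1 : p = (p.1, p.2) := rfl
    have e2 : p' = (p'.1, p.2) := by rw [h2]
    rw [e1, e2]
    by_cases ht : 0 < p.2 ∧ p.2 < 1
    · have e := ub_slice (σ := σ) ht.1 ht.2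
      have e3 : ub σ (p.1, p.2) = _ := congrFun e p.1
      have e4 : ub σ (p'.1, p.2) = _ := congrFun e p'.1
      rw [e3, e4, bal_rad _ p.1 p'.1 h1]
    · rw [ub_slice_zero ht, ub_slice_zero ht]

theorem De_rad (hB : Adm σ B) (p p' : V) (h1 : ‖p.1‖ = ‖p'.1‖) (h2 : p.2 = p'.2) :
    De σ c B p = De σ c B p' := by
  obtain ⟨a1, a2, a3⟩ := uu_rad hB h1 h2
  unfold De uu qq
  rw [ep_rad hB h1 h2, a1, a2, a3]

theorem adm_add {P : V → ℝ} (hB : Adm σ B) (hP : Adm σ P) : Adm σ (fun p => B p + P p) := by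
  refine ⟨hB.smooth.add hP.smooth, hB.cpt.add hP.cpt, ?_, ?_⟩
  · exact (tsupport_add B P).trans (union_subset hB.sub hP.sub)
  · intro p p' h1 h2
    simp only [hB.rad p p' h1 h2, hP.rad p p' h1 h2]

theorem dv_add {P : V → ℝ} (hB : Adm σ B) (hP : Adm σ P) (p : V) :
    dv (fun p => B p + P p) p = dv B p + dv P p ∧ dt (fun p => B p + P p) p = dt B p + dt P p := by
  have h := fderiv_fun_add (hB.smooth.differentiable (by simp) p) (hP.smooth.differentiable (by simp) p)
  unfold dv dt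
  rw [h]
  simp only [add_apply]
  exact ⟨by ring, trivial⟩

theorem uu_add {P : V → ℝ} (hB : Adm σ B) (hP : Adm σ P) (p : V) :
    uu σ (fun p => B p + P p) p = uu σ B p + dv P p := by
  unfold uu; rw [(dv_add hB hP p).1]; ring

theorem qq_add {P : V → ℝ} (hB : Adm σ B) (hP : Adm σ P) (p : V) :
    qq σ (fun p => B p + P p) p = qq σ B p - dt P p := by
  unfold qq; rw [(dv_add hB hP p).2]; ring

theorem ep_add (hσ0 : 0 < σ) (hσ1 : σ ≤ 1) (hc0 : 0 < c0) (helo : 0 < elo)
    {P : V → ℝ} (hB : St σ c c0 elo ehi B) (hP : Adm σ P) (p : V) :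
    ep σ c (fun p => B p + P p) p = ep σ c B p + c * fr (dv P) p := by
  obtain ⟨C, _, hC⟩ := adm_bound hP
  unfold ep fr
  rw [← mul_add, ← rt_add (uu_den hσ0 hσ1 hc0 helo hB p.2) (slice_den hσ1 hP (fun q => (hC q).2.1) p.2)]
  congr 2
  funext y
  exact uu_add hB.adm hP (y, p.2)

theorem De_int (hσ0 : 0 < σ) (hσ1 : σ ≤ 1) (hc0 : 0 < c0) (helo : 0 < elo)
    (hB : St σ c c0 elo ehi B) : IntegrableOn (De σ c B) (Om σ) := by
  have hOfin : volume (Om σ) < ⊤ := (measure_mono (Om_sub σ)).trans_lt (Om0_fin hσ1)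
  have hOm : MeasurableSet (Om σ) := (isOpen_Om σ).measurableSet
  refine Integrable.mono' (integrableOn_const (C := MM c0 ehi) hOfin.ne)
    ((De_contOn hσ0 hσ1 hc0 helo hB).aestronglyMeasurable hOm) ?_
  refine (ae_restrict_iff' hOm).2 (Eventually.of_forall fun p hp => ?_)
  have h := st_facts hc0 helo hB hp
  rw [Real.norm_of_nonneg h.2.2.1.le]
  have : De σ c B p ≤ uu σ B p := by unfold De; have := sq_nonneg (qq σ B p / ep σ c B p); linarith
  exact this.trans h.2.2.2.2.2.2.2.2.1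

theorem J_pos (hσ0 : 0 < σ) (hσ1 : σ ≤ 1) (hc0 : 0 < c0) (helo : 0 < elo)
    (hB : St σ c c0 elo ehi B) : 0 < J σ c B := by
  unfold J
  have hOm : MeasurableSet (Om σ) := (isOpen_Om σ).measurableSet
  rw [setIntegral_pos_iff_support_of_nonneg_ae ?_ (De_int hσ0 hσ1 hc0 helo hB)]
  · have : Function.support (De σ c B) ∩ Om σ = Om σ := by
      refine inter_eq_self_of_subset_right fun p hp => ?_
      exact (st_facts hc0 helo hB hp).2.2.1.ne'
    rw [this]
    refine (isOpen_Om σ).measure_pos volume ⟨((1/2:ℝ) • be 0, 1/2), ?_, ?_, ?_, ?_⟩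
    · intro h
      have := congrArg norm h
      rw [norm_smul, norm_be0] at this
      norm_num at this
    · show ‖(1/2:ℝ) • be 0‖ < Real.exp (σ * (1/2))
      rw [norm_smul, norm_be0]
      have : 1 < Real.exp (σ * (1/2)) := Real.one_lt_exp_iff.2 (by positivity)
      norm_num; linarith
    · show (0:ℝ) < 1/2; norm_num
    · show (1/2:ℝ) < 1; norm_num
  · exact (ae_restrict_iff' hOm).2 (Eventually.of_forall fun p hp => (st_facts hc0 helo hB hp).2.2.1.le)

/-- orthogonality of the perturbation to integrable functions -/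
theorem orth {b : V → ℝ} (hb : Adm σ b) (hc0 : 0 < c0) {G : V → ℝ} (hG : Integrable G) :
    Tendsto (fun l : ℝ => ∫ p, dv (pP c0 b l) p * G p) atTop (𝓝 0) := by
  obtain ⟨C, hC1, hC⟩ := adm_bound hb
  have hbG : Integrable (fun p => b p * G p) :=
    hG.bdd_mul (c := C) hb.smooth.continuous.aestronglyMeasurable (Eventually.of_forall fun p => (hC p).1)
  have h1 := rl hbG (a := fun x => Real.log ‖x‖) (by fun_prop) hc0
  have h2 : Tendsto (fun l : ℝ => l⁻¹ * (C * ∫ p, |G p|)) atTop (𝓝 0) := by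
    have := tendsto_inv_atTop_zero (𝕜 := ℝ)
    simpa using this.mul_const (C * ∫ p, |G p|)
  have hsm : ∀ l : ℝ, AEStronglyMeasurable (fun p : V => Real.sin (l * th c0 p)) volume := fun l => by
    unfold th
    exact Measurable.aestronglyMeasurable (by fun_prop)
  have hi2 : ∀ l : ℝ, Integrable (fun p => dv b p * (l⁻¹ * Real.sin (l * th c0 p)) * G p) := by
    intro l
    refine hG.bdd_mul (c := C * |l⁻¹|) ?_ (Eventually.of_forall fun p => ?_)
    · exact (dv_cont hb).aestronglyMeasurable.mul ((hsm l).const_mul _)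
    · rw [Real.norm_eq_abs, abs_mul, abs_mul]
      exact mul_le_mul (hC p).2.1 (mul_le_of_le_one_right (abs_nonneg _) (Real.abs_sin_le_one _))
        (by positivity) (by linarith)
  have hi1 : ∀ l : ℝ, Integrable (fun p => b p * G p * Real.cos (l * th c0 p)) := by
    intro l
    refine hbG.mul_bdd (c := 1) ?_ (Eventually.of_forall fun p => Real.abs_cos_le_one _)
    unfold th
    exact Measurable.aestronglyMeasurable (by fun_prop)
  have h3 : Tendsto (fun l : ℝ => ∫ p, dv b p * (l⁻¹ * Real.sin (l * th c0 p)) * G p) atTop (𝓝 0) := by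
    refine squeeze_zero_norm' ?_ h2
    filter_upwards [eventually_gt_atTop 0] with l hl
    have hinv0 : 0 < l⁻¹ := by positivity
    calc ‖∫ p, dv b p * (l⁻¹ * Real.sin (l * th c0 p)) * G p‖ ≤ ∫ p, l⁻¹ * C * |G p| := by
          refine norm_integral_le_of_norm_le (hG.abs.const_mul _) (Eventually.of_forall fun p => ?_)
          rw [Real.norm_eq_abs, abs_mul, abs_mul, abs_mul, abs_of_pos hinv0]
          refine mul_le_mul_of_nonneg_right ?_ (abs_nonneg _)
          rw [mul_comm l⁻¹ C]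
          exact mul_le_mul (hC p).2.1 (mul_le_of_le_one_right hinv0.le (Real.abs_sin_le_one _))
            (by positivity) (by linarith)
      _ = l⁻¹ * (C * ∫ p, |G p|) := by rw [integral_const_mul]; ring
  have h4 := h1.add h3
  rw [add_zero] at h4
  refine h4.congr' ?_
  filter_upwards [eventually_gt_atTop 0] with l hl
  have hi1' : Integrable (fun p : V => b p * G p * Real.cos (l * (Real.log ‖p.1‖ - c0 * p.2))) := hi1 l
  rw [← integral_add hi1' (hi2 l)]
  refine integral_congr_ae (Eventually.of_forall fun p => ?_)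
  simp only
  rw [pP_dv hb hl]
  unfold th
  ring

set_option maxHeartbeats 4000000 in
/-- The main step. -/
theorem step (hσ0 : 0 < σ) (hσ1 : σ ≤ 1) (hc : 0 < c) (hc0 : 0 < c0) (helo : 0 < elo)
    (hehi : elo < ehi) :
    ∃ κ : ℝ, 0 < κ ∧ ∀ B : V → ℝ, St σ c c0 elo ehi B → ∀ S : Set (V → ℝ), S.Finite →
      (∀ G ∈ S, Integrable G) → ∀ η : ℝ, 0 < η → ∃ P : V → ℝ, Adm σ P ∧
        St σ c c0 elo ehi (fun p => B p + P p) ∧
        J σ c (fun p => B p + P p) ≤ J σ c B - κ * J σ c B ^ 3 ∧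
        (∀ G ∈ S, |∫ p, dv P p * G p| ≤ η) ∧ (∀ p ∈ Om σ, |c * fr (dv P) p| ≤ η) ∧
        ∀ p, |- dt P p - c0 * dv P p| ≤ η := by
  have hOfin : volume (Om σ) < ⊤ := (measure_mono (Om_sub σ)).trans_lt (Om0_fin hσ1)
  have hOm : MeasurableSet (Om σ) := (isOpen_Om σ).measurableSet
  set W : ℝ := volume.real (Om σ) + 1 with hWd
  have hW : 0 < W := by have : 0 ≤ volume.real (Om σ) := measureReal_nonneg; linarith
  have hWv : volume.real (Om σ) ≤ W := by linarith
  have hM := MM_pos c0 ehi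
  set M := MM c0 ehi with hMd
  have hehi0 : 0 < ehi := helo.trans hehi
  refine ⟨(c0 ^ 2 / ehi ^ 2) * (1 / (8 * W)) ^ 2 * (1 / (4 * M)) / 4, by positivity, ?_⟩
  intro B hB S hS hSG η hη
  have hJ := J_pos hσ0 hσ1 hc0 helo hB
  obtain ⟨δ, hδ, hex⟩ := hB.ex
  have hfacts := fun p (hp : p ∈ Om σ) => st_facts hc0 helo hB hp
  obtain ⟨b, hb, hb0, hbD, hbint⟩ := exists_amp (σ := σ) hσ1 (De_contOn hσ0 hσ1 hc0 helo hB)
    (De_rad hB.adm) (fun p hp => (hfacts p hp).2.2.1) hM
    (fun p hp => by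
      have : De σ c B p ≤ uu σ B p := by unfold De; have := sq_nonneg (qq σ B p / ep σ c B p); linarith
      exact this.trans (hfacts p hp).2.2.2.2.2.2.2.2.1) hW hWv hJ
  obtain ⟨C, hC1, hC⟩ := adm_bound hb
  -- drop
  set h2 : V → ℝ := (Om σ).indicator (fun p => c0 ^ 2 * b p ^ 2 / ep σ c B p ^ 2) with hh2
  set h1 : V → ℝ := (Om σ).indicator (fun p => b p * (1 - 2 * (qq σ B p * c0 / ep σ c B p ^ 2))) with hh1
  have hepc := ep_contOn hσ0 hσ1 hc0 helo hB
  have hepne : ∀ p ∈ Om σ, ep σ c B p ^ 2 ≠ 0 := fun p hp => by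
    have := (hfacts p hp).1; have : 0 < ep σ c B p := by linarith
    positivity
  have c2 : ContinuousOn (fun p => c0 ^ 2 * b p ^ 2 / ep σ c B p ^ 2) (Om σ) :=
    (continuousOn_const.mul (hb.smooth.continuous.continuousOn.pow 2)).div (hepc.pow 2) hepne
  have c1 : ContinuousOn (fun p => b p * (1 - 2 * (qq σ B p * c0 / ep σ c B p ^ 2))) (Om σ) :=
    hb.smooth.continuous.continuousOn.mul (continuousOn_const.sub (continuousOn_const.mul
      ((((qq_contOn hB.adm).mono (Om_sub σ)).mul continuousOn_const).div (hepc.pow 2) hepne)))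
  have i2' : IntegrableOn (fun p => c0 ^ 2 * b p ^ 2 / ep σ c B p ^ 2) (Om σ) := by
    refine Integrable.mono' (integrableOn_const (C := c0 ^ 2 * C ^ 2 / elo ^ 2) hOfin.ne)
      (c2.aestronglyMeasurable hOm) ?_
    refine (ae_restrict_iff' hOm).2 (Eventually.of_forall fun p hp => ?_)
    have he := (hfacts p hp).1
    rw [Real.norm_of_nonneg (by positivity)]
    have hbC : b p ≤ C := (le_abs_self _).trans (hC p).1
    refine div_le_div₀ (by positivity) ?_ (by positivity) (pow_le_pow_left₀ helo.le he.le 2)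
    exact mul_le_mul_of_nonneg_left (pow_le_pow_left₀ (hb0 p) hbC 2) (by positivity)
  have i1' : IntegrableOn (fun p => b p * (1 - 2 * (qq σ B p * c0 / ep σ c B p ^ 2))) (Om σ) := by
    refine Integrable.mono' (integrableOn_const (C := C * 1) hOfin.ne)
      (c1.aestronglyMeasurable hOm) ?_
    refine (ae_restrict_iff' hOm).2 (Eventually.of_forall fun p hp => ?_)
    obtain ⟨f1, f2, f3, f4, f5, f6, f7, f8, f9, f10⟩ := hfacts p hp
    have he : 0 < ep σ c B p := helo.trans f1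
    have hx1 : 0 ≤ qq σ B p * c0 / ep σ c B p ^ 2 := by positivity
    have hx2 : qq σ B p * c0 / ep σ c B p ^ 2 ≤ 1 := by rw [div_le_one (by positivity)]; exact f7.le
    rw [Real.norm_eq_abs, abs_mul]
    refine mul_le_mul (hC p).1 ?_ (abs_nonneg _) (by linarith)
    rw [abs_le]; constructor <;> linarith
  have i2 : Integrable h2 := (integrable_indicator_iff hOm).2 i2'
  have i1 : Integrable h1 := (integrable_indicator_iff hOm).2 i1'
  set D : ℝ := ∫ p, h2 p with hD
  have hDlow : (c0 ^ 2 / ehi ^ 2) * ((J σ c B / (8 * W)) ^ 2 * (J σ c B / (4 * M))) ≤ D := by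
    have e1 : D = ∫ p in Om σ, c0 ^ 2 * b p ^ 2 / ep σ c B p ^ 2 := integral_indicator hOm
    rw [e1]
    refine (mul_le_mul_of_nonneg_left hbint (by positivity)).trans ?_
    rw [← integral_const_mul]
    refine setIntegral_mono_on ?_ i2' hOm fun p hp => ?_
    · have hbsq : Integrable (fun p => b p ^ 2) := by
        refine Continuous.integrable_of_hasCompactSupport (hb.smooth.continuous.pow 2) ?_
        exact hb.cpt.comp_left (g := fun x : ℝ => x ^ 2) (by norm_num)
      exact hbsq.integrableOn.const_mul _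
    · obtain ⟨f1, f2, f3, f4, f5, f6, f7, f8, f9, f10⟩ := hfacts p hp
      have he : 0 < ep σ c B p := helo.trans f1
      have : c0 ^ 2 / ehi ^ 2 ≤ c0 ^ 2 / ep σ c B p ^ 2 :=
        div_le_div_of_nonneg_left (by positivity) (by positivity) (pow_le_pow_left₀ he.le f2.le 2)
      calc c0 ^ 2 / ehi ^ 2 * b p ^ 2 ≤ c0 ^ 2 / ep σ c B p ^ 2 * b p ^ 2 :=
            mul_le_mul_of_nonneg_right this (sq_nonneg _)
        _ = c0 ^ 2 * b p ^ 2 / ep σ c B p ^ 2 := by ring
  have hD0 : 0 < D := lt_of_lt_of_le (by positivity) hDlow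
  -- tolerances
  set η2 : ℝ := min (δ / 4) (D / (16 * W)) with hη2
  have hη20 : 0 < η2 := by positivity
  have hA : 0 ≤ ehi ^ 2 / c0 + c0 * C := by positivity
  obtain ⟨τ, hτ, hreal⟩ := real_err hA helo hη20
  have hη3 : 0 < min τ (min (δ / 2) η) / c := by positivity
  have ev1 := pP_field (c0 := c0) hσ1 hb hη3
  have ev2 := (rl i1 (a := fun x => Real.log ‖x‖) (by fun_prop) hc0).eventually
    (Metric.ball_mem_nhds (0:ℝ) (show 0 < D / 16 by positivity))
  have ev3 := ((rl i2 (a := fun x => Real.log ‖x‖) (by fun_prop) hc0).comp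
    (tendsto_id.const_mul_atTop (show (0:ℝ) < 2 by norm_num))).eventually
    (Metric.ball_mem_nhds (0:ℝ) (show 0 < D / 16 by positivity))
  have ev4 : ∀ᶠ l : ℝ in atTop, ∀ G ∈ S, |∫ p, dv (pP c0 b l) p * G p| ≤ η := by
    rw [eventually_all_finite hS]
    intro G hG
    have := (orth hb hc0 (hSG G hG)).eventually (Metric.closedBall_mem_nhds (0:ℝ) hη)
    filter_upwards [this] with l hl
    rw [← Real.norm_eq_abs, ← dist_zero_right]
    exact hl
  have ev5 : ∀ᶠ l : ℝ in atTop, C * (1 + c0) / (min τ (min (δ / 2) η)) ≤ l := eventually_ge_atTop _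
  obtain ⟨l, hl1, l1, l2, l3, l4, l5⟩ := ((eventually_ge_atTop (1:ℝ)).and (ev1.and (ev2.and
    (ev3.and (ev4.and ev5))))).exists
  have hl0 : 0 < l := by linarith
  set P := pP c0 b l with hPd
  have hP : Adm σ P := pP_adm hb l
  have hm0 : 0 < min τ (min (δ / 2) η) := by positivity
  have hCl : C * l⁻¹ * (1 + c0) ≤ min τ (min (δ / 2) η) := by
    rw [div_le_iff₀ hm0] at l5
    rw [← div_eq_mul_inv, div_mul_eq_mul_div, div_le_iff₀ hl0]
    linarith
  have hinv0 : 0 < l⁻¹ := by positivity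
  have hCl0 : C * l⁻¹ ≤ min τ (min (δ / 2) η) := by
    refine le_trans ?_ hCl
    have : 0 ≤ C * l⁻¹ := by positivity
    nlinarith
  have hmτ : min τ (min (δ / 2) η) ≤ τ := min_le_left _ _
  have hmδ : min τ (min (δ / 2) η) ≤ δ / 2 := (min_le_right _ _).trans (min_le_left _ _)
  have hmη : min τ (min (δ / 2) η) ≤ η := (min_le_right _ _).trans (min_le_right _ _)
  have hsin : ∀ x : ℝ, |l⁻¹ * Real.sin x| ≤ l⁻¹ := fun x => by
    rw [abs_mul, abs_of_pos hinv0]
    exact mul_le_of_le_one_right hinv0.le (Real.abs_sin_le_one x)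
  have hr : ∀ p, |dv b p * (l⁻¹ * Real.sin (l * th c0 p))| ≤ C * l⁻¹ := fun p => by
    rw [abs_mul]; exact mul_le_mul (hC p).2.1 (hsin _) (abs_nonneg _) (by linarith)
  have hr' : ∀ p, |dt b p * (l⁻¹ * Real.sin (l * th c0 p))| ≤ C * l⁻¹ := fun p => by
    rw [abs_mul]; exact mul_le_mul (hC p).2.2 (hsin _) (abs_nonneg _) (by linarith)
  have hbeta : ∀ p, |- dt P p - c0 * dv P p| ≤ C * l⁻¹ * (1 + c0) := by
    intro p
    rw [hPd, pP_dv hb hl0, pP_dt hb hl0]
    have e : -(-(c0 * (b p * Real.cos (l * th c0 p))) + dt b p * (l⁻¹ * Real.sin (l * th c0 p))) -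
        c0 * (b p * Real.cos (l * th c0 p) + dv b p * (l⁻¹ * Real.sin (l * th c0 p))) =
        - (dt b p * (l⁻¹ * Real.sin (l * th c0 p))) - c0 * (dv b p * (l⁻¹ * Real.sin (l * th c0 p))) := by ring
    rw [e]
    refine (abs_sub _ _).trans ?_
    rw [abs_neg, abs_mul c0, abs_of_pos hc0]
    have a1 := hr' p
    have a2 := mul_le_mul_of_nonneg_left (hr p) hc0.le
    linarith
  have hfield : ∀ p ∈ Om σ, |c * fr (dv P) p| ≤ min τ (min (δ / 2) η) := by
    intro p hp
    have := l1 p hp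
    rw [abs_mul, abs_of_pos hc]
    rw [le_div_iff₀ hc] at this
    linarith
  -- pointwise analysis
  set F : V → ℝ := fun p => uu σ B p + b p * Real.cos (l * th c0 p) -
    ((qq σ B p + c0 * (b p * Real.cos (l * th c0 p))) / ep σ c B p) ^ 2 with hF
  have hDeF : ∀ p ∈ Om σ, |De σ c (fun p => B p + P p) p - F p| ≤ η2 := by
    intro p hp
    obtain ⟨f1, f2, f3, f4, f5, f6, f7, f8, f9, f10⟩ := hfacts p hp
    have hex' := hex p hp
    have hfd := hfield p hp
    have hfd2 := (abs_le.1 hfd).1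
    have hkey := hreal (qq σ B p) (c0 * (b p * Real.cos (l * th c0 p))) (ep σ c B p)
      (ep σ c B p + c * fr (dv P) p) (dv b p * (l⁻¹ * Real.sin (l * th c0 p)))
      (-(dt b p * (l⁻¹ * Real.sin (l * th c0 p)))) ?_ ?_ f1.le ?_ ((hr p).trans (hCl0.trans hmτ)) ?_ ?_
    · have e : De σ c (fun p => B p + P p) p - F p =
          dv b p * (l⁻¹ * Real.sin (l * th c0 p)) -
          (((qq σ B p + c0 * (b p * Real.cos (l * th c0 p)) + -(dt b p * (l⁻¹ * Real.sin (l * th c0 p)))) /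
            (ep σ c B p + c * fr (dv P) p)) ^ 2 -
          ((qq σ B p + c0 * (b p * Real.cos (l * th c0 p))) / ep σ c B p) ^ 2) := by
        unfold De
        rw [uu_add hB.adm hP, qq_add hB.adm hP, ep_add hσ0 hσ1 hc0 helo hB hP]
        simp only [hF]
        rw [hPd, pP_dv hb hl0, pP_dt hb hl0]
        have e2 : qq σ B p - (-(c0 * (b p * Real.cos (l * th c0 p))) + dt b p * (l⁻¹ * Real.sin (l * th c0 p))) =
          qq σ B p + c0 * (b p * Real.cos (l * th c0 p)) + -(dt b p * (l⁻¹ * Real.sin (l * th c0 p))) := by ring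
        rw [e2]; ring
      rw [e]; exact hkey
    · rw [abs_of_pos f6]
      have : 0 ≤ c0 * C := by positivity
      linarith
    · rw [abs_mul, abs_of_pos hc0, abs_mul]
      have : |b p| * |Real.cos (l * th c0 p)| ≤ C * 1 :=
        mul_le_mul (hC p).1 (Real.abs_cos_le_one _) (abs_nonneg _) (by linarith)
      have h3 := mul_le_mul_of_nonneg_left this hc0.le
      have : 0 ≤ ehi ^ 2 / c0 := by positivity
      linarith
    · linarith
    · rw [abs_neg]; exact (hr' p).trans (hCl0.trans hmτ)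
    · rw [add_sub_cancel_left]; exact hfd.trans hmτ
  have hFlow : ∀ p ∈ Om σ, De σ c B p / 2 ≤ F p := by
    intro p hp
    obtain ⟨f1, f2, f3, f4, f5, f6, f7, f8, f9, f10⟩ := hfacts p hp
    exact real_low (helo.trans f1) hc0 f3 f4 (hb0 p) (hbD p hp) (Real.abs_cos_le_one _)
  have hSt : St σ c c0 elo ehi (fun p => B p + P p) := by
    refine ⟨adm_add hB.adm hP, δ / 4, by positivity, fun p hp => ?_⟩
    obtain ⟨a1, a2, a3, a4⟩ := hex p hp
    have hfd := abs_le.1 (hfield p hp)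
    rw [ep_add hσ0 hσ1 hc0 helo hB hP]
    refine ⟨by linarith, by linarith, ?_, ?_⟩
    · have h3 := abs_le.1 (hDeF p hp)
      have h4 := hFlow p hp
      have h5 : η2 ≤ δ / 4 := min_le_left _ _
      linarith
    · rw [uu_add hB.adm hP, qq_add hB.adm hP]
      have h3 := abs_le.1 (hbeta p)
      linarith
  refine ⟨P, hP, hSt, ?_, l4, fun p hp => (hfield p hp).trans hmη, fun p => (hbeta p).trans (hCl.trans hmη)⟩
  -- the decrease
  have hFe : ∀ p ∈ Om σ, F p = De σ c B p + (b p * (1 - 2 * (qq σ B p * c0 / ep σ c B p ^ 2))) * Real.cos (l * th c0 p) -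
      ((1/2) * (c0 ^ 2 * b p ^ 2 / ep σ c B p ^ 2) +
        (1/2) * ((c0 ^ 2 * b p ^ 2 / ep σ c B p ^ 2) * Real.cos (2 * l * th c0 p))) := by
    intro p hp
    have he : ep σ c B p ≠ 0 := (helo.trans (hfacts p hp).1).ne'
    have hcs : Real.cos (2 * l * th c0 p) = 2 * Real.cos (l * th c0 p) ^ 2 - 1 := by
      rw [mul_assoc, Real.cos_two_mul]
    rw [hcs]
    exact real_id he
  have j1 : IntegrableOn (fun p => (b p * (1 - 2 * (qq σ B p * c0 / ep σ c B p ^ 2))) * Real.cos (l * th c0 p)) (Om σ) := by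
    refine Integrable.mul_bdd (c := 1) i1' ?_ (Eventually.of_forall fun p => Real.abs_cos_le_one _)
    unfold th; exact Measurable.aestronglyMeasurable (by fun_prop)
  have j2 : IntegrableOn (fun p => (c0 ^ 2 * b p ^ 2 / ep σ c B p ^ 2) * Real.cos (2 * l * th c0 p)) (Om σ) := by
    refine Integrable.mul_bdd (c := 1) i2' ?_ (Eventually.of_forall fun p => Real.abs_cos_le_one _)
    unfold th; exact Measurable.aestronglyMeasurable (by fun_prop)
  have k1 : |∫ p in Om σ, (b p * (1 - 2 * (qq σ B p * c0 / ep σ c B p ^ 2))) * Real.cos (l * th c0 p)| ≤ D / 16 := by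
    have l2' : |∫ p : V, h1 p * Real.cos (l * (Real.log ‖p.1‖ - c0 * p.2))| < D / 16 := by
      rw [← Real.norm_eq_abs, ← dist_zero_right]; exact l2
    have e : ∫ p in Om σ, (b p * (1 - 2 * (qq σ B p * c0 / ep σ c B p ^ 2))) * Real.cos (l * th c0 p) =
        ∫ p : V, h1 p * Real.cos (l * (Real.log ‖p.1‖ - c0 * p.2)) := by
      rw [← integral_indicator hOm]
      refine integral_congr_ae (Eventually.of_forall fun p => ?_)
      simp only [hh1, th]
      by_cases hp : p ∈ Om σ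
      · rw [indicator_of_mem hp, indicator_of_mem hp]
      · rw [indicator_of_notMem hp, indicator_of_notMem hp, zero_mul]
    rw [e]; exact l2'.le
  have k2 : |∫ p in Om σ, (c0 ^ 2 * b p ^ 2 / ep σ c B p ^ 2) * Real.cos (2 * l * th c0 p)| ≤ D / 16 := by
    have l3' : |∫ p : V, h2 p * Real.cos (2 * l * (Real.log ‖p.1‖ - c0 * p.2))| < D / 16 := by
      rw [← Real.norm_eq_abs, ← dist_zero_right]; exact l3
    have e : ∫ p in Om σ, (c0 ^ 2 * b p ^ 2 / ep σ c B p ^ 2) * Real.cos (2 * l * th c0 p) =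
        ∫ p : V, h2 p * Real.cos (2 * l * (Real.log ‖p.1‖ - c0 * p.2)) := by
      rw [← integral_indicator hOm]
      refine integral_congr_ae (Eventually.of_forall fun p => ?_)
      simp only [hh2, th]
      by_cases hp : p ∈ Om σ
      · rw [indicator_of_mem hp, indicator_of_mem hp]
      · rw [indicator_of_notMem hp, indicator_of_notMem hp, zero_mul]
    rw [e]; exact l3'.le
  have hDB := De_int hσ0 hσ1 hc0 helo hB
  have hDB' := De_int hσ0 hσ1 hc0 helo hSt
  have hXD : ∫ p in Om σ, c0 ^ 2 * b p ^ 2 / ep σ c B p ^ 2 = D := (integral_indicator hOm).symm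
  have hdec := decr hOm hOfin hDB hDB' j1 i2' j2 hFe hη20 hW hWv (min_le_right _ _)
    (fun p hp => by have := (abs_le.1 (hDeF p hp)).2; linarith) k1 k2 hXD
  have hfin := real_fin (a := c0 ^ 2 / ehi ^ 2) hW hM hDlow
  unfold J at hfin ⊢
  linarith

end

end Pool.Agent.H522R3.Cvx
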